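import Pool.Agent.NP15.Def

/-!
# [NP15-CSA] closure properties of `CS`

PLAN. `CS.congr`. `CS.and`: witnesses `τ1 ⊕ τ2`, constraints `Fin (m1 + m2)` (`Fin.append` after renaming; it is convenient to prove
first that `Fin m` in `CS` may be replaced by any finite index type, and renaming: `Con.map f`,
`(K.map f).Holds v ↔ K.Holds (v ∘ f)`), `B1 + B2`. `CS.map`: substitution of variables `f : σ → σ'`: the constraints are renamed by
`Sum.map f id`; the bound: `∑ i, v (f i) ≤ card σ * ∑ j, v j`, so `len (∑ i, v (f i)) ≤ card σ + len (∑ j, v j)` (if `s ≤ c * t` then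
`s < 2 ^ c * 2 ^ len t`, `len_le_of_lt`), and the polynomial `B.comp (X + C (card σ))`; monotonicity of `Polynomial.eval` over `ℕ`.
`CS.exs`: witnesses `τ ⊕ τ'`; the bound `len (∑ (v, w)) ≤ len (∑ v) + (card τ) + E.eval (len (∑ v)) + 1` or so
(`∑ v + ∑ w ≤ ∑ v + card τ * 2 ^ E ≤ 2 ^ (len (∑ v) + card τ + E)`), composed with `B`.
-/

namespace Pool.Agent.NP15

open DPoly

section

variable {σ σ' τ : Type} [Fintype σ] [Fintype σ'] [Fintype τ]

/-- renaming of the variables of a constraint -/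
def Con.ren {ρ ρ' : Type} (f : ρ → ρ') : Con ρ → Con ρ'
  | .mul i j k => .mul (f i) (f j) (f k)
  | .pw i j => .pw (f i) (f j)
  | .sum i j k => .sum (f i) (f j) (f k)

theorem Con.ren_holds {ρ ρ' : Type} (f : ρ → ρ') (v : ρ' → ℕ) (K : Con ρ) :
    (K.ren f).Holds v ↔ K.Holds (fun i => v (f i)) := by
  cases K <;> rfl

theorem eval_mono_nat (B : Polynomial ℕ) {a b : ℕ} (h : a ≤ b) : B.eval a ≤ B.eval b := by
  rw [Polynomial.eval_eq_sum_range, Polynomial.eval_eq_sum_range]
  gcongr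

theorem CS.of {P : (σ → ℕ) → Prop} {κ : Type} [Fintype κ] (K : κ → Con (σ ⊕ τ))
    (B : Polynomial ℕ) (h1 : ∀ v y, (∀ l, (K l).Holds (Sum.elim v y)) → P v)
    (h2 : ∀ v, P v → ∃ y, (∀ l, (K l).Holds (Sum.elim v y)) ∧
      ∀ j, y j ≤ 2 ^ B.eval (len (∑ i, v i))) : CS P := by
  refine ⟨τ, inferInstance, Fintype.card κ, fun l => K ((Fintype.equivFin κ).symm l), B, ?_, ?_⟩
  · intro v y h
    refine h1 v y fun l => ?_
    have h3 : Con.Holds (Sum.elim v y) (K ((Fintype.equivFin κ).symm (Fintype.equivFin κ l))) :=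
      h (Fintype.equivFin κ l)
    rwa [Equiv.symm_apply_apply] at h3
  · intro v hv
    obtain ⟨y, hy, hb⟩ := h2 v hv
    exact ⟨y, fun l => hy _, hb⟩

theorem CS.congr {P P' : (σ → ℕ) → Prop} (h : CS P) (h' : ∀ v, P v ↔ P' v) : CS P' := by
  have : P = P' := funext fun v => propext (h' v)
  rwa [← this]

theorem CS.and {P P' : (σ → ℕ) → Prop} (h : CS P) (h' : CS P') : CS (fun v => P v ∧ P' v) := by
  obtain ⟨τ1, _, m1, K1, B1, h11, h12⟩ := h
  obtain ⟨τ2, _, m2, K2, B2, h21, h22⟩ := h'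
  have e1 : ∀ (v : σ → ℕ) (y : τ1 ⊕ τ2 → ℕ),
      (fun i => (Sum.elim v y) (Sum.map id (Sum.inl : τ1 → τ1 ⊕ τ2) i)) =
        Sum.elim v (fun j => y (Sum.inl j)) := by
    intro v y
    funext i
    cases i <;> rfl
  have e2 : ∀ (v : σ → ℕ) (y : τ1 ⊕ τ2 → ℕ),
      (fun i => (Sum.elim v y) (Sum.map id (Sum.inr : τ2 → τ1 ⊕ τ2) i)) =
        Sum.elim v (fun j => y (Sum.inr j)) := by
    intro v y
    funext i
    cases i <;> rfl
  refine CS.of (τ := τ1 ⊕ τ2) (κ := Fin m1 ⊕ Fin m2)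
    (Sum.elim (fun l => (K1 l).ren (Sum.map id Sum.inl)) (fun l => (K2 l).ren (Sum.map id Sum.inr)))
    (B1 + B2) ?_ ?_
  · intro v y hK
    refine ⟨h11 v (fun j => y (Sum.inl j)) fun l => ?_, h21 v (fun j => y (Sum.inr j)) fun l => ?_⟩
    · have := hK (Sum.inl l)
      rw [Sum.elim_inl, Con.ren_holds, e1] at this
      exact this
    · have := hK (Sum.inr l)
      rw [Sum.elim_inr, Con.ren_holds, e2] at this
      exact this
  · rintro v ⟨hv1, hv2⟩
    obtain ⟨y1, hy1, hb1⟩ := h12 v hv1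
    obtain ⟨y2, hy2, hb2⟩ := h22 v hv2
    refine ⟨Sum.elim y1 y2, ?_, ?_⟩
    · rintro (l | l)
      · rw [Sum.elim_inl, Con.ren_holds, e1]
        exact hy1 l
      · rw [Sum.elim_inr, Con.ren_holds, e2]
        exact hy2 l
    · rintro (j | j)
      · refine (hb1 j).trans (Nat.pow_le_pow_right (by norm_num) ?_)
        rw [Polynomial.eval_add]
        exact Nat.le_add_right _ _
      · refine (hb2 j).trans (Nat.pow_le_pow_right (by norm_num) ?_)
        rw [Polynomial.eval_add]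
        exact Nat.le_add_left _ _

theorem len_sum_comp_le (v : σ' → ℕ) (f : σ → σ') :
    len (∑ i, v (f i)) ≤ len (∑ j, v j) + Fintype.card σ := by
  have h1 : ∑ i, v (f i) ≤ Fintype.card σ * ∑ j, v j := by
    calc ∑ i, v (f i) ≤ ∑ _i : σ, ∑ j, v j := by
          refine Finset.sum_le_sum fun i _ => ?_
          exact Finset.single_le_sum (f := v) (fun _ _ => Nat.zero_le _) (Finset.mem_univ (f i))
      _ = Fintype.card σ * ∑ j, v j := by simp
  refine len_le_of_lt ?_ (le_trans (len_pos _) (Nat.le_add_right _ _))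
  refine lt_of_le_of_lt h1 ?_
  rw [pow_add, mul_comm]
  exact Nat.mul_lt_mul'' (lt_two_pow_len _) Nat.lt_two_pow_self

theorem CS.map {P : (σ → ℕ) → Prop} (h : CS P) (f : σ → σ') :
    CS (fun v : σ' → ℕ => P (fun i => v (f i))) := by
  obtain ⟨τ, _, m, K, B, h1, h2⟩ := h
  have e : ∀ (v : σ' → ℕ) (y : τ → ℕ),
      (fun i => (Sum.elim v y) (Sum.map f id i)) = Sum.elim (fun i => v (f i)) y := by
    intro v y
    funext i
    cases i <;> rfl
  refine CS.of (τ := τ) (κ := Fin m) (fun l => (K l).ren (Sum.map f id))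
    (B.comp (Polynomial.X + Polynomial.C (Fintype.card σ))) ?_ ?_
  · intro v y hK
    refine h1 _ y fun l => ?_
    have := hK l
    rw [Con.ren_holds, e] at this
    exact this
  · intro v hv
    obtain ⟨y, hy, hb⟩ := h2 _ hv
    refine ⟨y, fun l => ?_, fun j => (hb j).trans (Nat.pow_le_pow_right (by norm_num) ?_)⟩
    · rw [Con.ren_holds, e]
      exact hy l
    · rw [Polynomial.eval_comp, Polynomial.eval_add, Polynomial.eval_X, Polynomial.eval_C]
      exact eval_mono_nat B (len_sum_comp_le v f)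

/-- existential quantification, with witnesses of polynomial length -/
theorem CS.exs {P : (σ → ℕ) → Prop} {P' : (σ ⊕ τ → ℕ) → Prop} (h : CS P') (E : Polynomial ℕ)
    (h1 : ∀ v, P v → ∃ w : τ → ℕ, P' (Sum.elim v w) ∧ ∀ j, w j ≤ 2 ^ E.eval (len (∑ i, v i)))
    (h2 : ∀ v w, P' (Sum.elim v w) → P v) : CS P := by
  obtain ⟨τ', _, m, K, B, k1, k2⟩ := h
  have e : ∀ (v : σ → ℕ) (y : τ ⊕ τ' → ℕ),
      (fun i => (Sum.elim v y) (Equiv.sumAssoc σ τ τ' i)) =
        Sum.elim (Sum.elim v (fun j => y (Sum.inl j))) (fun j => y (Sum.inr j)) := by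
    intro v y
    funext i
    rcases i with (i | i) | i <;> rfl
  refine CS.of (τ := τ ⊕ τ') (κ := Fin m) (fun l => (K l).ren (Equiv.sumAssoc σ τ τ'))
    (E + B.comp (Polynomial.X + Polynomial.C (Fintype.card τ + 1) + E)) ?_ ?_
  · intro v y hK
    refine h2 v (fun j => y (Sum.inl j)) (k1 _ (fun j => y (Sum.inr j)) fun l => ?_)
    have := hK l
    rw [Con.ren_holds, e] at this
    exact this
  · intro v hv
    obtain ⟨w, hw, hwb⟩ := h1 v hv
    obtain ⟨y, hy, hb⟩ := k2 _ hw
    refine ⟨Sum.elim w y, fun l => ?_, ?_⟩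
    · rw [Con.ren_holds, e]
      exact hy l
    · rintro (j | j)
      · refine (hwb j).trans (Nat.pow_le_pow_right (by norm_num) ?_)
        rw [Polynomial.eval_add]
        exact Nat.le_add_right _ _
      · refine (hb j).trans (Nat.pow_le_pow_right (by norm_num) ?_)
        rw [Polynomial.eval_add, Polynomial.eval_comp]
        refine le_trans (eval_mono_nat B ?_) (Nat.le_add_left _ _)
        simp only [Polynomial.eval_add, Polynomial.eval_X, Polynomial.eval_C]
        refine len_le_of_lt ?_ (by omega)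
        rw [Fintype.sum_sum_type]
        simp only [Sum.elim_inl, Sum.elim_inr]
        set s := ∑ i, v i with hs
        set a := E.eval (len s) with ha
        have hw2 : ∑ i, w i ≤ Fintype.card τ * 2 ^ a := by
          calc ∑ i, w i ≤ ∑ _i : τ, 2 ^ a := Finset.sum_le_sum fun i _ => hwb i
            _ = Fintype.card τ * 2 ^ a := by simp
        have h3 : Fintype.card τ * 2 ^ a < 2 ^ Fintype.card τ * 2 ^ a :=
          Nat.mul_lt_mul_of_pos_right Nat.lt_two_pow_self (by positivity)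
        have h4 : s < 2 ^ len s := lt_two_pow_len s
        have h5 : (2 : ℕ) ^ (len s + (Fintype.card τ + 1) + a) =
            2 * (2 ^ len s * (2 ^ Fintype.card τ * 2 ^ a)) := by ring
        rw [h5]
        have h6 : 1 ≤ (2 : ℕ) ^ len s := Nat.one_le_two_pow
        have h7 : 1 ≤ (2 : ℕ) ^ Fintype.card τ * 2 ^ a := Nat.mul_pos Nat.one_le_two_pow
          Nat.one_le_two_pow
        have h8 : (2 : ℕ) ^ len s ≤ 2 ^ len s * (2 ^ Fintype.card τ * 2 ^ a) :=
          Nat.le_mul_of_pos_right _ h7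
        have h9 : (2 : ℕ) ^ Fintype.card τ * 2 ^ a ≤
            2 ^ len s * (2 ^ Fintype.card τ * 2 ^ a) := Nat.le_mul_of_pos_left _ h6
        omega

/-- a constraint -/
theorem CS.con (K : Con σ) : CS (fun v => K.Holds v) := by
  refine CS.of (τ := Empty) (κ := Unit) (fun _ => K.ren Sum.inl) 0 ?_ ?_
  · intro v y hK
    have := hK ()
    rw [Con.ren_holds] at this
    exact this
  · intro v hv
    refine ⟨fun j => j.elim, fun _ => ?_, fun j => j.elim⟩
    rw [Con.ren_holds]
    exact hv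

end

end Pool.Agent.NP15
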