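import Pool.Agent.NP15.CSa

/-!
# [NP15-CSB] polynomial equations

PLAN. `NatP F`: polynomial functions with natural coefficients. For `NatP F`: `CS (fun v : Option σ → ℕ => v none = F (fun i => v (some i)))`
by induction on `F`: variable: `v none = v (some i)`, e.g. the system `v (some i) + w = v none`, `w + w = w` (so `w = 0`), from `CS.con`
and `CS.exs`; constant `c`: induction on `c`: `0`: `x + x = x`; `c + 1`: `x = y + 1`, where `1 = 2 ^ 0` (`pw`); sum and product:
`CS.exs` with the two values as witnesses (`τ = Fin 2`) and `CS.map` for the two subterms. The bound of the witnesses: a function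
`NatP F` satisfies `F v ≤ 2 ^ B.eval (len (∑ i, v i))` for some polynomial `B` (induction: variable: `v i ≤ ∑ v < 2 ^ len`; constants; sums
and products: add the exponents, `+ 1`); with `v (some _)` for `v : Option σ → ℕ` the sum only gets bigger
(`len_mono`, monotonicity of polynomials over `ℕ`). `CS.eq`: `∃ z, z = F v ∧ z = G v`. `exists_natP`: `MvPolynomial.induction_on` (constant
`c : ℤ`: `c = c.toNat - (-c).toNat`; sum: `(F1 + F2) - (G1 + G2)`; product with a variable: `(F * x_i) - (G * x_i)`).
-/

namespace Pool.Agent.NP15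

open DPoly

/-- polynomial functions with natural coefficients -/
inductive NatP {σ : Type} : ((σ → ℕ) → ℕ) → Prop
  | var (i : σ) : NatP (fun v => v i)
  | const (c : ℕ) : NatP (fun _ => c)
  | add {F G : (σ → ℕ) → ℕ} : NatP F → NatP G → NatP (fun v => F v + G v)
  | mul {F G : (σ → ℕ) → ℕ} : NatP F → NatP G → NatP (fun v => F v * G v)

section

variable {σ : Type} [Fintype σ]

private theorem csb_eval_mono (p : Polynomial ℕ) {x y : ℕ} (h : x ≤ y) : p.eval x ≤ p.eval y := by
  rw [Polynomial.eval_eq_sum_range, Polynomial.eval_eq_sum_range]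
  exact Finset.sum_le_sum fun i _ => Nat.mul_le_mul_left _ (Nat.pow_le_pow_left h i)

theorem NatP.bound {F : (σ → ℕ) → ℕ} (hF : NatP F) :
    ∃ B : Polynomial ℕ, ∀ v, F v ≤ 2 ^ B.eval (len (∑ i, v i)) := by
  induction hF with
  | var i =>
    refine ⟨Polynomial.X, fun v => ?_⟩
    rw [Polynomial.eval_X]
    exact (Finset.single_le_sum (fun _ _ => Nat.zero_le _) (Finset.mem_univ i)).trans
      (lt_two_pow_len _).le
  | const c =>
    refine ⟨Polynomial.C c, fun v => ?_⟩
    rw [Polynomial.eval_C]
    exact Nat.lt_two_pow_self.le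
  | @add F G _ _ h1 h2 =>
    obtain ⟨B1, h1⟩ := h1
    obtain ⟨B2, h2⟩ := h2
    refine ⟨B1 + B2 + Polynomial.C 1, fun v => ?_⟩
    show F v + G v ≤ _
    rw [Polynomial.eval_add, Polynomial.eval_add, Polynomial.eval_C]
    have h3 := h1 v
    have h4 := h2 v
    generalize B1.eval (len (∑ i, v i)) = x at *
    generalize B2.eval (len (∑ i, v i)) = y at *
    have h5 : 2 ^ x ≤ 2 ^ (x + y) := Nat.pow_le_pow_right (by norm_num) (by omega)
    have h6 : 2 ^ y ≤ 2 ^ (x + y) := Nat.pow_le_pow_right (by norm_num) (by omega)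
    rw [pow_succ]
    omega
  | mul _ _ h1 h2 =>
    obtain ⟨B1, h1⟩ := h1
    obtain ⟨B2, h2⟩ := h2
    refine ⟨B1 + B2, fun v => ?_⟩
    rw [Polynomial.eval_add, pow_add]
    exact Nat.mul_le_mul (h1 v) (h2 v)

/-- the graph of a function -/
private def csb_G (F : (σ → ℕ) → ℕ) : (Option σ → ℕ) → Prop :=
  fun v => v none = F (fun i => v (some i))

private theorem csb_sum_le (v : Option σ → ℕ) : ∑ i, v (some i) ≤ ∑ i, v i := by
  rw [Fintype.sum_option]
  exact Nat.le_add_left _ _

private theorem csb_const (c : ℕ) : CS (csb_G (fun _ : σ → ℕ => c)) := by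
  induction c with
  | zero =>
    refine (CS.con (.sum none none none)).congr fun v => ?_
    show v none + v none = v none ↔ v none = 0
    omega
  | succ c ih =>
    let f : Option σ → Option σ ⊕ Fin 3 := fun o => o.elim (.inr 0) (fun i => .inl (some i))
    refine CS.exs (τ := Fin 3) (((ih.map f).and (CS.con (.sum (.inr 0) (.inr 1) (.inl none)))).and
      ((CS.con (.pw (.inr 1) (.inr 2))).and (CS.con (.sum (.inr 2) (.inr 2) (.inr 2)))))
      (Polynomial.C c) ?_ ?_
    · intro v hv
      refine ⟨![c, 1, 0], ⟨⟨rfl, ?_⟩, ?_, ?_⟩, ?_⟩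
      · show c + 1 = v none
        exact hv.symm
      · show 1 = 2 ^ 0
        norm_num
      · show 0 + 0 = 0
        rfl
      · intro j
        rw [Polynomial.eval_C]
        have := Nat.lt_two_pow_self (n := c)
        fin_cases j
        · exact this.le
        · exact Nat.one_le_two_pow
        · exact Nat.zero_le _
    · rintro v w ⟨⟨h1, h2⟩, h3, h4⟩
      have h1 : w 0 = c := h1
      have h2 : w 0 + w 1 = v none := h2
      have h3 : w 1 = 2 ^ w 2 := h3
      have h4 : w 2 + w 2 = w 2 := h4
      have h5 : w 2 = 0 := by omega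
      rw [h5, pow_zero] at h3
      show v none = c + 1
      omega

private theorem csb_graph {F : (σ → ℕ) → ℕ} (hF : NatP F) : CS (csb_G F) := by
  induction hF with
  | var i =>
    refine CS.exs (τ := Fin 1) ((CS.con (.sum (.inr 0) (.inr 0) (.inr 0))).and
      (CS.con (.sum (.inl (some i)) (.inr 0) (.inl none)))) 0 ?_ ?_
    · intro v hv
      refine ⟨fun _ => 0, ⟨rfl, ?_⟩, fun j => Nat.zero_le _⟩
      show v (some i) + 0 = v none
      exact hv.symm
    · rintro v w ⟨h1, h2⟩
      have h1 : w 0 + w 0 = w 0 := h1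
      have h2 : v (some i) + w 0 = v none := h2
      show v none = v (some i)
      omega
  | const c => exact csb_const c
  | @add F G hF hG h1 h2 =>
    obtain ⟨B1, hB1⟩ := hF.bound
    obtain ⟨B2, hB2⟩ := hG.bound
    let f : Option σ → Option σ ⊕ Fin 2 := fun o => o.elim (.inr 0) (fun i => .inl (some i))
    let g : Option σ → Option σ ⊕ Fin 2 := fun o => o.elim (.inr 1) (fun i => .inl (some i))
    refine CS.exs (τ := Fin 2) (((h1.map f).and (h2.map g)).and
      (CS.con (.sum (.inr 0) (.inr 1) (.inl none)))) (B1 + B2) ?_ ?_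
    · intro v hv
      refine ⟨![F (fun i => v (some i)), G (fun i => v (some i))], ⟨⟨rfl, rfl⟩, hv.symm⟩, ?_⟩
      intro j
      rw [Polynomial.eval_add]
      have h3 := hB1 (fun i => v (some i))
      have h4 := hB2 (fun i => v (some i))
      have h5 := csb_eval_mono B1 (len_mono (csb_sum_le v))
      have h6 := csb_eval_mono B2 (len_mono (csb_sum_le v))
      fin_cases j
      · exact h3.trans (Nat.pow_le_pow_right (by norm_num) (by omega))
      · exact h4.trans (Nat.pow_le_pow_right (by norm_num) (by omega))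
    · rintro v w ⟨⟨h3, h4⟩, h5⟩
      have h3 : w 0 = F (fun i => v (some i)) := h3
      have h4 : w 1 = G (fun i => v (some i)) := h4
      have h5 : w 0 + w 1 = v none := h5
      show v none = F (fun i => v (some i)) + G (fun i => v (some i))
      rw [← h3, ← h4, h5]
  | @mul F G hF hG h1 h2 =>
    obtain ⟨B1, hB1⟩ := hF.bound
    obtain ⟨B2, hB2⟩ := hG.bound
    let f : Option σ → Option σ ⊕ Fin 2 := fun o => o.elim (.inr 0) (fun i => .inl (some i))
    let g : Option σ → Option σ ⊕ Fin 2 := fun o => o.elim (.inr 1) (fun i => .inl (some i))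
    refine CS.exs (τ := Fin 2) (((h1.map f).and (h2.map g)).and
      (CS.con (.mul (.inr 0) (.inr 1) (.inl none)))) (B1 + B2) ?_ ?_
    · intro v hv
      refine ⟨![F (fun i => v (some i)), G (fun i => v (some i))], ⟨⟨rfl, rfl⟩, hv.symm⟩, ?_⟩
      intro j
      rw [Polynomial.eval_add]
      have h3 := hB1 (fun i => v (some i))
      have h4 := hB2 (fun i => v (some i))
      have h5 := csb_eval_mono B1 (len_mono (csb_sum_le v))
      have h6 := csb_eval_mono B2 (len_mono (csb_sum_le v))
      fin_cases j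
      · exact h3.trans (Nat.pow_le_pow_right (by norm_num) (by omega))
      · exact h4.trans (Nat.pow_le_pow_right (by norm_num) (by omega))
    · rintro v w ⟨⟨h3, h4⟩, h5⟩
      have h3 : w 0 = F (fun i => v (some i)) := h3
      have h4 : w 1 = G (fun i => v (some i)) := h4
      have h5 : w 0 * w 1 = v none := h5
      show v none = F (fun i => v (some i)) * G (fun i => v (some i))
      rw [← h3, ← h4, h5]

theorem CS.eq {F G : (σ → ℕ) → ℕ} (hF : NatP F) (hG : NatP G) : CS (fun v => F v = G v) := by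
  obtain ⟨B, hB⟩ := hF.bound
  let f : Option σ → σ ⊕ Fin 1 := fun o => o.elim (.inr 0) (fun i => .inl i)
  refine CS.exs (τ := Fin 1) (((csb_graph hF).map f).and ((csb_graph hG).map f)) B ?_ ?_
  · intro v hv
    exact ⟨fun _ => F v, ⟨rfl, hv⟩, fun j => hB v⟩
  · rintro v w ⟨h1, h2⟩
    have h1 : w 0 = F v := h1
    have h2 : w 0 = G v := h2
    exact h1.symm.trans h2

theorem exists_natP (p : MvPolynomial σ ℤ) : ∃ F G : (σ → ℕ) → ℕ, NatP F ∧ NatP G ∧
    ∀ v, MvPolynomial.eval (fun i => (v i : ℤ)) p = (F v : ℤ) - (G v : ℤ) := by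
  induction p using MvPolynomial.induction_on with
  | C c =>
    refine ⟨fun _ => c.toNat, fun _ => (-c).toNat, .const _, .const _, fun v => ?_⟩
    rw [MvPolynomial.eval_C]
    show c = (c.toNat : ℤ) - ((-c).toNat : ℤ)
    omega
  | add p q hp hq =>
    obtain ⟨F1, G1, h1, h2, h3⟩ := hp
    obtain ⟨F2, G2, h4, h5, h6⟩ := hq
    refine ⟨fun v => F1 v + F2 v, fun v => G1 v + G2 v, h1.add h4, h2.add h5, fun v => ?_⟩
    rw [map_add, h3, h6]
    push_cast
    ring
  | mul_X p i hp =>
    obtain ⟨F1, G1, h1, h2, h3⟩ := hp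
    refine ⟨fun v => F1 v * v i, fun v => G1 v * v i, h1.mul (.var i), h2.mul (.var i), fun v => ?_⟩
    rw [map_mul, h3, MvPolynomial.eval_X]
    push_cast
    ring

end

end Pool.Agent.NP15
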