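import Pool.Agent.NP15.Def

/-!
# [NP15-CLKA] a clock

A deterministic sweeping machine (one choice, `m = 0`) which on the row `replicate ℓ b0`, `ℓ ≥ 1`, makes at least
`(ℓ + 1) ^ d - 1` and at most `(ℓ + 1) ^ d` passes. An odometer.

PLAN. Cells `B = Bool × (Fin d → Bool)` (initial cell?, marks), `b0 = (true, fun _ => false)`, `z = (false, fun _ => false)`,
control `Φ = Fin d → Bool` (which digits are full), `φ0 = fun _ => false`, `halt φ` iff all digits are full. Pass states
`T = Φ × Fin 3` (the flags; the number, up to `2`, of unmarked initial cells seen so far in the track `j`, `j` the least index with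
`φ j = false`). `step`: on a cell which is not initial: no change; on an initial cell: marks of the tracks `i < j` are removed, tracks
`i > j` are unchanged, in track `j` the first unmarked cell is marked. `fin`: `φ' i = false` for `i < j`, `φ' j = true` iff exactly one
(at most one) unmarked cell was seen, `φ' i = φ i` for `i > j`. Digit `c i` = number of marked cells of track `i`.
Invariant of a configuration `(φ, w)`: `w` has `ℓ` initial cells, other cells are unmarked (not needed), and `φ i = true ↔ c i = ℓ`.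
`V = ∑ i, c i * (ℓ + 1) ^ i`; a pass raises `V` by `1` (`∑_{i<j} ℓ (ℓ+1)^i + 1 = (ℓ+1)^j`), and `V ≤ (ℓ + 1) ^ d - 1` with equality
iff all digits are full. So the machine makes exactly `(ℓ + 1) ^ d - 1` passes. (`d = 0`: halted at once. The number `F` of
cells appended is arbitrary.) You may choose another construction if the statement `exists_clock` remains the same.
-/

namespace Pool.Agent.NP15

section clk

variable {B Φ T : Type}

private def clkIt (C : Sw B Φ T 0) (j : ℕ) (c : Φ × List B) : Φ × List B := (fun c => C.sweep c 0)^[j] c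

private theorem clkIt_succ (C : Sw B Φ T 0) (j : ℕ) (c : Φ × List B) :
    clkIt C (j + 1) c = clkIt C j (C.sweep c 0) := Function.iterate_succ_apply _ _ _

private theorem clkIt_succ' (C : Sw B Φ T 0) (j : ℕ) (c : Φ × List B) :
    clkIt C (j + 1) c = C.sweep (clkIt C j c) 0 := Function.iterate_succ_apply' _ _ _

private theorem clkIt_add (C : Sw B Φ T 0) (j k : ℕ) (c : Φ × List B) :
    clkIt C (j + k) c = clkIt C j (clkIt C k c) := Function.iterate_add_apply _ _ _ _

private def clkHT (C : Sw B Φ T 0) (c : Φ × List B) (n : ℕ) : Prop :=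
  (∀ j < n, C.halt (clkIt C j c).1 = false) ∧ C.halt (clkIt C n c).1 = true

private theorem clkHT_add (C : Sw B Φ T 0) {c : Φ × List B} {k n : ℕ}
    (h1 : ∀ j < k, C.halt (clkIt C j c).1 = false) (h2 : clkHT C (clkIt C k c) n) : clkHT C c (n + k) := by
  refine ⟨fun j hj => ?_, ?_⟩
  · rcases lt_or_ge j k with h | h
    · exact h1 j h
    · have h3 := h2.1 (j - k) (by omega)
      rw [← clkIt_add, Nat.sub_add_cancel h] at h3
      exact h3
  · have h3 := h2.2
    rw [← clkIt_add] at h3
    exact h3

private theorem clk_ch (C : Sw B Φ T 0) (k : ℕ) : ∀ c c' : Φ × List B,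
    C.Ch k c c' ↔ (∀ j < k, C.halt (clkIt C j c).1 = false) ∧ c' = clkIt C k c := by
  induction k with
  | zero =>
    intro c c'
    constructor
    · intro h
      exact ⟨fun j hj => absurd hj (Nat.not_lt_zero j), h.symm⟩
    · intro h
      exact h.2.symm
  | succ k ih =>
    intro c c'
    constructor
    · rintro ⟨h1, x, h2⟩
      have hx : x = 0 := Fin.fin_one_eq_zero x
      subst hx
      obtain ⟨h3, h4⟩ := (ih _ _).1 h2
      refine ⟨fun j hj => ?_, ?_⟩
      · cases j with
        | zero => exact h1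
        | succ j =>
          rw [clkIt_succ]
          exact h3 j (by omega)
      · rw [clkIt_succ]
        exact h4
    · rintro ⟨h1, h2⟩
      refine ⟨h1 0 (Nat.succ_pos k), 0, (ih _ _).2 ⟨fun j hj => ?_, ?_⟩⟩
      · have h3 := h1 (j + 1) (by omega)
        rw [clkIt_succ] at h3
        exact h3
      · rw [clkIt_succ] at h2
        exact h2

private theorem mealy_len {S A : Type} (step : S → A → A × S) (l : List A) : ∀ s, (mealy step s l).1.length = l.length := by
  induction l with
  | nil => intro s; rfl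
  | cons a l ih =>
    intro s
    change ((step s a).1 :: (mealy step (step s a).2 l).1).length = (a :: l).length
    rw [List.length_cons, List.length_cons, ih]

private theorem clk_mealy_append {S A : Type} (step : S → A → A × S) (l₁ l₂ : List A) : ∀ s,
    mealy step s (l₁ ++ l₂) =
      ((mealy step s l₁).1 ++ (mealy step (mealy step s l₁).2 l₂).1, (mealy step (mealy step s l₁).2 l₂).2) := by
  induction l₁ with
  | nil => intro s; rfl
  | cons a l ih =>
    intro s
    change ((step s a).1 :: (mealy step (step s a).2 (l ++ l₂)).1, (mealy step (step s a).2 (l ++ l₂)).2) = _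
    rw [ih]
    rfl

private def clkStep (C : Sw B Φ T 0) (b0 : B) (s : (T × Bool) ⊕ Fin 3) (x : Fin 3 × B) :
    (Fin 3 × B) × ((T × Bool) ⊕ Fin 3) :=
  match s with
  | .inl t => ((x.1, (C.step t.1 x.2).1), .inl ((C.step t.1 x.2).2, t.2))
  | .inr c => if x.1 = 0 then ((0, C.z), .inr c) else if x.1 = 1 then ((1, b0), .inr c) else
      if c = 0 then ((1, b0), .inr 1) else ((2, b0), .inr 2)

private def clkFin (C : Sw B Φ T 0) (φ0 : Φ) (s : (T × Bool) ⊕ Fin 3) : Φ × Bool :=
  match s with
  | .inl t => (C.fin t.1, t.2)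
  | .inr c => (φ0, decide (c ≠ 2))

private def clkNext (C : Sw B Φ T 0) (φ0 : Φ) (b0 : B) : Sw (Fin 3 × B) (Φ × Bool) ((T × Bool) ⊕ Fin 3) 0 where
  z := (0, C.z)
  F := C.F
  start := fun q _ => if C.halt q.1 then .inr 0 else .inl (C.start q.1 0, q.2)
  step := clkStep C b0
  fin := clkFin C φ0
  halt := fun q => C.halt q.1 && q.2

private theorem clk_mealy_inl (C : Sw B Φ T 0) (b0 : B) (f : Bool) (w : List B) :
    ∀ (fl : List (Fin 3)) (t : T), fl.length = w.length →
    mealy (clkStep C b0) (.inl (t, f)) (List.zip fl w) =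
      (List.zip fl (mealy C.step t w).1, .inl ((mealy C.step t w).2, f)) := by
  induction w with
  | nil =>
    intro fl t h
    have : fl = [] := List.eq_nil_of_length_eq_zero h
    subst this
    rfl
  | cons b w ih =>
    intro fl t h
    cases fl with
    | nil => simp at h
    | cons a fl =>
      rw [List.zip_cons_cons]
      change ((clkStep C b0 (.inl (t, f)) (a, b)).1 ::
        (mealy (clkStep C b0) (clkStep C b0 (.inl (t, f)) (a, b)).2 (List.zip fl w)).1,
        (mealy (clkStep C b0) (clkStep C b0 (.inl (t, f)) (a, b)).2 (List.zip fl w)).2) = _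
      have h1 : clkStep C b0 (.inl (t, f)) (a, b) = ((a, (C.step t b).1), .inl ((C.step t b).2, f)) := rfl
      rw [h1]
      simp only
      rw [ih fl _ (by simpa using h)]
      rfl

private theorem clk_sweep_normal (C : Sw B Φ T 0) (φ0 : Φ) (b0 : B) {φ : Φ} (hφ : C.halt φ = false) (f : Bool)
    (fl : List (Fin 3)) (w : List B) (h : fl.length = w.length) :
    (clkNext C φ0 b0).sweep ((φ, f), List.zip fl w) 0 =
      (((C.sweep (φ, w) 0).1, f), List.zip (fl ++ List.replicate C.F 0) (C.sweep (φ, w) 0).2) := by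
  have h1 : (clkNext C φ0 b0).start (φ, f) 0 = .inl (C.start φ 0, f) := by
    change (if C.halt φ then _ else _) = _
    rw [hφ]
    rfl
  have h2 : List.zip fl w ++ List.replicate (clkNext C φ0 b0).F (clkNext C φ0 b0).z =
      List.zip (fl ++ List.replicate C.F 0) (w ++ List.replicate C.F C.z) := by
    rw [List.zip_append h, List.zip_replicate', ]
    rfl
  unfold Sw.sweep
  simp only
  rw [h1, h2]
  change (clkFin C φ0 (mealy (clkStep C b0) (.inl (C.start φ 0, f)) _).2,
    (mealy (clkStep C b0) (.inl (C.start φ 0, f)) _).1) = _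
  rw [clk_mealy_inl C b0 f _ _ _ (by simp [h])]
  rfl

private theorem clk_sweep_len (C : Sw B Φ T 0) (φ : Φ) (w : List B) :
    (C.sweep (φ, w) 0).2.length = w.length + C.F := by
  unfold Sw.sweep
  simp only
  rw [mealy_len]
  simp

private theorem clk_sim (C : Sw B Φ T 0) (φ0 : Φ) (b0 : B) (f : Bool) (fl : List (Fin 3)) (φ : Φ) (w : List B)
    (h : fl.length = w.length) (j : ℕ) (hj : ∀ i < j, C.halt (clkIt C i (φ, w)).1 = false) :
    clkIt (clkNext C φ0 b0) j ((φ, f), List.zip fl w) =
      (((clkIt C j (φ, w)).1, f), List.zip (fl ++ List.replicate (j * C.F) 0) (clkIt C j (φ, w)).2) ∧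
    (clkIt C j (φ, w)).2.length = w.length + j * C.F := by
  induction j with
  | zero => simp [clkIt]
  | succ j ih =>
    obtain ⟨h1, h2⟩ := ih fun i hi => hj i (by omega)
    rw [clkIt_succ', clkIt_succ', h1]
    have h3 := hj j (by omega)
    obtain ⟨ψ, v, hψ⟩ : ∃ ψ v, clkIt C j (φ, w) = (ψ, v) := ⟨_, _, rfl⟩
    rw [hψ] at h2 h3 ⊢
    refine ⟨?_, ?_⟩
    · rw [clk_sweep_normal C φ0 b0 h3 f _ _ (by simp only [List.length_append, List.length_replicate]; rw [h2, h])]
      rw [List.append_assoc, ← List.replicate_add, ← Nat.succ_mul]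
    · rw [clk_sweep_len, h2]
      ring

private theorem clk_res0 (C : Sw B Φ T 0) (b0 : B) (c : Fin 3) (l : List (Fin 3 × B)) : ∀ r : ℕ,
    l.map Prod.fst = List.replicate r 0 →
    mealy (clkStep C b0) (.inr c) l = (List.replicate r (0, C.z), .inr c) := by
  induction l with
  | nil =>
    intro r h
    cases r with
    | zero => rfl
    | succ r => simp [List.replicate_succ] at h
  | cons x l ih =>
    intro r h
    cases r with
    | zero => simp at h
    | succ r =>
      rw [List.map_cons, List.replicate_succ, List.cons.injEq] at h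
      have h1 : clkStep C b0 (.inr c) x = ((0, C.z), .inr c) := by
        simp [clkStep, h.1]
      change ((clkStep C b0 (.inr c) x).1 :: (mealy (clkStep C b0) (clkStep C b0 (.inr c) x).2 l).1,
        (mealy (clkStep C b0) (clkStep C b0 (.inr c) x).2 l).2) = _
      rw [h1]
      simp only
      rw [ih r h.2]
      rfl

private theorem clk_res1 (C : Sw B Φ T 0) (b0 : B) (c : Fin 3) (l : List (Fin 3 × B)) : ∀ r : ℕ,
    l.map Prod.fst = List.replicate r 1 →
    mealy (clkStep C b0) (.inr c) l = (List.replicate r (1, b0), .inr c) := by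
  induction l with
  | nil =>
    intro r h
    cases r with
    | zero => rfl
    | succ r => simp [List.replicate_succ] at h
  | cons x l ih =>
    intro r h
    cases r with
    | zero => simp at h
    | succ r =>
      rw [List.map_cons, List.replicate_succ, List.cons.injEq] at h
      have h1 : clkStep C b0 (.inr c) x = ((1, b0), .inr c) := by
        simp [clkStep, h.1]
      change ((clkStep C b0 (.inr c) x).1 :: (mealy (clkStep C b0) (clkStep C b0 (.inr c) x).2 l).1,
        (mealy (clkStep C b0) (clkStep C b0 (.inr c) x).2 l).2) = _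
      rw [h1]
      simp only
      rw [ih r h.2]
      rfl

private theorem clk_res2 (C : Sw B Φ T 0) (b0 : B) (l : List (Fin 3 × B)) : ∀ (r : ℕ) (c : Fin 3), c ≠ 0 →
    l.map Prod.fst = List.replicate r 2 →
    mealy (clkStep C b0) (.inr c) l = (List.replicate r (2, b0), .inr (if r = 0 then c else 2)) := by
  induction l with
  | nil =>
    intro r c hc h
    cases r with
    | zero => rfl
    | succ r => simp [List.replicate_succ] at h
  | cons x l ih =>
    intro r c hc h
    cases r with
    | zero => simp at h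
    | succ r =>
      rw [List.map_cons, List.replicate_succ, List.cons.injEq] at h
      have h1 : clkStep C b0 (.inr c) x = ((2, b0), .inr 2) := by
        simp [clkStep, h.1, hc]
      change ((clkStep C b0 (.inr c) x).1 :: (mealy (clkStep C b0) (clkStep C b0 (.inr c) x).2 l).1,
        (mealy (clkStep C b0) (clkStep C b0 (.inr c) x).2 l).2) = _
      rw [h1]
      simp only
      rw [ih r 2 (by decide) h.2]
      simp [List.replicate_succ]

private theorem clk_res (C : Sw B Φ T 0) (b0 : B) (l : List (Fin 3 × B)) (p q r : ℕ)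
    (h : l.map Prod.fst = List.replicate p 1 ++ (List.replicate (q + 1) 2 ++ List.replicate r 0)) :
    mealy (clkStep C b0) (.inr 0) l = (List.replicate (p + 1) (1, b0) ++ (List.replicate q (2, b0) ++
      List.replicate r (0, C.z)), .inr (if q = 0 then 1 else 2)) := by
  obtain ⟨l₁, l', hl, h1, h'⟩ := List.map_eq_append_iff.1 h
  obtain ⟨l₂, l₃, hl', h2, h3⟩ := List.map_eq_append_iff.1 h'
  subst hl hl'
  cases l₂ with
  | nil => simp [List.replicate_succ] at h2
  | cons x l₂ =>
    rw [List.map_cons, List.replicate_succ, List.cons.injEq] at h2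
    rw [clk_mealy_append, clk_res1 C b0 0 l₁ p h1]
    simp only
    rw [List.cons_append]
    have e1 : clkStep C b0 (.inr 0) x = ((1, b0), .inr 1) := by
      simp [clkStep, h2.1]
    have e2 : mealy (clkStep C b0) (.inr 0) (x :: (l₂ ++ l₃)) =
        ((clkStep C b0 (.inr 0) x).1 :: (mealy (clkStep C b0) (clkStep C b0 (.inr 0) x).2 (l₂ ++ l₃)).1,
        (mealy (clkStep C b0) (clkStep C b0 (.inr 0) x).2 (l₂ ++ l₃)).2) := rfl
    rw [e2, e1]
    simp only
    rw [clk_mealy_append, clk_res2 C b0 l₂ q 1 (by decide) h2.2]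
    simp only
    rw [clk_res0 C b0 _ l₃ r h3]
    simp only
    rw [List.replicate_succ', List.append_assoc]
    rfl

private theorem clk_sweep_reset (C : Sw B Φ T 0) (φ0 : Φ) (b0 : B) {φ : Φ} (hφ : C.halt φ = true) (f : Bool)
    (w : List B) (p q r : ℕ) (h : w.length = p + (q + 1) + r) :
    (clkNext C φ0 b0).sweep ((φ, f), List.zip
      (List.replicate p 1 ++ (List.replicate (q + 1) 2 ++ List.replicate r 0)) w) 0 =
      ((φ0, decide (q = 0)), List.replicate (p + 1) (1, b0) ++ (List.replicate q (2, b0) ++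
        List.replicate (r + C.F) (0, C.z))) := by
  have h1 : (clkNext C φ0 b0).start (φ, f) 0 = .inr 0 := by
    change (if C.halt φ then _ else _) = _
    rw [hφ]
    rfl
  have h2 : (List.zip (List.replicate p 1 ++ (List.replicate (q + 1) 2 ++ List.replicate r 0)) w ++
      List.replicate (clkNext C φ0 b0).F (clkNext C φ0 b0).z).map Prod.fst =
      List.replicate p 1 ++ (List.replicate (q + 1) 2 ++ List.replicate (r + C.F) 0) := by
    rw [List.map_append, List.map_fst_zip, List.map_replicate]
    · change _ ++ List.replicate C.F (0 : Fin 3) = _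
      rw [List.append_assoc, List.append_assoc, List.replicate_add r C.F]
    · simp [h]
      omega
  unfold Sw.sweep
  simp only
  rw [h1]
  change (clkFin C φ0 (mealy (clkStep C b0) (.inr 0) _).2, (mealy (clkStep C b0) (.inr 0) _).1) = _
  rw [clk_res C b0 _ p q (r + C.F) h2]
  simp only
  congr 1
  by_cases hq : q = 0
  · subst hq
    rfl
  · simp [clkFin, hq]

private theorem clk_row (b0 z : B) (p q r : ℕ) :
    List.replicate p ((1 : Fin 3), b0) ++ (List.replicate q (2, b0) ++ List.replicate r (0, z)) =
    List.zip (List.replicate p 1 ++ (List.replicate q 2 ++ List.replicate r 0))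
      (List.replicate (p + q) b0 ++ List.replicate r z) := by
  rw [List.replicate_add p q, List.append_assoc, List.zip_append (by simp), List.zip_append (by simp),
    List.zip_replicate', List.zip_replicate', List.zip_replicate']

private theorem clk_main (C : Sw B Φ T 0) (φ0 : Φ) (b0 : B) (ℓ N : ℕ)
    (hC : ∀ r, clkHT C (φ0, List.replicate ℓ b0 ++ List.replicate r C.z) N) (q : ℕ) : ∀ p r, p + q = ℓ →
    clkHT (clkNext C φ0 b0) ((φ0, decide (q = 0)), List.replicate p (1, b0) ++ (List.replicate q (2, b0) ++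
      List.replicate r (0, C.z))) (q * (N + 1) + N) := by
  induction q with
  | zero =>
    intro p r hp
    rw [Nat.zero_mul, Nat.zero_add, clk_row, hp]
    have hlen : (List.replicate p (1 : Fin 3) ++ (List.replicate 0 2 ++ List.replicate r 0)).length =
        (List.replicate ℓ b0 ++ List.replicate r C.z).length := by
      simp; omega
    refine ⟨fun j hj => ?_, ?_⟩
    · rw [(clk_sim C φ0 b0 _ _ _ _ hlen j fun i hi => (hC r).1 i (by omega)).1]
      change (C.halt _ && _) = false
      rw [(hC r).1 j hj]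
      rfl
    · rw [(clk_sim C φ0 b0 _ _ _ _ hlen N fun i hi => (hC r).1 i (by omega)).1]
      change (C.halt _ && _) = true
      rw [(hC r).2]
      rfl
  | succ q ih =>
    intro p r hp
    have hlen : (List.replicate p (1 : Fin 3) ++ (List.replicate (q + 1) 2 ++ List.replicate r 0)).length =
        (List.replicate ℓ b0 ++ List.replicate r C.z).length := by
      simp; omega
    have h1 : ∀ j < N + 1, (clkNext C φ0 b0).halt (clkIt (clkNext C φ0 b0) j ((φ0, decide (q + 1 = 0)),
        List.replicate p (1, b0) ++ (List.replicate (q + 1) (2, b0) ++ List.replicate r (0, C.z)))).1 = false := by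
      intro j hj
      rw [clk_row, hp, (clk_sim C φ0 b0 _ _ _ _ hlen j fun i hi => (hC r).1 i (by omega)).1]
      change (C.halt _ && decide (q + 1 = 0)) = false
      simp
    have h2 : clkIt (clkNext C φ0 b0) (N + 1) ((φ0, decide (q + 1 = 0)),
        List.replicate p (1, b0) ++ (List.replicate (q + 1) (2, b0) ++ List.replicate r (0, C.z))) =
        ((φ0, decide (q = 0)), List.replicate (p + 1) (1, b0) ++ (List.replicate q (2, b0) ++
        List.replicate (r + N * C.F + C.F) (0, C.z))) := by
      obtain ⟨h3, h4⟩ := clk_sim C φ0 b0 (decide (q + 1 = 0)) _ φ0 _ hlen N fun i hi => (hC r).1 i (by omega)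
      rw [clkIt_succ', clk_row, hp, h3, List.append_assoc, List.append_assoc, ← List.replicate_add]
      refine clk_sweep_reset C φ0 b0 (hC r).2 _ _ p q (r + N * C.F) ?_
      rw [h4]
      simp
      omega
    have h3 := ih (p + 1) (r + N * C.F + C.F) (by omega)
    rw [← h2] at h3
    have h4 := clkHT_add _ h1 h3
    have h5 : (q + 1) * (N + 1) + N = q * (N + 1) + N + (N + 1) := by ring
    rw [h5]
    exact h4

private theorem clk_exists (F : ℕ) (d : ℕ) : ∃ (B Φ T : Type) (_ : Finite B) (_ : Finite Φ) (_ : Finite T)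
    (C : Sw B Φ T 0) (φ0 : Φ) (b0 : B), C.F = F ∧ ∀ ℓ r, 1 ≤ ℓ →
      clkHT C (φ0, List.replicate ℓ b0 ++ List.replicate r C.z) ((ℓ + 1) ^ d - 1) := by
  induction d with
  | zero =>
    refine ⟨Unit, Unit, Unit, inferInstance, inferInstance, inferInstance,
      { z := (), F := F, start := fun _ _ => (), step := fun _ _ => ((), ()), fin := fun _ => (),
        halt := fun _ => true }, (), (), rfl, fun ℓ r _ => ⟨fun j hj => ?_, rfl⟩⟩
    simp at hj
  | succ d ih =>
    obtain ⟨B, Φ, T, _, _, _, C, φ0, b0, hF, hC⟩ := ih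
    refine ⟨Fin 3 × B, Φ × Bool, (T × Bool) ⊕ Fin 3, inferInstance, inferInstance, inferInstance,
      clkNext C φ0 b0, (φ0, false), (2, b0), hF, fun ℓ r hℓ => ?_⟩
    have h1 := clk_main C φ0 b0 ℓ _ (fun r => hC ℓ r hℓ) ℓ 0 r (by omega)
    have h2 : decide (ℓ = 0) = false := by simp; omega
    rw [h2] at h1
    have h3 : ℓ * ((ℓ + 1) ^ d - 1 + 1) + ((ℓ + 1) ^ d - 1) = (ℓ + 1) ^ (d + 1) - 1 := by
      have h4 : 1 ≤ (ℓ + 1) ^ d := Nat.one_le_pow _ _ (by omega)
      obtain ⟨t, ht⟩ := Nat.exists_eq_add_of_le h4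
      rw [pow_succ, ht]
      have : (1 + t) * (ℓ + 1) = ℓ * (1 + t) + t + 1 := by ring
      have e1 : 1 + t - 1 = t := by omega
      rw [this, e1, Nat.add_sub_cancel]
      ring
    rw [h3] at h1
    exact h1

end clk

theorem exists_clock (d F : ℕ) : ∃ (B Φ T : Type) (_ : Finite B) (_ : Finite Φ) (_ : Finite T)
    (C : Sw B Φ T 0) (φ0 : Φ) (b0 : B), C.F = F ∧ ∀ ℓ, 1 ≤ ℓ →
      (∀ k, k < (ℓ + 1) ^ d → ∃ c, C.Ch k (φ0, List.replicate ℓ b0) c) ∧
      (∀ k c, C.Ch k (φ0, List.replicate ℓ b0) c → k ≤ (ℓ + 1) ^ d) := by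
  obtain ⟨B, Φ, T, i1, i2, i3, C, φ0, b0, hF, hC⟩ := clk_exists F d
  refine ⟨B, Φ, T, i1, i2, i3, C, φ0, b0, hF, fun ℓ hℓ => ?_⟩
  have h := hC ℓ 0 hℓ
  rw [List.replicate_zero, List.append_nil] at h
  have hpos : 1 ≤ (ℓ + 1) ^ d := Nat.one_le_pow _ _ (by omega)
  refine ⟨fun k hk => ⟨_, (clk_ch C k _ _).2 ⟨fun j hj => h.1 j (by omega), rfl⟩⟩, fun k c hc => ?_⟩
  by_contra hcon
  have h1 := ((clk_ch C k _ _).1 hc).1 ((ℓ + 1) ^ d - 1) (by omega)
  rw [h.2] at h1
  exact Bool.noConfusion h1

end Pool.Agent.NP15
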