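import Pool.Agent.NP15.TMb
import Pool.Agent.NP15.ClkA

/-!
# [NP15-CLKB] product with the clock

PLAN. `Sw.prod (M : Sw A Q S m) (C : Sw B Φ T 0) : Sw (A × B) (Q × Φ) (S × T) m`, componentwise, `F := M.F` (`= C.F`),
`halt (q, φ) := M.halt q || C.halt φ`, `start (q, φ) x := (M.start q x, C.start φ 0)`. `mealy` of the product on a zip is the zip of
the two `mealy`s (rows of equal length: `(w.zip v)`, or better: rows `w : List (A × B)` with `w.map Prod.fst`, `w.map Prod.snd`;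
then `sweep` commutes with the two projections, no length conditions). Chains: `Ch k (prod) ((q, φ), w) c` implies
`M.Ch k (q, w.map fst) (c.1.1, c.2.map fst)` and the same for `C`; conversely `M.Ch k (q, w.map fst) c1` and
`∃ c2, C.Ch k (φ, w.map snd) c2` imply `∃ c, Ch k (prod) ((q, φ), w) c ∧ (c.1.1, c.2.map fst) = c1` (induction on `k`).
`enc' s = (enc s, b0)`; `((word a).map enc').map snd = replicate (word a).length b0`. Degree: choose `d` with
`B.eval ℓ < (ℓ + 1) ^ d` for all `ℓ ≥ 1` (for a polynomial with natural coefficients: `B.eval ℓ ≤ (sum of coefficients) * (ℓ + 1) ^ deg`,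
and `c < 2 ^ c ≤ (ℓ + 1) ^ c`). Accepting states `{(q, φ) | q ∈ acc}`. The time bound is `(ℓ + 1) ^ d`, a polynomial in `ℓ`.
`(word a).length ≥ 1` for `n ≥ 1` (`word_length`). If a chain of `M` of length `k ≤ B.eval ℓ` leads to `acc`, then `k < (ℓ + 1) ^ d`.
-/

namespace Pool.Agent.NP15

open Turing DPoly

variable {A Q S : Type} {m : ℕ}

/-- a polynomial with natural coefficients is smaller than a power of `ℓ + 1` -/
theorem ClkB.exists_pow (B : Polynomial ℕ) : ∃ d : ℕ, ∀ ℓ : ℕ, 1 ≤ ℓ → B.eval ℓ < (ℓ + 1) ^ d := by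
  induction B using Polynomial.induction_on' with
  | add p q hp hq =>
    obtain ⟨d₁, h₁⟩ := hp
    obtain ⟨d₂, h₂⟩ := hq
    refine ⟨max d₁ d₂ + 1, fun ℓ hℓ => ?_⟩
    rw [Polynomial.eval_add]
    have e1 := h₁ ℓ hℓ
    have e2 := h₂ ℓ hℓ
    have e3 : (ℓ + 1) ^ d₁ ≤ (ℓ + 1) ^ max d₁ d₂ :=
      Nat.pow_le_pow_right (Nat.succ_pos _) (le_max_left _ _)
    have e4 : (ℓ + 1) ^ d₂ ≤ (ℓ + 1) ^ max d₁ d₂ :=
      Nat.pow_le_pow_right (Nat.succ_pos _) (le_max_right _ _)
    have e5 : (ℓ + 1) ^ max d₁ d₂ * 2 ≤ (ℓ + 1) ^ max d₁ d₂ * (ℓ + 1) :=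
      Nat.mul_le_mul_left _ (by omega)
    rw [pow_succ]
    omega
  | monomial n a =>
    refine ⟨a + n, fun ℓ hℓ => ?_⟩
    rw [Polynomial.eval_monomial, pow_add]
    have e1 : a < 2 ^ a := Nat.lt_two_pow_self
    have e2 : 2 ^ a ≤ (ℓ + 1) ^ a := Nat.pow_le_pow_left (by omega) _
    have e3 : ℓ ^ n ≤ (ℓ + 1) ^ n := Nat.pow_le_pow_left (by omega) _
    have e4 : 0 < (ℓ + 1) ^ n := Nat.pow_pos (Nat.succ_pos _)
    calc a * ℓ ^ n ≤ a * (ℓ + 1) ^ n := Nat.mul_le_mul_left _ e3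
      _ < (ℓ + 1) ^ a * (ℓ + 1) ^ n := Nat.mul_lt_mul_of_pos_right (by omega) e4

section product

variable {A' Q' S' : Type}

/-- the product of a machine with a deterministic machine -/
def ClkB.prod (M : Sw A Q S m) (C : Sw A' Q' S' 0) : Sw (A × A') (Q × Q') (S × S') m where
  z := (M.z, C.z)
  F := M.F
  start c x := (M.start c.1 x, C.start c.2 0)
  step s a := (((M.step s.1 a.1).1, (C.step s.2 a.2).1), ((M.step s.1 a.1).2, (C.step s.2 a.2).2))
  fin s := (M.fin s.1, C.fin s.2)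
  halt c := M.halt c.1 || C.halt c.2

theorem ClkB.mealy_prod (f : S → A → A × S) (g : S' → A' → A' × S') (s : S) (t : S')
    (w : List (A × A')) :
    let r := mealy (fun (s : S × S') (a : A × A') =>
      (((f s.1 a.1).1, (g s.2 a.2).1), ((f s.1 a.1).2, (g s.2 a.2).2))) (s, t) w
    (r.1.map Prod.fst = (mealy f s (w.map Prod.fst)).1 ∧ r.2.1 = (mealy f s (w.map Prod.fst)).2) ∧
    (r.1.map Prod.snd = (mealy g t (w.map Prod.snd)).1 ∧ r.2.2 = (mealy g t (w.map Prod.snd)).2) := by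
  induction w generalizing s t with
  | nil => exact ⟨⟨rfl, rfl⟩, ⟨rfl, rfl⟩⟩
  | cons a w ih =>
    obtain ⟨⟨h1, h2⟩, ⟨h3, h4⟩⟩ := ih (f s a.1).2 (g t a.2).2
    refine ⟨⟨?_, ?_⟩, ⟨?_, ?_⟩⟩
    · simp only [mealy, List.map_cons]
      rw [h1]
    · simp only [mealy, List.map_cons]
      exact h2
    · simp only [mealy, List.map_cons]
      rw [h3]
    · simp only [mealy, List.map_cons]
      exact h4

theorem ClkB.sweep_prod (M : Sw A Q S m) (C : Sw A' Q' S' 0) (hF : C.F = M.F)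
    (c : (Q × Q') × List (A × A')) (x : Fin (m + 1)) :
    ((((ClkB.prod M C).sweep c x).1.1, ((ClkB.prod M C).sweep c x).2.map Prod.fst) =
      M.sweep (c.1.1, c.2.map Prod.fst) x) ∧
    ((((ClkB.prod M C).sweep c x).1.2, ((ClkB.prod M C).sweep c x).2.map Prod.snd) =
      C.sweep (c.1.2, c.2.map Prod.snd) 0) := by
  obtain ⟨⟨h1, h2⟩, ⟨h3, h4⟩⟩ := ClkB.mealy_prod M.step C.step (M.start c.1.1 x) (C.start c.1.2 0)
    (c.2 ++ List.replicate M.F (M.z, C.z))
  simp only [List.map_append, List.map_replicate] at h1 h2 h3 h4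
  constructor
  · unfold Sw.sweep
    refine Prod.ext ?_ ?_
    · exact congrArg M.fin h2
    · exact h1
  · unfold Sw.sweep
    rw [hF]
    refine Prod.ext ?_ ?_
    · exact congrArg C.fin h4
    · exact h3

theorem ClkB.ch_of_prod (M : Sw A Q S m) (C : Sw A' Q' S' 0) (hF : C.F = M.F) (k : ℕ) :
    ∀ c c' : (Q × Q') × List (A × A'), (ClkB.prod M C).Ch k c c' →
      M.Ch k (c.1.1, c.2.map Prod.fst) (c'.1.1, c'.2.map Prod.fst) ∧
      C.Ch k (c.1.2, c.2.map Prod.snd) (c'.1.2, c'.2.map Prod.snd) := by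
  induction k with
  | zero =>
    intro c c' h
    have h : c = c' := h
    subst h
    exact ⟨rfl, rfl⟩
  | succ k ih =>
    rintro c c' ⟨hh, x, hx⟩
    have hh : (M.halt c.1.1 || C.halt c.1.2) = false := hh
    rw [Bool.or_eq_false_iff] at hh
    obtain ⟨h1, h2⟩ := ih _ _ hx
    obtain ⟨e1, e2⟩ := ClkB.sweep_prod M C hF c x
    rw [e1] at h1
    rw [e2] at h2
    exact ⟨⟨hh.1, x, h1⟩, ⟨hh.2, 0, h2⟩⟩

theorem ClkB.ch_prod (M : Sw A Q S m) (C : Sw A' Q' S' 0) (hF : C.F = M.F) (k : ℕ) :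
    ∀ (c : (Q × Q') × List (A × A')) (c₁ : Q × List A) (c₂ : Q' × List A'),
      M.Ch k (c.1.1, c.2.map Prod.fst) c₁ → C.Ch k (c.1.2, c.2.map Prod.snd) c₂ →
      ∃ c', (ClkB.prod M C).Ch k c c' ∧ (c'.1.1, c'.2.map Prod.fst) = c₁ := by
  induction k with
  | zero =>
    intro c c₁ c₂ h1 _
    have h1 : (c.1.1, c.2.map Prod.fst) = c₁ := h1
    exact ⟨c, rfl, h1⟩
  | succ k ih =>
    rintro c c₁ c₂ ⟨hh1, x, hx⟩ ⟨hh2, y, hy⟩
    have hh1 : M.halt c.1.1 = false := hh1
    have hh2 : C.halt c.1.2 = false := hh2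
    obtain rfl : y = 0 := Fin.fin_one_eq_zero y
    obtain ⟨e1, e2⟩ := ClkB.sweep_prod M C hF c x
    rw [← e1] at hx
    rw [← e2] at hy
    obtain ⟨c', h1, h2⟩ := ih _ _ _ hx hy
    refine ⟨c', ⟨?_, x, h1⟩, h2⟩
    change (M.halt c.1.1 || C.halt c.1.2) = false
    rw [hh1, hh2]
    rfl

end product

/-- The time bound is required of accepting chains only. -/
theorem inNP_of_sw' [Finite A] [Finite Q] [Finite S] (M : Sw A Q S m) (q0 : Q) (acc : Set Q)
    (hacc : ∀ q ∈ acc, M.halt q = true) (enc : Option Bool → A) (henc : Function.Injective enc)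
    (B : Polynomial ℕ) {n : ℕ} (hn : 1 ≤ n) (R : Set (Fin n → ℕ))
    (h : ∀ a : Fin n → ℕ,
      (∀ k c, M.Ch k (q0, (word a).map enc) c → c.1 ∈ acc → a ∈ R) ∧
      (a ∈ R → ∃ k ≤ B.eval (word a).length, ∃ c, M.Ch k (q0, (word a).map enc) c ∧ c.1 ∈ acc)) :
    InNP R := by
  obtain ⟨d, hd⟩ := ClkB.exists_pow B
  obtain ⟨B', Φ, T, hB', hΦ, hT, C, φ0, b0, hF, hC⟩ := exists_clock d M.F
  have hlen : ∀ a : Fin n → ℕ, 1 ≤ (word a).length := by
    intro a
    rw [word_length]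
    have h1 : ∑ i : Fin n, 1 ≤ ∑ i, (len (a i) + 1) := Finset.sum_le_sum fun i _ => by omega
    simp only [Finset.sum_const, Finset.card_univ, Fintype.card_fin, smul_eq_mul, mul_one] at h1
    omega
  have hfst : ∀ w : List (Option Bool), (w.map fun s => (enc s, b0)).map Prod.fst = w.map enc := by
    intro w
    rw [List.map_map]
    rfl
  have hsnd : ∀ w : List (Option Bool), (w.map fun s => (enc s, b0)).map Prod.snd =
      List.replicate w.length b0 := by
    intro w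
    rw [List.map_map]
    exact List.map_const'
  refine inNP_of_sw (ClkB.prod M C) (q0, φ0) {c | c.1 ∈ acc} ?_ (fun s => (enc s, b0)) ?_
    ((Polynomial.X + 1) ^ d) R ?_
  · rintro c hc
    change (M.halt c.1 || C.halt c.2) = true
    rw [hacc _ hc, Bool.true_or]
  · intro s t hst
    exact henc (congrArg Prod.fst hst)
  · intro a
    obtain ⟨h1, h2⟩ := h a
    obtain ⟨h3, h4⟩ := hC _ (hlen a)
    constructor
    · intro k c hk
      obtain ⟨-, h5⟩ := ClkB.ch_of_prod M C hF k _ _ hk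
      simp only [hsnd] at h5
      rw [Polynomial.eval_pow, Polynomial.eval_add, Polynomial.eval_X, Polynomial.eval_one]
      exact h4 k _ h5
    · constructor
      · intro haR
        obtain ⟨k, hk, c, hc1, hc2⟩ := h2 haR
        obtain ⟨c₂, hc₂⟩ := h3 k (hk.trans_lt (hd _ (hlen a)))
        obtain ⟨c', h5, h6⟩ := ClkB.ch_prod M C hF k
          ((q0, φ0), (word a).map fun s => (enc s, b0)) c c₂ (by simp only [hfst]; exact hc1)
          (by simp only [hsnd]; exact hc₂)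
        refine ⟨k, c', h5, ?_⟩
        have h7 : c'.1.1 = c.1 := congrArg Prod.fst h6
        change c'.1.1 ∈ acc
        rw [h7]
        exact hc2
      · rintro ⟨k, c, hk, hcacc⟩
        obtain ⟨h5, -⟩ := ClkB.ch_of_prod M C hF k _ _ hk
        simp only [hfst] at h5
        exact h1 k _ h5 hcacc

end Pool.Agent.NP15
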