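import Pool.Agent.NP15.ConDef

/-!
# [NP15-CONC] completeness of the program

PLAN. `Ch` composes (`Ch k c c'`, `Ch k' c' c''` imply `Ch (k + k') c c''`, induction on `k`).
Horner: if `st : ℕ → state` satisfies, for all `y` and `d : Bool`, `Ch 1 (st y) (st (2 * y + d.toNat))` then for every `y` there is
`k ≤ len y` with `Ch k (st 0) (st y)` (strong induction: `y = 0`: `k = 0`; `y > 0`: `y = 2 * (y / 2) + y % 2`,
`len (y / 2) + 1 ≤ len y` if `y / 2 ≥ 1`; for `y = 1` one step from `st 0`).
Phase `gs`: for a finset `s` of witnesses (induction on `s`) there is `k ≤ s.card * (N + 1)` with a chain from `(gs, [], v0 a)` to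
`(gs, [], v)`, `v` equal to `v0 a` except `v (inl (inr j)) = y j` for `j ∈ s` (`st t = (gs, [], Function.update v (inl (inr j)) t)`;
`len (y j) ≤ N + 1` because `y j ≤ 2 ^ N < 2 ^ (N + 1)`, `len_le_of_lt`). Then one step (choice `none`) to `vf`.
Phase `vf`: for a finset `s` of constraints there is a chain of length `≤ s.card * (N + 1)` to the state where the registers of the
constraints `l ∈ s` have their final values: for `mul i j k`: `(v (em j), v (em j) * v (em i))` (Horner in `y`, with
`z = y * v (em i)`); for `pw i j`: `(v (em j), 2 ^ v (em j) - 1)` after `v (em j)` steps, `v (em j) ≤ N` since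
`2 ^ v (em j) = v (em i) ≤ 2 ^ N`; for `sum`: `(0, 0)`. Last step (choice `none`): all comparisons are true because the constraints hold.
The control state becomes `fn true`. Total `≤ card τ * (N + 1) + 1 + r * (N + 1) + 1`.
-/

namespace Pool.Agent.NP15

open DPoly

variable {n r : ℕ} {τ : Type} [Fintype τ] [DecidableEq τ]

section chain

variable {ι Q X : Type} [Fintype ι]

private theorem ch_comp (P : Prog ι Q X) : ∀ (k : ℕ) {k' : ℕ} {c c' c'' : Q × List (Option Bool) × (ι → ℕ)},
    P.Ch k c c' → P.Ch k' c' c'' → P.Ch (k + k') c c'' := by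
  intro k
  induction k with
  | zero =>
    intro k' c c' c'' h h'
    have h0 : c = c' := h
    rw [h0, Nat.zero_add]
    exact h'
  | succ k ih =>
    intro k' c c' c'' h h'
    obtain ⟨h1, x, h2⟩ := h
    have e : k + 1 + k' = (k + k') + 1 := by omega
    rw [e]
    exact ⟨h1, x, ih h2 h'⟩

private theorem ch_one (P : Prog ι Q X) {c c' : Q × List (Option Bool) × (ι → ℕ)} (x : X)
    (h : P.halt c.1 = false) (h' : P.step c x = c') : P.Ch 1 c c' := ⟨h, x, h'⟩

private theorem len_half {y : ℕ} (hy : 2 ≤ y) : len (y / 2) + 1 = len y := by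
  unfold len
  rw [Nat.log_div_base]
  have : 1 ≤ Nat.log 2 y := by
    rw [Nat.succ_le_iff]
    exact Nat.log_pos (by norm_num) hy
  omega

private theorem horner (P : Prog ι Q X) (st : ℕ → Q × List (Option Bool) × (ι → ℕ))
    (hst : ∀ (y : ℕ) (d : Bool), P.Ch 1 (st y) (st (2 * y + d.toNat))) (y : ℕ) :
    ∃ k ≤ len y, P.Ch k (st 0) (st y) := by
  induction y using Nat.strong_induction_on with
  | _ y ih =>
    rcases Nat.eq_zero_or_pos y with rfl | hy
    · exact ⟨0, Nat.zero_le _, rfl⟩
    rcases Nat.lt_or_ge y 2 with h1 | h2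
    · have hy1 : y = 1 := by omega
      subst hy1
      exact ⟨1, len_pos 1, by simpa using hst 0 true⟩
    · obtain ⟨k, hk, hc⟩ := ih (y / 2) (by omega)
      refine ⟨k + 1, by rw [← len_half h2]; omega, ch_comp P k hc ?_⟩
      have h3 := hst (y / 2) (decide (y % 2 = 1))
      have h4 : 2 * (y / 2) + (decide (y % 2 = 1)).toNat = y := by
        rcases Nat.mod_two_eq_zero_or_one y with h | h
        · rw [h]; simp; omega
        · rw [h]; simp; omega
      rw [h4] at h3
      exact h3

private theorem counter (P : Prog ι Q X) (st : ℕ → Q × List (Option Bool) × (ι → ℕ))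
    (hst : ∀ y : ℕ, P.Ch 1 (st y) (st (y + 1))) (y : ℕ) : P.Ch y (st 0) (st y) := by
  induction y with
  | zero => exact rfl
  | succ y ih => exact ch_comp P y ih (hst y)

end chain

section rowsC

variable {ι : Type} [DecidableEq ι] [Fintype ι]

private theorem app_id (rd : Bool) (chk : ι → ι → Prop) (v : ι → ℕ) :
    (Act.ofRows idRow rd chk).app v = v := by
  funext i
  rw [app_ofRows]
  simp [idRow]

private theorem app_one (t : ι) (b c : ℕ) (rd : Bool) (chk : ι → ι → Prop) (v : ι → ℕ) :
    (Act.ofRows (Function.update idRow t (b, [(c, t)])) rd chk).app v =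
      Function.update v t (c * v t + b) := by
  funext i
  rw [app_ofRows]
  by_cases h : i = t
  · subst h
    simp [add_comm]
  · rw [Function.update_of_ne h, Function.update_of_ne h]
    simp [idRow]

private theorem app_two (t t' : ι) (R R' : Row ι) (htt : t ≠ t') (rd : Bool) (chk : ι → ι → Prop)
    (v : ι → ℕ) :
    (Act.ofRows (Function.update (Function.update idRow t R) t' R') rd chk).app v =
      Function.update (Function.update v t (R.1 + (R.2.map fun p => p.1 * v p.2).sum)) t'
        (R'.1 + (R'.2.map fun p => p.1 * v p.2).sum) := by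
  funext i
  rw [app_ofRows]
  by_cases h : i = t'
  · subst h
    simp
  · rw [Function.update_of_ne h, Function.update_of_ne h]
    by_cases h' : i = t
    · subst h'
      simp
    · rw [Function.update_of_ne h', Function.update_of_ne h']
      simp [idRow]

end rowsC

/-- the registers after guessing the witnesses in `s` -/
private def vsC (a : Fin n → ℕ) (y : τ → ℕ) (s : Finset τ) : Rg n r τ → ℕ
  | .inl (.inr j) => if j ∈ s then y j else 0
  | x => v0 a x

omit [Fintype τ] [DecidableEq τ] in
private theorem em_cases (x : Fin n ⊕ τ) : ∃ z, (em x : Rg n r τ) = .inl z := by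
  rcases x with i | j
  · exact ⟨.inl i.castSucc, rfl⟩
  · exact ⟨.inr j, rfl⟩

private theorem vsC_em (a : Fin n → ℕ) (y : τ → ℕ) (x : Fin n ⊕ τ) :
    (vsC a y Finset.univ : Rg n r τ → ℕ) (em x) = Sum.elim a y x := by
  rcases x with i | j
  · show v0 a (.inl (.inl i.castSucc) : Rg n r τ) = a i
    simp [v0]
  · show (if j ∈ Finset.univ then y j else 0) = y j
    simp

private theorem phase_gs (K : Fin r → Con (Fin n ⊕ τ)) (a : Fin n → ℕ) (y : τ → ℕ) (N : ℕ)
    (hN : ∀ j, y j ≤ 2 ^ N) (s : Finset τ) :
    ∃ k ≤ s.card * (N + 1), (conProg K).Ch k (.gs, [], v0 a) (.gs, [], vsC a y s) := by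
  induction s using Finset.induction_on with
  | empty =>
    refine ⟨0, Nat.zero_le _, ?_⟩
    show _ = _
    congr 2
    funext x
    rcases x with (i | j) | l
    · rfl
    · simp [vsC, v0]
    · rfl
  | insert j s hj ih =>
    obtain ⟨k, hk, hc⟩ := ih
    obtain ⟨k', hk', hc'⟩ := horner (conProg K)
      (fun t => (.gs, [], Function.update (vsC a y s) (.inl (.inr j)) t)) (by
        intro t d
        refine ch_one _ (some (.inl (j, d))) rfl ?_
        show (_, _, _) = _
        congr 2
        show (Act.ofRows (gsRows (some (.inl (j, d)))) false (fun _ _ => False)).app _ = _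
        unfold gsRows
        rw [app_one]
        simp) (y j)
    refine ⟨k + k', ?_, ?_⟩
    · rw [Finset.card_insert_of_notMem hj, Nat.add_mul]
      have h1 : len (y j) ≤ N + 1 := by
        refine len_le_of_lt (lt_of_le_of_lt (hN j) ?_) (by omega)
        exact Nat.pow_lt_pow_right (by norm_num) (by omega)
      omega
    · refine ch_comp _ k hc ?_
      have h1 : Function.update (vsC a y s) (.inl (.inr j)) 0 = (vsC a y s : Rg n r τ → ℕ) := by
        rw [Function.update_eq_self_iff]
        simp [vsC, hj]
      have h2 : Function.update (vsC a y s) (.inl (.inr j)) (y j) =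
          (vsC a y (insert j s) : Rg n r τ → ℕ) := by
        funext x
        by_cases hx : x = .inl (.inr j)
        · subst hx
          simp [vsC]
        · rw [Function.update_of_ne hx]
          rcases x with (i | j') | l
          · rfl
          · have : j' ≠ j := fun h => hx (by rw [h])
            simp [vsC, this]
          · rfl
      simp only [h1, h2] at hc'
      exact hc'

/-- the final values of the registers of a constraint -/
private def fvC (K : Fin r → Con (Fin n ⊕ τ)) (V : Fin n ⊕ τ → ℕ) (l : Fin r) (b : Bool) : ℕ :=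
  match K l with
  | .mul i j _ => if b then V j * V i else V j
  | .pw _ j => if b then 2 ^ V j - 1 else V j
  | .sum _ _ _ => 0

/-- the registers after the constraints in `s` -/
private def wsC (K : Fin r → Con (Fin n ⊕ τ)) (a : Fin n → ℕ) (y : τ → ℕ) (s : Finset (Fin r)) :
    Rg n r τ → ℕ
  | .inl z => vsC a y Finset.univ (.inl z : Rg n r τ)
  | .inr (l, b) => if l ∈ s then fvC K (Sum.elim a y) l b else 0

private theorem wsC_em (K : Fin r → Con (Fin n ⊕ τ)) (a : Fin n → ℕ) (y : τ → ℕ) (s : Finset (Fin r))
    (x : Fin n ⊕ τ) : wsC K a y s (em x) = Sum.elim a y x := by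
  rw [← vsC_em (r := r)]
  obtain ⟨z, hz⟩ := em_cases (r := r) x
  rw [hz]
  rfl

private theorem wsC_insert (K : Fin r → Con (Fin n ⊕ τ)) (a : Fin n → ℕ) (y : τ → ℕ)
    (s : Finset (Fin r)) (l : Fin r) :
    Function.update (Function.update (wsC K a y s) (.inr (l, false)) (fvC K (Sum.elim a y) l false))
      (.inr (l, true)) (fvC K (Sum.elim a y) l true) = wsC K a y (insert l s) := by
  funext x
  rcases x with z | ⟨l', b⟩
  · simp [wsC]
  · by_cases h : l' = l
    · subst h
      cases b
      · simp [wsC]
      · simp [wsC]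
    · have h1 : (Sum.inr (l', b) : Rg n r τ) ≠ .inr (l, true) := by
        intro h'
        exact h (by simpa using congrArg (fun x => x.1) (Sum.inr_injective h'))
      have h2 : (Sum.inr (l', b) : Rg n r τ) ≠ .inr (l, false) := by
        intro h'
        exact h (by simpa using congrArg (fun x => x.1) (Sum.inr_injective h'))
      rw [Function.update_of_ne h1, Function.update_of_ne h2]
      simp [wsC, h]

private theorem wsC_zero (K : Fin r → Con (Fin n ⊕ τ)) (a : Fin n → ℕ) (y : τ → ℕ)
    (s : Finset (Fin r)) (l : Fin r) (hl : l ∉ s) :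
    Function.update (Function.update (wsC K a y s) (.inr (l, false)) 0) (.inr (l, true)) 0 =
      wsC K a y s := by
  funext x
  by_cases h1 : x = .inr (l, true)
  · subst h1
    simp [wsC, hl]
  · rw [Function.update_of_ne h1]
    by_cases h2 : x = .inr (l, false)
    · subst h2
      simp [wsC, hl]
    · rw [Function.update_of_ne h2]

private theorem step_vf (K : Fin r → Con (Fin n ⊕ τ)) (v : Rg n r τ → ℕ) (l : Fin r) (d : Bool) :
    (conProg K).step (.vf, [], v) (some (.inr (l, d))) =
      (.vf, [], (Act.ofRows (vfRows K (some (.inr (l, d)))) false (fun _ _ => False)).app v) := rfl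

omit [Fintype τ] in
private theorem upd_upd (v : Rg n r τ → ℕ) (l : Fin r) (p q p' q' : ℕ) :
    Function.update (Function.update (Function.update (Function.update v (.inr (l, false)) p)
      (.inr (l, true)) q) (.inr (l, false)) p') (.inr (l, true)) q' =
      Function.update (Function.update v (.inr (l, false)) p') (.inr (l, true)) q' := by
  funext x
  by_cases h1 : x = .inr (l, true)
  · subst h1
    simp
  · rw [Function.update_of_ne h1, Function.update_of_ne h1]
    by_cases h2 : x = .inr (l, false)
    · subst h2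
      simp
    · rw [Function.update_of_ne h2, Function.update_of_ne h2, Function.update_of_ne h1,
        Function.update_of_ne h2]

private theorem phase_one (K : Fin r → Con (Fin n ⊕ τ)) (a : Fin n → ℕ) (y : τ → ℕ) (N : ℕ)
    (hN : ∀ x, Sum.elim a y x ≤ 2 ^ N) (h : ∀ l, (K l).Holds (Sum.elim a y)) (s : Finset (Fin r))
    (l : Fin r) (hl : l ∉ s) :
    ∃ k ≤ N + 1, (conProg K).Ch k (.vf, [], wsC K a y s) (.vf, [], wsC K a y (insert l s)) := by
  have hne : (Sum.inr (l, false) : Rg n r τ) ≠ .inr (l, true) := by
    intro h'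
    have := Sum.inr_injective h'
    simp at this
  have hem : ∀ (v : Rg n r τ → ℕ) (p q : ℕ) (x : Fin n ⊕ τ),
      Function.update (Function.update v (.inr (l, false)) p) (.inr (l, true)) q (em x) = v (em x) := by
    intro v p q x
    obtain ⟨z, hz⟩ := em_cases (r := r) x
    rw [hz]
    simp
  rcases hK : K l with ⟨i, j, k⟩ | ⟨i, j⟩ | ⟨i, j, k⟩
  · obtain ⟨k', hk', hc⟩ := horner (conProg K)
      (fun t => (.vf, [], Function.update (Function.update (wsC K a y s) (.inr (l, false)) t)
        (.inr (l, true)) (t * Sum.elim a y i))) (by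
        intro t d
        refine ch_one _ (some (.inr (l, d))) rfl ?_
        rw [step_vf]
        congr 2
        unfold vfRows
        simp only [hK]
        rw [app_two _ _ _ _ hne]
        simp only [List.map_cons, List.map_nil, List.sum_cons, List.sum_nil]
        rw [hem, wsC_em, upd_upd]
        congr 1
        · congr 1
          rw [Function.update_of_ne hne, Function.update_self]
          ring
        · rw [Function.update_self]
          ring) (Sum.elim a y j)
    refine ⟨k', hk'.trans ?_, ?_⟩
    · refine len_le_of_lt (lt_of_le_of_lt (hN j) ?_) (by omega)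
      exact Nat.pow_lt_pow_right (by norm_num) (by omega)
    · simp only [Nat.zero_mul] at hc
      rw [wsC_zero K a y s l hl] at hc
      have e := wsC_insert K a y s l
      simp only [fvC, hK] at e
      simp only [Bool.false_eq_true, if_false, if_true] at e
      rw [e] at hc
      exact hc
  · have hc := counter (conProg K)
      (fun t => (.vf, [], Function.update (Function.update (wsC K a y s) (.inr (l, false)) t)
        (.inr (l, true)) (2 ^ t - 1))) (by
        intro t
        refine ch_one _ (some (.inr (l, false))) rfl ?_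
        rw [step_vf]
        congr 2
        unfold vfRows
        simp only [hK]
        rw [app_two _ _ _ _ hne]
        simp only [List.map_cons, List.map_nil, List.sum_cons, List.sum_nil]
        rw [upd_upd]
        congr 1
        · congr 1
          rw [Function.update_of_ne hne, Function.update_self]
          ring
        · rw [Function.update_self]
          have := Nat.one_le_two_pow (n := t)
          rw [pow_succ]
          omega) (Sum.elim a y j)
    refine ⟨Sum.elim a y j, ?_, ?_⟩
    · have h1 := h l
      rw [hK] at h1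
      have h2 : Sum.elim a y i = 2 ^ Sum.elim a y j := h1
      have h3 := hN i
      rw [h2] at h3
      have h4 := (Nat.pow_le_pow_iff_right (by norm_num : 1 < 2)).1 h3
      omega
    · simp only [pow_zero, Nat.sub_self] at hc
      rw [wsC_zero K a y s l hl] at hc
      have e := wsC_insert K a y s l
      simp only [fvC, hK] at e
      simp only [Bool.false_eq_true, if_false, if_true] at e
      rw [e] at hc
      exact hc
  · refine ⟨0, Nat.zero_le _, ?_⟩
    show _ = _
    have e := wsC_insert K a y s l
    simp only [fvC, hK] at e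
    rw [wsC_zero K a y s l hl] at e
    rw [← e]

private theorem phase_vf (K : Fin r → Con (Fin n ⊕ τ)) (a : Fin n → ℕ) (y : τ → ℕ) (N : ℕ)
    (hN : ∀ x, Sum.elim a y x ≤ 2 ^ N) (h : ∀ l, (K l).Holds (Sum.elim a y)) (s : Finset (Fin r)) :
    ∃ k ≤ s.card * (N + 1), (conProg K).Ch k (.vf, [], vsC a y Finset.univ) (.vf, [], wsC K a y s) := by
  induction s using Finset.induction_on with
  | empty =>
    refine ⟨0, Nat.zero_le _, ?_⟩
    show _ = _
    congr 2
    funext x
    rcases x with z | ⟨l, b⟩
    · rfl
    · simp [wsC, vsC, v0]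
  | insert l s hl ih =>
    obtain ⟨k, hk, hc⟩ := ih
    obtain ⟨k', hk', hc'⟩ := phase_one K a y N hN h s l hl
    refine ⟨k + k', ?_, ch_comp _ k hc hc'⟩
    rw [Finset.card_insert_of_notMem hl, Nat.add_mul]
    omega

private theorem last_step (K : Fin r → Con (Fin n ⊕ τ)) (a : Fin n → ℕ) (y : τ → ℕ)
    (h : ∀ l, (K l).Holds (Sum.elim a y)) :
    ((conProg K).step (.vf, [], wsC K a y Finset.univ) none).1 = .fn true := by
  unfold Prog.step
  refine congrArg Qc.fn (@decide_eq_true _ (_) ?_)
  have hrow : ∀ z : Fin (n + 1) ⊕ τ, (Act.ofRows (fnRows K) false (fnChk K)).app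
      (wsC K a y Finset.univ) (.inl z) = wsC K a y Finset.univ (.inl z) := by
    intro z
    rw [app_ofRows]
    simp [fnRows, idRow]
  have hem : ∀ x : Fin n ⊕ τ, (Act.ofRows (fnRows K) false (fnChk K)).app
      (wsC K a y Finset.univ) (em x) = Sum.elim a y x := by
    intro x
    rw [← wsC_em K a y Finset.univ x]
    obtain ⟨z, hz⟩ := em_cases (r := r) x
    rw [hz]
    exact hrow z
  have hfalse : ∀ l, (Act.ofRows (fnRows K) false (fnChk K)).app
      (wsC K a y Finset.univ) (.inr (l, false)) = fvC K (Sum.elim a y) l false := by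
    intro l
    rw [app_ofRows]
    simp [fnRows, idRow, wsC]
  have htrue : ∀ l, (Act.ofRows (fnRows K) false (fnChk K)).app
      (wsC K a y Finset.univ) (.inr (l, true)) = match K l with
        | .mul i j _ => Sum.elim a y j * Sum.elim a y i
        | .pw _ j => 2 ^ Sum.elim a y j
        | .sum i j _ => Sum.elim a y i + Sum.elim a y j := by
    intro l
    rw [app_ofRows]
    rcases hK : K l with ⟨i, j, k⟩ | ⟨i, j⟩ | ⟨i, j, k⟩
    · simp [fnRows, idRow, wsC, fvC, hK]
    · have := Nat.one_le_two_pow (n := Sum.elim a y j)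
      simp only [fnRows, hK, List.map_cons, List.map_nil, List.sum_cons, List.sum_nil, wsC, fvC,
        Finset.mem_univ, if_true]
      omega
    · simp only [fnRows, hK, List.map_cons, List.map_nil, List.sum_cons, List.sum_nil, wsC_em]
      omega
  intro x x' hx
  change fnChk K x x' at hx
  change (Act.ofRows (fnRows K) false (fnChk K)).app (wsC K a y Finset.univ) x =
    (Act.ofRows (fnRows K) false (fnChk K)).app (wsC K a y Finset.univ) x'
  obtain ⟨l, hl⟩ := hx
  have h1 := h l
  have h2 := htrue l
  have h3 := hfalse l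
  rcases hK : K l with ⟨i, j, k⟩ | ⟨i, j⟩ | ⟨i, j, k⟩
  · simp only [hK] at hl h1 h2
    simp only [fvC, hK] at h3
    simp only [Con.Holds] at h1
    rcases hl with ⟨rfl, rfl⟩ | ⟨rfl, rfl⟩
    · rw [h3, hem]
      simp
    · rw [h2, hem, ← h1]
      ring
  · simp only [hK] at hl h1 h2
    simp only [fvC, hK] at h3
    simp only [Con.Holds] at h1
    rcases hl with ⟨rfl, rfl⟩ | ⟨rfl, rfl⟩
    · rw [h3, hem]
      simp
    · rw [h2, hem, ← h1]
  · simp only [hK] at hl h1 h2
    simp only [Con.Holds] at h1
    obtain ⟨rfl, rfl⟩ := hl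
    rw [h2, hem, ← h1]

theorem con_complete (K : Fin r → Con (Fin n ⊕ τ)) (a : Fin n → ℕ) (y : τ → ℕ) (N : ℕ)
    (hN : ∀ x, Sum.elim a y x ≤ 2 ^ N) (h : ∀ l, (K l).Holds (Sum.elim a y)) :
    ∃ k ≤ (Fintype.card τ + r) * (N + 1) + 2, ∃ c, (conProg K).Ch k (.gs, [], v0 a) c ∧
      c.1 = .fn true := by
  obtain ⟨k1, hk1, hc1⟩ := phase_gs K a y N (fun j => hN (.inr j)) Finset.univ
  obtain ⟨k2, hk2, hc2⟩ := phase_vf K a y N hN h Finset.univ
  have hs : (conProg K).Ch 1 (.gs, [], vsC a y Finset.univ) (.vf, [], vsC a y Finset.univ) := by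
    refine ch_one _ none rfl ?_
    show (_, _, _) = _
    congr 2
    show (Act.ofRows (gsRows none) false (fun _ _ => False)).app _ = _
    exact app_id _ _ _
  have hl : (conProg K).Ch 1 (.vf, [], wsC K a y Finset.univ)
      ((conProg K).step (.vf, [], wsC K a y Finset.univ) none) := ch_one _ none rfl rfl
  refine ⟨k1 + (1 + (k2 + 1)), ?_, _, ch_comp _ k1 hc1 (ch_comp _ 1 hs (ch_comp _ k2 hc2 hl)),
    last_step K a y h⟩
  rw [Finset.card_univ] at hk1 hk2
  rw [Fintype.card_fin] at hk2
  rw [Nat.add_mul]
  omega

end Pool.Agent.NP15
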