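import Pool.Agent.NP15.Def

/-!
# The program which checks a system of constraints

Phases: `rd` reads the input into the registers `inl (inl i)`, `gs` guesses the witnesses `inl (inr j)` digit by
digit, `vf` moves the two registers `(y, z)` of each constraint: for `v i * v j = v k` the step is
`y := 2 y + d`, `z := 2 z + d * v i`, so that `z = y * v i`; for `v i = 2 ^ v j` it is `y := y + 1`,
`z := 2 z + 1`, so that `z + 1 = 2 ^ y`. At the end `y`, `z` are compared with the registers of the constraint.
-/

namespace Pool.Agent.NP15

open DPoly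

section rows

variable {ι : Type} [DecidableEq ι]

/-- A row of an affine map: the constant, and the coefficients with the registers. -/
abbrev Row (ι : Type) : Type := ℕ × List (ℕ × ι)

/-- the action given by the rows -/
def Act.ofRows (ρ : ι → Row ι) (rd : Bool) (chk : ι → ι → Prop) : Act ι where
  A i j := ((ρ i).2.map fun p => if p.2 = j then p.1 else 0).sum
  b i := (ρ i).1
  rd := rd
  chk := chk

theorem app_ofRows [Fintype ι] (ρ : ι → Row ι) (rd : Bool) (chk : ι → ι → Prop) (v : ι → ℕ) (i : ι) :
    (Act.ofRows ρ rd chk).app v i = (ρ i).1 + ((ρ i).2.map fun p => p.1 * v p.2).sum := by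
  have h : ∀ l : List (ℕ × ι), ∑ j, ((l.map fun p => if p.2 = j then p.1 else 0).sum) * v j =
      (l.map fun p => p.1 * v p.2).sum := by
    intro l
    induction l with
    | nil => simp
    | cons p l ih => simp [add_mul, Finset.sum_add_distrib, ih]
  simp only [Act.app, Act.ofRows, h]

/-- the row of the identity -/
def idRow (i : ι) : Row ι := (0, [(1, i)])

end rows

/-- registers: the inputs (and one more, which is always `0`), the witnesses, two for each
constraint -/
abbrev Rg (n r : ℕ) (τ : Type) : Type := (Fin (n + 1) ⊕ τ) ⊕ (Fin r × Bool)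

/-- control states: in `rd i p` the symbol `p` is to be executed, `i` is the current input register -/
inductive Qc (n : ℕ) : Type
  | rd (i : Fin (n + 1)) (p : Option (Option Bool))
  | gs
  | vf
  | fn (b : Bool)

/-- choices: `none` is the next phase -/
abbrev Xc (r : ℕ) (τ : Type) : Type := Option ((τ × Bool) ⊕ (Fin r × Bool))

section con

variable {n r : ℕ} {τ : Type} [DecidableEq τ]

/-- the register of a variable -/
def em : Fin n ⊕ τ → Rg n r τ
  | .inl i => .inl (.inl i.castSucc)
  | .inr j => .inl (.inr j)

/-- executing an input symbol -/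
def rdRows (i : Fin (n + 1)) : Option (Option Bool) → Rg n r τ → Row (Rg n r τ)
  | some (some d) => Function.update idRow (.inl (.inl i)) (d.toNat, [(2, .inl (.inl i))])
  | _ => idRow

/-- appending a digit to a witness -/
def gsRows : Xc r τ → Rg n r τ → Row (Rg n r τ)
  | some (.inl (j, d)) => Function.update idRow (.inl (.inr j)) (d.toNat, [(2, .inl (.inr j))])
  | _ => idRow

/-- a step for a constraint -/
def vfRows (K : Fin r → Con (Fin n ⊕ τ)) : Xc r τ → Rg n r τ → Row (Rg n r τ)
  | some (.inr (l, d)) => match K l with
    | .mul i _ _ => Function.update (Function.update idRow (.inr (l, false))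
        (d.toNat, [(2, .inr (l, false))])) (.inr (l, true)) (0, [(2, .inr (l, true)), (d.toNat, em i)])
    | .pw _ _ => Function.update (Function.update idRow (.inr (l, false))
        (1, [(1, .inr (l, false))])) (.inr (l, true)) (1, [(2, .inr (l, true))])
    | .sum _ _ _ => idRow
  | _ => idRow

/-- the last step -/
def fnRows (K : Fin r → Con (Fin n ⊕ τ)) : Rg n r τ → Row (Rg n r τ)
  | .inr (l, true) => match K l with
    | .mul _ _ _ => idRow (.inr (l, true))
    | .pw _ _ => (1, [(1, .inr (l, true))])
    | .sum i j _ => (0, [(1, em i), (1, em j)])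
  | x => idRow x

/-- the comparisons after the last step -/
def fnChk (K : Fin r → Con (Fin n ⊕ τ)) (x y : Rg n r τ) : Prop :=
  ∃ l, match K l with
    | .mul _ j k => (x = .inr (l, false) ∧ y = em j) ∨ (x = .inr (l, true) ∧ y = em k)
    | .pw i j => (x = .inr (l, false) ∧ y = em j) ∨ (x = .inr (l, true) ∧ y = em i)
    | .sum _ _ k => x = .inr (l, true) ∧ y = em k

/-- the program -/
def conProg (K : Fin r → Con (Fin n ⊕ τ)) : Prog (Rg n r τ) (Qc n) (Xc r τ) where
  act
    | .rd i p, _ => Act.ofRows (rdRows i p) true (fun _ _ => False)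
    | .gs, x => Act.ofRows (gsRows x) false (fun _ _ => False)
    | .vf, none => Act.ofRows (fnRows K) false (fnChk K)
    | .vf, x => Act.ofRows (vfRows K x) false (fun _ _ => False)
    | .fn _, _ => Act.ofRows idRow false (fun _ _ => False)
  nxt
    | .rd i p, _, some s, _ => .rd (if p = some none then i + 1 else i) (some s)
    | .rd _ _, _, none, _ => .gs
    | .gs, none, _, _ => .vf
    | .gs, some _, _, _ => .gs
    | .vf, none, _, ok => .fn ok
    | .vf, some _, _, _ => .vf
    | .fn b, _, _, _ => .fn b
  halt
    | .fn _ => true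
    | _ => false

/-- the registers after reading the input -/
def v0 (a : Fin n → ℕ) : Rg n r τ → ℕ
  | .inl (.inl i) => if h : (i : ℕ) < n then a ⟨i, h⟩ else 0
  | _ => 0

end con

end Pool.Agent.NP15
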