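import Pool.Agent.NP15.ConDef

/-!
# [NP15-CONR] reading the input

PLAN. In the phase `rd` nothing depends on the choice. Write `ex (i, v) s` for the effect of a symbol `s` on the pair (register
index, registers): `some d` gives `(i, Function.update v (.inl (.inl i)) (2 * v _ + d.toNat))`, `none` gives `(i + 1, v)`.
One step from `(rd i p, u, v)`: the registers become `app (rdRows i p)` (by `app_ofRows`: the update for `p = some (some d)`, no
change otherwise), the next symbol is taken from `u`. So after `u.length + 1` steps one is in `(gs, [], v')` where `(i', v')` is the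
result of executing `p` and then all symbols of `u` (induction on `u`). For `u = word a`, `p = none`, `i = 0`, `v = 0`: executing
`(digs (a i)).map some ++ [none]` at index `i` with `v (inl (inl i)) = 0` sets this register to `a i` (`val_digs` in `DPoly/Word.lean`, or
prove `(digs a).foldl (fun x d => 2 * x + d.toNat) 0 = a` directly from `digs`, `Nat.testBit`), and moves on to `i + 1`; the word is
a `flatten` of `List.ofFn` (`word_succ` splits off the FIRST entry: `word a = block (a 0) ++ word (fun i => a i.succ)`; it may be
easier to write `word a` as the flatten of the list of blocks and to use induction on a list, with a general statement for a list of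
numbers `l` executed from index `i` with `i + l.length ≤ n`).
-/

namespace Pool.Agent.NP15

open DPoly

variable {n r : ℕ} {τ : Type} [Fintype τ] [DecidableEq τ]

/-- executing a symbol: the index -/
private def exI (i : Fin (n + 1)) (p : Option (Option Bool)) : Fin (n + 1) :=
  if p = some none then i + 1 else i

/-- executing a symbol: the registers -/
private def exV (i : Fin (n + 1)) : Option (Option Bool) → (Rg n r τ → ℕ) → Rg n r τ → ℕ
  | some (some d), v => Function.update v (.inl (.inl i)) (2 * v (.inl (.inl i)) + d.toNat)
  | _, v => v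

/-- executing a symbol -/
private def exE (c : Fin (n + 1) × (Rg n r τ → ℕ)) (s : Option Bool) :
    Fin (n + 1) × (Rg n r τ → ℕ) := (exI c.1 (some s), exV c.1 (some s) c.2)

omit [Fintype τ] in
private theorem exV_idRow_sum (v : Rg n r τ → ℕ) (x : Rg n r τ) :
    (idRow x).1 + ((idRow x).2.map fun p => p.1 * v p.2).sum = v x := by
  simp [idRow]

private theorem app_rdRows (i : Fin (n + 1)) (p : Option (Option Bool)) (v : Rg n r τ → ℕ) :
    (Act.ofRows (rdRows i p) true (fun _ _ => False)).app v = exV i p v := by
  funext x
  rw [app_ofRows]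
  match p with
  | none => exact exV_idRow_sum v x
  | some none => exact exV_idRow_sum v x
  | some (some d) =>
    by_cases hx : x = .inl (.inl i)
    · subst hx
      simp [rdRows, exV]
      ring
    · simp only [rdRows, exV, Function.update_of_ne hx]
      exact exV_idRow_sum v x

private theorem step_cons (K : Fin r → Con (Fin n ⊕ τ)) (i : Fin (n + 1)) (p : Option (Option Bool))
    (s : Option Bool) (u : List (Option Bool)) (v : Rg n r τ → ℕ) (x : Xc r τ) :
    (conProg K).step (.rd i p, s :: u, v) x = (.rd (exI i p) (some s), u, exV i p v) := by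
  have h := app_rdRows i p v
  unfold Prog.step
  refine Prod.ext ?_ (Prod.ext ?_ ?_)
  · rfl
  · rfl
  · exact h

private theorem step_nil (K : Fin r → Con (Fin n ⊕ τ)) (i : Fin (n + 1)) (p : Option (Option Bool))
    (v : Rg n r τ → ℕ) (x : Xc r τ) :
    (conProg K).step (.rd i p, [], v) x = (.gs, [], exV i p v) := by
  have h := app_rdRows i p v
  unfold Prog.step
  refine Prod.ext ?_ (Prod.ext ?_ ?_)
  · rfl
  · rfl
  · exact h

/-- the registers after reading `u` -/
private def run : List (Option Bool) → Fin (n + 1) → Option (Option Bool) → (Rg n r τ → ℕ) →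
    Rg n r τ → ℕ
  | [], i, p, v => exV i p v
  | s :: u, i, p, v => run u (exI i p) (some s) (exV i p v)

private theorem reach_run (K : Fin r → Con (Fin n ⊕ τ)) (u : List (Option Bool)) :
    ∀ (i : Fin (n + 1)) (p : Option (Option Bool)) (v : Rg n r τ → ℕ),
      (conProg K).Ch (u.length + 1) (.rd i p, u, v) (.gs, [], run u i p v) := by
  induction u with
  | nil =>
    intro i p v
    refine ⟨rfl, none, ?_⟩
    rw [step_nil]
    rfl
  | cons s u ih =>
    intro i p v
    refine ⟨rfl, none, ?_⟩
    rw [step_cons]
    exact ih _ _ _

private theorem all_run (K : Fin r → Con (Fin n ⊕ τ)) (k : ℕ) :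
    ∀ (u : List (Option Bool)) (i : Fin (n + 1)) (p : Option (Option Bool)) (v : Rg n r τ → ℕ)
      (c : Qc n × List (Option Bool) × (Rg n r τ → ℕ)), (conProg K).Ch k (.rd i p, u, v) c →
      (∃ i p, c.1 = .rd i p) ∨ ∃ t, (conProg K).Ch t (.gs, [], run u i p v) c := by
  induction k with
  | zero =>
    intro u i p v c h
    have h' : (Qc.rd i p, u, v) = c := h
    subst h'
    exact Or.inl ⟨i, p, rfl⟩
  | succ k ih =>
    intro u i p v c h
    obtain ⟨-, x, h⟩ := h
    cases u with
    | nil =>
      rw [step_nil] at h
      exact Or.inr ⟨k, h⟩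
    | cons s u =>
      rw [step_cons] at h
      exact ih u (exI i p) (some s) (exV i p v) c h

omit [Fintype τ] in
private theorem run_some (u : List (Option Bool)) :
    ∀ (i : Fin (n + 1)) (s : Option Bool) (v : Rg n r τ → ℕ),
      run u i (some s) v = (List.foldl exE (i, v) (s :: u)).2 := by
  induction u with
  | nil => intro i s v; rfl
  | cons s' u ih =>
    intro i s v
    rw [run, ih]
    rfl

omit [Fintype τ] in
private theorem run_none (u : List (Option Bool)) (i : Fin (n + 1)) (v : Rg n r τ → ℕ) :
    run u i none v = (List.foldl exE (i, v) u).2 := by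
  cases u with
  | nil => rfl
  | cons s u =>
    rw [run, run_some]
    rfl

omit [Fintype τ] in
private theorem fold_digs (l : List Bool) (i : Fin (n + 1)) :
    ∀ v : Rg n r τ → ℕ, List.foldl exE (i, v) (l.map some) =
      (i, Function.update v (.inl (.inl i))
        (l.foldl (fun x d => 2 * x + d.toNat) (v (.inl (.inl i))))) := by
  induction l with
  | nil => intro v; simp
  | cons d l ih =>
    intro v
    rw [List.map_cons, List.foldl_cons]
    have h : exE (i, v) (some d) =
        (i, Function.update v (.inl (.inl i)) (2 * v (.inl (.inl i)) + d.toNat)) := by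
      simp [exE, exI, exV]
    rw [h, ih]
    simp

private theorem foldl_digs (a : ℕ) : (digs a).foldl (fun x d => 2 * x + d.toNat) 0 = a := by
  have h := val_digs a
  rw [val, List.foldl_map] at h
  have h2 : (fun (x : ℕ) (y : Bool) => Nat.bit (decide (some y = some true)) x) =
      fun (x : ℕ) (d : Bool) => 2 * x + d.toNat := by
    funext x y
    cases y <;> simp [Nat.bit_val]
  rw [h2] at h
  exact h

/-- the registers after reading the first `t` numbers -/
private def vi (a : Fin n → ℕ) (t : ℕ) : Rg n r τ → ℕ
  | .inl (.inl i) => if h : (i : ℕ) < n then (if (i : ℕ) < t then a ⟨i, h⟩ else 0) else 0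
  | _ => 0

omit [Fintype τ] in
private theorem fold_block (a : Fin n → ℕ) (t : ℕ) (ht : t < n) :
    List.foldl exE ((⟨t, by omega⟩ : Fin (n + 1)), (vi a t : Rg n r τ → ℕ)) (block (a ⟨t, ht⟩)) =
      ((⟨t + 1, by omega⟩ : Fin (n + 1)), (vi a (t + 1) : Rg n r τ → ℕ)) := by
  rw [block, List.foldl_append, fold_digs]
  have h0 : (vi a t : Rg n r τ → ℕ) (.inl (.inl (⟨t, by omega⟩ : Fin (n + 1)))) = 0 := by
    simp [vi]
  rw [h0, foldl_digs]
  have h1 : (⟨t, by omega⟩ : Fin (n + 1)) + 1 = ⟨t + 1, by omega⟩ := by
    apply Fin.ext
    rw [Fin.val_add_one_of_lt]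
    rw [Fin.lt_def]
    simpa using ht
  have h2 : Function.update (vi a t : Rg n r τ → ℕ) (.inl (.inl (⟨t, by omega⟩ : Fin (n + 1))))
      (a ⟨t, ht⟩) = vi a (t + 1) := by
    funext x
    by_cases hx : x = .inl (.inl (⟨t, by omega⟩ : Fin (n + 1)))
    · subst hx
      rw [Function.update_self]
      simp [vi, ht]
    · rw [Function.update_of_ne hx]
      match x with
      | .inl (.inl j) =>
        have hj : (j : ℕ) ≠ t := by
          intro h
          apply hx
          congr 2
          exact Fin.ext h
        simp only [vi]
        by_cases hjn : (j : ℕ) < n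
        · simp only [hjn, dite_true]
          by_cases hjt : (j : ℕ) < t
          · rw [if_pos hjt, if_pos (by omega)]
          · rw [if_neg hjt, if_neg (by omega)]
        · simp only [hjn, dite_false]
      | .inl (.inr j) => rfl
      | .inr j => rfl
  rw [h2]
  simp [exE, exI, exV, h1]

omit [Fintype τ] in
private theorem fold_word (a : Fin n → ℕ) (m : ℕ) :
    ∀ (t : ℕ) (htm : t + m = n) (b : Fin m → ℕ), (∀ j : Fin m, b j = a ⟨t + j, by omega⟩) →
      (List.foldl exE ((⟨t, by omega⟩ : Fin (n + 1)), (vi a t : Rg n r τ → ℕ)) (word b)).2 =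
        vi a n := by
  induction m with
  | zero =>
    intro t htm b hb
    have ht : t = n := by omega
    subst ht
    simp [word]
  | succ m ih =>
    intro t htm b hb
    rw [word_succ, List.foldl_append]
    have h0 : b 0 = a ⟨t, by omega⟩ := by
      rw [hb 0]
      congr 1
    rw [h0, fold_block a t (by omega)]
    refine ih (t + 1) (by omega) _ fun j => ?_
    rw [hb]
    congr 1
    apply Fin.ext
    simp only [Fin.val_succ]
    omega

omit [Fintype τ] in
private theorem run_word (a : Fin n → ℕ) :
    run (word a) (0 : Fin (n + 1)) none (fun _ => 0 : Rg n r τ → ℕ) = v0 a := by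
  rw [run_none]
  have h0 : (fun _ => 0 : Rg n r τ → ℕ) = vi a 0 := by
    funext x
    match x with
    | .inl (.inl j) => simp [vi]
    | .inl (.inr j) => rfl
    | .inr j => rfl
  have h1 : (vi a n : Rg n r τ → ℕ) = v0 a := by
    funext x
    match x with
    | .inl (.inl j) =>
      simp only [vi, v0]
      by_cases hj : (j : ℕ) < n
      · simp [hj]
      · simp [hj]
    | .inl (.inr j) => rfl
    | .inr j => rfl
  rw [h0, ← h1]
  exact fold_word a n 0 (by omega) a fun j => by
    congr 1
    apply Fin.ext
    simp

/-- reading the input -/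
theorem read_reach (K : Fin r → Con (Fin n ⊕ τ)) (a : Fin n → ℕ) :
    (conProg K).Ch ((word a).length + 1) (.rd 0 none, word a, fun _ => 0) (.gs, [], v0 a) := by
  have h := reach_run K (word a) 0 none (fun _ => 0)
  rw [run_word] at h
  exact h

/-- all computations read the input first -/
theorem read_all (K : Fin r → Con (Fin n ⊕ τ)) (a : Fin n → ℕ) (k : ℕ)
    (c : Qc n × List (Option Bool) × (Rg n r τ → ℕ))
    (h : (conProg K).Ch k (.rd 0 none, word a, fun _ => 0) c) :
    (∃ i p, c.1 = .rd i p) ∨ ∃ u, (conProg K).Ch u (.gs, [], v0 a) c := by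
  have h' := all_run K k _ _ _ _ _ h
  rw [run_word] at h'
  exact h'

end Pool.Agent.NP15
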