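import Pool.Agent.NP15.ConDef

/-!
# [NP15-CONS] soundness of the program

PLAN. Invariant of the states `(q, u, v)` reachable from `(gs, [], v0 a)`, by induction on the chain (prove: the invariant is
preserved by each step; `Ch` is unfolded from the front, so generalise over the first state):
* `v (inl (inl i)) = v0 a (inl (inl i))` for all `i` (so `v (em (inl i)) = a i`);
* if `q = gs`: `v (inr (l, b)) = 0` for all `l`, `b`;
* if `q = vf`: for all `l`: `K l = mul i _ _` implies `v (inr (l, true)) = v (inr (l, false)) * v (em i)`, `K l = pw _ _` implies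
  `v (inr (l, true)) + 1 = 2 ^ v (inr (l, false))`;
* if `q = fn true`: `∃ y, ∀ l, (K l).Holds (Sum.elim a y)`, namely `y j = v (inl (inr j))`;
* `q` is not `rd _ _`.
The effect of the actions is given by `app_ofRows` (with `Function.update` and `idRow`). In the last step the comparisons give, for
`K l = mul i j k`, `y = v (em j)` and `z = v (em k)`, etc.; note that the rows of `fnRows` at the registers `inl _`, `(l, false)` are
those of the identity.
-/

namespace Pool.Agent.NP15

open DPoly

variable {n r : ℕ} {τ : Type} [Fintype τ] [DecidableEq τ]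

omit [Fintype τ] in
private theorem app_idR [Fintype τ] (ρ : Rg n r τ → Row (Rg n r τ)) (rd : Bool) (chk : Rg n r τ → Rg n r τ → Prop)
    (v : Rg n r τ → ℕ) (i : Rg n r τ) (h : ρ i = idRow i) : (Act.ofRows ρ rd chk).app v i = v i := by
  rw [app_ofRows, h]
  simp [idRow]

omit [Fintype τ] in
private theorem gsRows_in (x : Xc r τ) (i : Fin (n + 1)) :
    gsRows (n := n) x (.inl (.inl i)) = idRow (.inl (.inl i)) := by
  rcases x with _ | x
  · rfl
  · rcases x with x | x
    · obtain ⟨j, d⟩ := x
      simp [gsRows, Function.update_of_ne]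
    · rfl

omit [Fintype τ] in
private theorem gsRows_inr (x : Xc r τ) (l : Fin r × Bool) :
    gsRows (n := n) x (.inr l) = idRow (.inr l) := by
  rcases x with _ | x
  · rfl
  · rcases x with x | x
    · obtain ⟨j, d⟩ := x
      simp [gsRows, Function.update_of_ne]
    · rfl

omit [Fintype τ] in
private theorem vfRows_inl (K : Fin r → Con (Fin n ⊕ τ)) (x : Xc r τ) (i : Fin (n + 1) ⊕ τ) :
    vfRows K x (.inl i) = idRow (.inl i) := by
  rcases x with _ | x
  · rfl
  · rcases x with x | x
    · rfl
    · obtain ⟨l, d⟩ := x
      simp only [vfRows]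
      cases K l with
      | mul i j k => simp [Function.update_of_ne]
      | pw i j => simp [Function.update_of_ne]
      | sum i j k => rfl

omit [Fintype τ] in
private theorem vfRows_other (K : Fin r → Con (Fin n ⊕ τ)) {l l' : Fin r} (hl : l' ≠ l) (d b : Bool) :
    vfRows K (some (.inr (l, d))) (.inr (l', b)) = idRow (.inr (l', b)) := by
  simp only [vfRows]
  cases K l with
  | mul i j k => simp [Function.update_of_ne, hl]
  | pw i j => simp [Function.update_of_ne, hl]
  | sum i j k => rfl

omit [Fintype τ] [DecidableEq τ] in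
private theorem fnRows_inl (K : Fin r → Con (Fin n ⊕ τ)) (i : Fin (n + 1) ⊕ τ) :
    fnRows K (.inl i) = idRow (.inl i) := rfl

omit [Fintype τ] [DecidableEq τ] in
private theorem em_inl (i : Fin n ⊕ τ) : ∃ z : Fin (n + 1) ⊕ τ, (em i : Rg n r τ) = .inl z := by
  rcases i with i | i
  · exact ⟨_, rfl⟩
  · exact ⟨_, rfl⟩

/-- the invariant -/
private structure CInv (K : Fin r → Con (Fin n ⊕ τ)) (a : Fin n → ℕ)
    (c : Qc n × List (Option Bool) × (Rg n r τ → ℕ)) : Prop where
  inp : ∀ i, c.2.2 (.inl (.inl i)) = v0 (r := r) (τ := τ) a (.inl (.inl i))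
  gs0 : c.1 = .gs → ∀ l, c.2.2 (.inr l) = 0
  mul : c.1 = .vf → ∀ l i j k, K l = .mul i j k → c.2.2 (.inr (l, true)) = c.2.2 (.inr (l, false)) * c.2.2 (em i)
  pw : c.1 = .vf → ∀ l i j, K l = .pw i j → c.2.2 (.inr (l, true)) + 1 = 2 ^ c.2.2 (.inr (l, false))
  fin : c.1 = .fn true → ∀ l, (K l).Holds (Sum.elim a (fun j => c.2.2 (.inl (.inr j))))
  nrd : ∀ i p, c.1 ≠ .rd i p

private theorem cinv_step (K : Fin r → Con (Fin n ⊕ τ)) (a : Fin n → ℕ)
    (c : Qc n × List (Option Bool) × (Rg n r τ → ℕ)) (hc : CInv K a c) (hh : (conProg K).halt c.1 = false)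
    (x : Xc r τ) : CInv K a ((conProg K).step c x) := by
  obtain ⟨q, w, v⟩ := c
  obtain ⟨hinp, hgs, hmul, hpw, _, hnrd⟩ := hc
  simp only at hinp hgs hmul hpw hnrd hh
  cases q with
  | rd i p => exact absurd rfl (hnrd i p)
  | fn b => simp [conProg] at hh
  | gs =>
    have hreg : ∀ z : Rg n r τ, ((conProg K).step (.gs, w, v) x).2.2 z =
        (Act.ofRows (gsRows x) false (fun _ _ => False)).app v z := fun z => rfl
    have hnx : ((conProg K).step (.gs, w, v) x).1 = .gs ∨ ((conProg K).step (.gs, w, v) x).1 = .vf := by
      rcases x with _ | x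
      · right
        rfl
      · left
        rfl
    have hz : ∀ l, ((conProg K).step (.gs, w, v) x).2.2 (.inr l) = 0 := by
      intro l
      rw [hreg, app_idR _ _ _ _ _ (gsRows_inr x l)]
      exact hgs rfl l
    refine ⟨fun i => ?_, fun _ l => hz l, fun _ l i j k _ => ?_, fun _ l i j _ => ?_, fun h => ?_, fun i p h => ?_⟩
    · rw [hreg, app_idR _ _ _ _ _ (gsRows_in x i)]
      exact hinp i
    · rw [hz, hz, zero_mul]
    · rw [hz, hz]
      rfl
    · rcases hnx with h' | h' <;> rw [h'] at h <;> exact absurd h (by simp)
    · rcases hnx with h' | h' <;> rw [h'] at h <;> exact absurd h (by simp)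
  | vf =>
    rcases x with _ | x
    · -- the last step
      have hreg : ∀ z : Rg n r τ, ((conProg K).step (.vf, w, v) none).2.2 z =
          (Act.ofRows (fnRows K) false (fnChk K)).app v z := fun z => rfl
      have hinl : ∀ z : Fin (n + 1) ⊕ τ, (Act.ofRows (fnRows K) false (fnChk K)).app v (.inl z) = v (.inl z) :=
        fun z => app_idR _ _ _ _ _ (fnRows_inl K z)
      have hem : ∀ i : Fin n ⊕ τ, (Act.ofRows (fnRows K) false (fnChk K)).app v (em i) = v (em i) := by
        intro i
        obtain ⟨z, hz⟩ := em_inl (r := r) i
        rw [hz]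
        exact hinl z
      have hnx : ∃ ok, ((conProg K).step (.vf, w, v) none).1 = .fn ok := ⟨_, rfl⟩
      refine ⟨fun i => ?_, fun h => ?_, fun h => ?_, fun h => ?_, fun h => ?_, fun i p h => ?_⟩
      · rw [hreg, hinl]
        exact hinp i
      · obtain ⟨ok, hok⟩ := hnx
        rw [hok] at h
        exact absurd h (by simp)
      · obtain ⟨ok, hok⟩ := hnx
        rw [hok] at h
        exact absurd h (by simp)
      · obtain ⟨ok, hok⟩ := hnx
        rw [hok] at h
        exact absurd h (by simp)
      · -- the comparisons
        have hcmp : ∀ i j, fnChk K i j → (Act.ofRows (fnRows K) false (fnChk K)).app v i =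
            (Act.ofRows (fnRows K) false (fnChk K)).app v j := by
          have h2 := Qc.fn.inj h
          simp only [decide_eq_true_eq] at h2
          exact h2
        have hval : ∀ i : Fin n ⊕ τ, Sum.elim a (fun j => ((conProg K).step (.vf, w, v) none).2.2 (.inl (.inr j))) i =
            v (em i) := by
          intro i
          rcases i with i | i
          · have h3 := hinp i.castSucc
            simp only [Sum.elim_inl, em]
            rw [h3]
            simp [v0]
          · simp only [Sum.elim_inr, em]
            rw [hreg, hinl]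
        intro l
        cases hK : K l with
        | mul i j k =>
          have c1 := hcmp (.inr (l, false)) (em j) ⟨l, by rw [hK]; exact Or.inl ⟨rfl, rfl⟩⟩
          have c2 := hcmp (.inr (l, true)) (em k) ⟨l, by rw [hK]; exact Or.inr ⟨rfl, rfl⟩⟩
          rw [hem, app_idR _ _ _ _ _ (by rfl)] at c1
          rw [hem, app_idR _ _ _ _ _ (by simp only [fnRows, hK])] at c2
          have c3 := hmul rfl l i j k hK
          simp only [Con.Holds]
          rw [hval, hval, hval, ← c1, ← c2, c3, mul_comm]
        | pw i j =>
          have c1 := hcmp (.inr (l, false)) (em j) ⟨l, by rw [hK]; exact Or.inl ⟨rfl, rfl⟩⟩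
          have c2 := hcmp (.inr (l, true)) (em i) ⟨l, by rw [hK]; exact Or.inr ⟨rfl, rfl⟩⟩
          rw [hem, app_idR _ _ _ _ _ (by rfl)] at c1
          rw [hem, app_ofRows] at c2
          simp only [fnRows, hK, List.map_cons, List.map_nil, List.sum_cons, List.sum_nil, one_mul, add_zero] at c2
          have c3 := hpw rfl l i j hK
          simp only [Con.Holds]
          rw [hval, hval, ← c1, ← c2, ← c3, add_comm]
        | sum i j k =>
          have c2 := hcmp (.inr (l, true)) (em k) ⟨l, by rw [hK]; exact ⟨rfl, rfl⟩⟩
          rw [hem, app_ofRows] at c2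
          simp only [fnRows, hK, List.map_cons, List.map_nil, List.sum_cons, List.sum_nil, one_mul, add_zero,
            zero_add] at c2
          simp only [Con.Holds]
          rw [hval, hval, hval, ← c2]
      · obtain ⟨ok, hok⟩ := hnx
        rw [hok] at h
        exact absurd h (by simp)
    · -- a step for a constraint
      have hreg : ∀ z : Rg n r τ, ((conProg K).step (.vf, w, v) (some x)).2.2 z =
          (Act.ofRows (vfRows K (some x)) false (fun _ _ => False)).app v z := fun z => rfl
      have hnx : ((conProg K).step (.vf, w, v) (some x)).1 = .vf := rfl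
      have hinl : ∀ z : Fin (n + 1) ⊕ τ, ((conProg K).step (.vf, w, v) (some x)).2.2 (.inl z) = v (.inl z) := by
        intro z
        rw [hreg]
        exact app_idR _ _ _ _ _ (vfRows_inl K _ z)
      have hem : ∀ i : Fin n ⊕ τ, ((conProg K).step (.vf, w, v) (some x)).2.2 (em i) = v (em i) := by
        intro i
        obtain ⟨z, hz⟩ := em_inl (r := r) i
        rw [hz]
        exact hinl z
      refine ⟨fun i => ?_, fun h => ?_, fun _ l i j k hK => ?_, fun _ l i j hK => ?_, fun h => ?_, fun i p h => ?_⟩
      · rw [hinl]
        exact hinp i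
      · rw [hnx] at h
        exact absurd h (by simp)
      · have hold := hmul rfl l i j k hK
        rcases x with x | x
        · rw [hreg, hreg, app_idR _ _ _ _ _ (by rfl), app_idR _ _ _ _ _ (by rfl), hem]
          exact hold
        · obtain ⟨l', d⟩ := x
          by_cases hl : l = l'
          · subst hl
            rw [hem, hreg, hreg, app_ofRows, app_ofRows]
            simp only [vfRows, hK]
            rw [Function.update_self, Function.update_of_ne (by simp), Function.update_self]
            simp only [List.map_cons, List.map_nil, List.sum_cons, List.sum_nil, zero_add, add_zero]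
            rw [hold]
            ring
          · rw [hreg, hreg, app_idR _ _ _ _ _ (vfRows_other K hl d _), app_idR _ _ _ _ _ (vfRows_other K hl d _), hem]
            exact hold
      · have hold := hpw rfl l i j hK
        rcases x with x | x
        · rw [hreg, hreg, app_idR _ _ _ _ _ (by rfl), app_idR _ _ _ _ _ (by rfl)]
          exact hold
        · obtain ⟨l', d⟩ := x
          by_cases hl : l = l'
          · subst hl
            rw [hreg, hreg, app_ofRows, app_ofRows]
            simp only [vfRows, hK]
            rw [Function.update_self, Function.update_of_ne (by simp), Function.update_self]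
            simp only [List.map_cons, List.map_nil, List.sum_cons, List.sum_nil, one_mul, add_zero]
            rw [add_comm 1 (v (.inr (l, false))), pow_succ, ← hold]
            ring
          · rw [hreg, hreg, app_idR _ _ _ _ _ (vfRows_other K hl d _), app_idR _ _ _ _ _ (vfRows_other K hl d _)]
            exact hold
      · rw [hnx] at h
        exact absurd h (by simp)
      · rw [hnx] at h
        exact absurd h (by simp)

private theorem cinv_chain (K : Fin r → Con (Fin n ⊕ τ)) (a : Fin n → ℕ) (u : ℕ) :
    ∀ (c c' : Qc n × List (Option Bool) × (Rg n r τ → ℕ)), CInv K a c → (conProg K).Ch u c c' → CInv K a c' := by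
  induction u with
  | zero =>
    intro c c' hc h
    simp only [Prog.Ch] at h
    rw [← h]
    exact hc
  | succ u ih =>
    intro c c' hc h
    obtain ⟨hh, x, h2⟩ := h
    exact ih _ _ (cinv_step K a c hc hh x) h2

theorem con_sound (K : Fin r → Con (Fin n ⊕ τ)) (a : Fin n → ℕ) (u : ℕ)
    (c : Qc n × List (Option Bool) × (Rg n r τ → ℕ))
    (h : (conProg K).Ch u (.gs, [], v0 a) c) (hc : c.1 = .fn true) :
    ∃ y : τ → ℕ, ∀ l, (K l).Holds (Sum.elim a y) := by
  have h0 : CInv K a ((.gs, [], v0 a) : Qc n × List (Option Bool) × (Rg n r τ → ℕ)) := by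
    refine ⟨fun i => rfl, fun _ l => rfl, fun h => ?_, fun h => ?_, fun h => ?_, fun i p h => ?_⟩
    · exact absurd h (by simp)
    · exact absurd h (by simp)
    · exact absurd h (by simp)
    · exact absurd h (by simp)
  have h1 := cinv_chain K a u _ _ h0 h
  exact ⟨_, h1.fin hc⟩

end Pool.Agent.NP15
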