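import Pool.Agent.NP15.PrgA
import Pool.Agent.NP15.ClkB

/-!
# [NP15-PRGB] programs with polynomially many steps give relations in `NP`

PLAN. `e : Fin (m + 1) ≃ X` with `m + 1 = card X`; `N`, `F` from the finitely many actions (`2 ^ N ≥ N`, `F := N`). `abs_sweep` gives, by
induction on `k`: `Sw.Ch k c c'` implies `Prog.Ch k (absC c) (absC c')`, and `Prog.Ch k (absC c) d` implies
`∃ c', Sw.Ch k c c' ∧ absC c' = d` (`e` is surjective). `enc s := (some s, fun _ => false)`;
`absC (q0, (word a).map enc) = (q0, word a, fun _ => 0)`. Then `inNP_of_sw'`.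
-/

namespace Pool.Agent.NP15

open Turing DPoly Finset

private theorem prgB_fwd {ι Q X : Type} [Fintype ι] {m : ℕ} (P : Prog ι Q X) (N : ℕ) (e : Fin (m + 1) → X)
    (hN : ∀ q x i, (P.act q x).b i + ∑ j, (P.act q x).A i j ≤ N) (k : ℕ) :
    ∀ c c' : Q × List (Cell ι), (P.sw N N e).Ch k c c' → P.Ch k (absC c) (absC c') := by
  induction k with
  | zero =>
    intro c c' h
    change c = c' at h
    change absC c = absC c'
    rw [h]
  | succ k ih =>
    rintro c c' ⟨h1, x, h2⟩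
    refine ⟨h1, e x, ?_⟩
    have h3 := ih _ _ h2
    rw [abs_sweep P N N e hN (fun q x i => (hN q x i).trans_lt Nat.lt_two_pow_self)] at h3
    exact h3

private theorem prgB_bwd {ι Q X : Type} [Fintype ι] {m : ℕ} (P : Prog ι Q X) (N : ℕ) (e : Fin (m + 1) → X)
    (he : Function.Surjective e)
    (hN : ∀ q x i, (P.act q x).b i + ∑ j, (P.act q x).A i j ≤ N) (k : ℕ) :
    ∀ (c : Q × List (Cell ι)) (d : Q × List (Option Bool) × (ι → ℕ)), P.Ch k (absC c) d →
      ∃ c', (P.sw N N e).Ch k c c' ∧ absC c' = d := by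
  induction k with
  | zero =>
    intro c d h
    change absC c = d at h
    exact ⟨c, rfl, h⟩
  | succ k ih =>
    rintro c d ⟨h1, x, h2⟩
    obtain ⟨y, rfl⟩ := he x
    rw [← abs_sweep P N N e hN (fun q x i => (hN q x i).trans_lt Nat.lt_two_pow_self)] at h2
    obtain ⟨c', h3, h4⟩ := ih _ _ h2
    exact ⟨c', ⟨h1, y, h3⟩, h4⟩

private theorem prgB_zero (l : List (Option Bool)) :
    Nat.ofDigits 2 (l.map fun _ => (0 : ℕ)) = 0 := by
  induction l with
  | nil => rfl
  | cons a l ih => rw [List.map_cons, Nat.ofDigits_cons, ih]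

private theorem prgB_init {ι Q : Type} (q0 : Q) (l : List (Option Bool)) :
    absC (q0, l.map (fun s => ((some s, fun _ => false) : Cell ι))) = (q0, l, fun _ => 0) := by
  unfold absC
  refine Prod.ext rfl (Prod.ext ?_ ?_)
  · change (l.map (fun s => ((some s, fun _ => false) : Cell ι))).filterMap (·.1) = l
    rw [List.filterMap_map]
    exact List.filterMap_some
  · funext i
    change Nat.ofDigits 2 ((l.map (fun s => ((some s, fun _ => false) : Cell ι))).map
      fun a => (a.2 i).toNat) = 0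
    rw [List.map_map]
    exact prgB_zero l

theorem inNP_of_prog {ι Q X : Type} [Fintype ι] [Finite Q] [Fintype X] [Nonempty X]
    (P : Prog ι Q X) (q0 : Q) (acc : Set Q) (hacc : ∀ q ∈ acc, P.halt q = true)
    (B : Polynomial ℕ) {n : ℕ} (hn : 1 ≤ n) (R : Set (Fin n → ℕ))
    (h : ∀ a : Fin n → ℕ,
      (∀ k c, P.Ch k (q0, word a, fun _ => 0) c → c.1 ∈ acc → a ∈ R) ∧
      (a ∈ R → ∃ k ≤ B.eval (word a).length, ∃ c, P.Ch k (q0, word a, fun _ => 0) c ∧ c.1 ∈ acc)) :
    InNP R := by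
  classical
  obtain ⟨m, hm⟩ : ∃ m, Fintype.card X = m + 1 :=
    Nat.exists_eq_succ_of_ne_zero Fintype.card_pos.ne'
  obtain ⟨e⟩ : Nonempty (X ≃ Fin (m + 1)) := ⟨Fintype.equivFinOfCardEq hm⟩
  have hbd : BddAbove (Set.range (fun t : Q × X × ι => (P.act t.1 t.2.1).b t.2.2 +
      ∑ j, (P.act t.1 t.2.1).A t.2.2 j)) := (Set.finite_range _).bddAbove
  obtain ⟨N, hN⟩ := hbd
  have hN' : ∀ q x i, (P.act q x).b i + ∑ j, (P.act q x).A i j ≤ N :=
    fun q x i => hN ⟨(q, x, i), rfl⟩
  have henc : Function.Injective (fun s : Option Bool => ((some s, fun _ => false) : Cell ι)) := by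
    intro s t hst
    exact Option.some.inj (Prod.mk.inj hst).1
  refine inNP_of_sw' (P.sw N N e.symm) q0 acc hacc _ henc B hn R fun a => ⟨fun k c hc hca => ?_, fun ha => ?_⟩
  · have h1 := prgB_fwd P N e.symm hN' k _ _ hc
    rw [prgB_init] at h1
    exact (h a).1 k _ h1 hca
  · obtain ⟨k, hk, c, hc, hca⟩ := (h a).2 ha
    rw [← prgB_init (ι := ι)] at hc
    obtain ⟨c', h1, h2⟩ := prgB_bwd P N e.symm e.symm.surjective hN' k _ _ hc
    refine ⟨k, hk, c', h1, ?_⟩
    rw [← h2] at hca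
    exact hca

end Pool.Agent.NP15
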