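import Pool.Agent.NP15.ConR
import Pool.Agent.NP15.ConS
import Pool.Agent.NP15.ConC
import Pool.Agent.NP15.PrgB

/-!
# [NP15-CONT] relations given by systems of constraints are in `NP`

PLAN. `inNP_of_prog` with `conProg K`, `q0 = rd 0 none`, `acc = {fn true}`. Soundness: `read_all`, `con_sound`. Completeness: `read_reach`,
`con_complete` with `N = (B' + X).eval (word a).length` where `B'` bounds the witnesses; `a i < 2 ^ len (a i) ≤ 2 ^ (word a).length`
(`word_length`, `len (a i) + 1 ≤ ∑ i, (len (a i) + 1)`). Note `len (∑ i, a i) ≤ (word a).length` for `n ≥ 1`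
(`∑ i, a i < 2 ^ ∑ i, (len (a i) + 1)`, induction or: `∑ a i ≤ ∏ (a i + 1)`, `a i + 1 ≤ 2 ^ len (a i)`), so
`B.eval (len (∑ i, a i)) ≤ B.eval (word a).length` (`eval_mono'` in `DPoly/Main.lean`; reprove it here to keep the imports small).
`Qc n` is finite (`Finite` via an injection into a finite type, or `Fintype` by an explicit equivalence).
-/

namespace Pool.Agent.NP15

open DPoly

private theorem chT_comp {ι Q X : Type} [Fintype ι] (P : Prog ι Q X) :
    ∀ (k : ℕ) {k' : ℕ} {c c' c'' : Q × List (Option Bool) × (ι → ℕ)},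
    P.Ch k c c' → P.Ch k' c' c'' → P.Ch (k + k') c c'' := by
  intro k
  induction k with
  | zero =>
    intro k' c c' c'' h h'
    have h0 : c = c' := h
    rw [h0, Nat.zero_add]
    exact h'
  | succ k ih =>
    intro k' c c' c'' h h'
    obtain ⟨h1, x, h2⟩ := h
    have e : k + 1 + k' = (k + k') + 1 := by omega
    rw [e]
    exact ⟨h1, x, ih h2 h'⟩

private theorem evalT_mono (p : Polynomial ℕ) {x y : ℕ} (h : x ≤ y) : p.eval x ≤ p.eval y := by
  rw [Polynomial.eval_eq_sum_range, Polynomial.eval_eq_sum_range]
  exact Finset.sum_le_sum fun i _ => Nat.mul_le_mul_left _ (Nat.pow_le_pow_left h i)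

private instance finite_Qc (n : ℕ) : Finite (Qc n) := by
  refine Finite.of_injective (β := Option (Option ((Fin (n + 1) × Option (Option Bool)) ⊕ Bool)))
    (fun q => match q with
      | .rd i p => some (some (.inl (i, p)))
      | .gs => none
      | .vf => some none
      | .fn b => some (some (.inr b))) ?_
  intro q q' h
  cases q <;> cases q' <;> simp_all

private theorem sumT_lt {ι : Type} (s : Finset ι) (a : ι → ℕ) :
    ∑ i ∈ s, a i + 1 ≤ 2 ^ ∑ i ∈ s, (len (a i) + 1) := by
  classical
  induction s using Finset.induction_on with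
  | empty => simp
  | insert i s hi ih =>
    rw [Finset.sum_insert hi, Finset.sum_insert hi, pow_add]
    have h1 := lt_two_pow_len (a i)
    have h2 : 2 ^ (len (a i) + 1) = 2 * 2 ^ len (a i) := by rw [pow_succ]; ring
    rw [h2]
    generalize 2 ^ len (a i) = A at *
    generalize 2 ^ ∑ i ∈ s, (len (a i) + 1) = C at *
    generalize ∑ i ∈ s, a i = S at *
    have h3 : a i + 1 ≤ A := h1
    have h4 : (a i + 1) * (S + 1) ≤ A * C := Nat.mul_le_mul h3 ih
    nlinarith

theorem inNP_of_CS {n : ℕ} (hn : 1 ≤ n) (R : Set (Fin n → ℕ)) (h : CS (fun a => a ∈ R)) :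
    InNP R := by
  classical
  obtain ⟨τ, _, m, K, B, hs, hc⟩ := h
  refine inNP_of_prog (conProg K) (.rd 0 none) {.fn true} ?_
    (Polynomial.X + 1 + (Polynomial.C (Fintype.card τ + m)) * (B + Polynomial.X + 1) + 2) hn R ?_
  · intro q hq
    rw [Set.mem_singleton_iff] at hq
    rw [hq]
    rfl
  · intro a
    refine ⟨?_, ?_⟩
    · intro k c hk hacc
      rcases read_all K a k c hk with ⟨i, p, h1⟩ | ⟨u, hu⟩
      · rw [h1] at hacc
        simp at hacc
      · obtain ⟨y, hy⟩ := con_sound K a u c hu hacc
        exact hs a y hy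
    · intro ha
      obtain ⟨y, hy, hb⟩ := hc a ha
      have hlen : ∀ i, len (a i) + 1 ≤ (word a).length := by
        intro i
        rw [word_length]
        exact Finset.single_le_sum (f := fun i => len (a i) + 1) (fun _ _ => Nat.zero_le _)
          (Finset.mem_univ i)
      have hL1 : 1 ≤ (word a).length := by
        have := hlen ⟨0, hn⟩
        omega
      have hsum : len (∑ i, a i) ≤ (word a).length := by
        refine len_le_of_lt ?_ hL1
        rw [word_length]
        exact sumT_lt Finset.univ a
      have hN : ∀ x, Sum.elim a y x ≤ 2 ^ (B.eval (word a).length + (word a).length) := by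
        rintro (i | j)
        · simp only [Sum.elim_inl]
          refine (lt_two_pow_len (a i)).le.trans (Nat.pow_le_pow_right (by norm_num) ?_)
          have := hlen i
          omega
        · simp only [Sum.elim_inr]
          refine (hb j).trans (Nat.pow_le_pow_right (by norm_num) ?_)
          have := evalT_mono B hsum
          omega
      obtain ⟨k, hk, c, hck, hc1⟩ := con_complete K a y _ hN hy
      refine ⟨(word a).length + 1 + k, ?_, c, chT_comp _ _ (read_reach K a) hck, hc1⟩
      simp only [Polynomial.eval_add, Polynomial.eval_mul, Polynomial.eval_X, Polynomial.eval_one,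
        Polynomial.eval_C, Polynomial.eval_ofNat]
      omega

end Pool.Agent.NP15
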