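import Pool.Agent.DPoly.Word

/-!
# D is contained in NP: definitions

Three machine models of decreasing concreteness. `InNP` is the class `NP` (one-tape nondeterministic
Turing machines, all computations polynomially bounded). `Sw` are sweeping machines: a row of cells
is rewritten in passes from left to right by a letter-to-letter transducer (`mealy`), `F` new cells
are appended in each pass, and one of `m + 1` choices is made before each pass. `Prog` are programs
on registers with natural numbers; each step applies an affine map.
-/

namespace Pool.Agent.NP15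

open Turing DPoly

/-- the class `NP` -/
def InNP {n : ℕ} (R : Set (Fin n → ℕ)) : Prop :=
  ∃ (Γ Λ : Type) (_ : Inhabited Γ) (_ : Inhabited Λ) (_ : Finite Γ) (_ : Finite Λ)
    (M : Bool → TM0.Machine Γ Λ) (enc : Option Bool → Γ) (acc : Set Λ) (p : Polynomial ℕ),
    Function.Injective enc ∧ (∀ s, enc s ≠ default) ∧ ∀ a : Fin n → ℕ,
      (∀ t c, Reaches M t (TM0.init ((word a).map enc)) c → t ≤ p.eval (word a).length) ∧
      (a ∈ R ↔ ∃ t c, Reaches M t (TM0.init ((word a).map enc)) c ∧ Halted M c ∧ c.q ∈ acc)

section sw

variable {A Q S : Type} {m : ℕ}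

/-- a letter-to-letter transducer -/
def mealy (step : S → A → A × S) : S → List A → List A × S
  | s, [] => ([], s)
  | s, a :: l => ((step s a).1 :: (mealy step (step s a).2 l).1, (mealy step (step s a).2 l).2)

/-- Sweeping machines: cells `A`, control states `Q`, states of the passes `S`. -/
structure Sw (A Q S : Type) (m : ℕ) where
  /-- the content of the cells which are appended in a pass -/
  z : A
  /-- the number of cells which are appended in a pass -/
  F : ℕ
  /-- the first state of a pass, depending on the control state and on the choice -/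
  start : Q → Fin (m + 1) → S
  step : S → A → A × S
  /-- the next control state -/
  fin : S → Q
  halt : Q → Bool

/-- one pass -/
def Sw.sweep (M : Sw A Q S m) (c : Q × List A) (x : Fin (m + 1)) : Q × List A :=
  (M.fin (mealy M.step (M.start c.1 x) (c.2 ++ List.replicate M.F M.z)).2,
    (mealy M.step (M.start c.1 x) (c.2 ++ List.replicate M.F M.z)).1)

/-- `c'` can be reached from `c` in exactly `k` passes -/
def Sw.Ch (M : Sw A Q S m) : ℕ → Q × List A → Q × List A → Prop
  | 0, c, c' => c = c'
  | k + 1, c, c' => M.halt c.1 = false ∧ ∃ x, M.Ch k (M.sweep c x) c'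

end sw

section prog

variable {ι Q X : Type}

/-- The action of one step: the registers `v` are replaced by `b + A v`; if `rd` is true then the next
input symbol is read; `chk` are the pairs of registers which are compared after the action. -/
structure Act (ι : Type) where
  A : ι → ι → ℕ
  b : ι → ℕ
  rd : Bool
  chk : ι → ι → Prop

/-- the affine map -/
def Act.app [Fintype ι] (α : Act ι) (v : ι → ℕ) : ι → ℕ := fun i => α.b i + ∑ j, α.A i j * v j

/-- Programs: the action and the next control state depend on the control state and on the choice,
the latter also on the symbol read (`none` if there is none) and on the result of the comparisons. -/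
structure Prog (ι Q X : Type) where
  act : Q → X → Act ι
  nxt : Q → X → Option (Option Bool) → Bool → Q
  halt : Q → Bool

open Classical in
/-- one step; the states are triples (control, unread input, registers) -/
noncomputable def Prog.step [Fintype ι] (P : Prog ι Q X) (c : Q × List (Option Bool) × (ι → ℕ))
    (x : X) : Q × List (Option Bool) × (ι → ℕ) :=
  (P.nxt c.1 x (if (P.act c.1 x).rd then c.2.1.head? else none)
      (decide (∀ i j, (P.act c.1 x).chk i j →
        (P.act c.1 x).app c.2.2 i = (P.act c.1 x).app c.2.2 j)),
    if (P.act c.1 x).rd then c.2.1.tail else c.2.1, (P.act c.1 x).app c.2.2)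

/-- `c'` can be reached from `c` in exactly `k` steps -/
def Prog.Ch [Fintype ι] (P : Prog ι Q X) : ℕ → Q × List (Option Bool) × (ι → ℕ) →
    Q × List (Option Bool) × (ι → ℕ) → Prop
  | 0, c, c' => c = c'
  | k + 1, c, c' => P.halt c.1 = false ∧ ∃ x, P.Ch k (P.step c x) c'

end prog

/-- constraints: `v i * v j = v k`, `v i = 2 ^ v j`, `v i + v j = v k` -/
inductive Con (ρ : Type) : Type
  | mul (i j k : ρ)
  | pw (i j : ρ)
  | sum (i j k : ρ)

/-- the constraint holds -/
def Con.Holds {ρ : Type} (v : ρ → ℕ) : Con ρ → Prop
  | .mul i j k => v i * v j = v k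
  | .pw i j => v i = 2 ^ v j
  | .sum i j k => v i + v j = v k

/-- Predicates given by systems of constraints, with witnesses whose length is polynomial in the
length of the sum of the arguments. -/
def CS {σ : Type} [Fintype σ] (P : (σ → ℕ) → Prop) : Prop :=
  ∃ (τ : Type) (_ : Fintype τ) (m : ℕ) (K : Fin m → Con (σ ⊕ τ)) (B : Polynomial ℕ),
    (∀ v y, (∀ l, (K l).Holds (Sum.elim v y)) → P v) ∧
    (∀ v, P v → ∃ y, (∀ l, (K l).Holds (Sum.elim v y)) ∧
      ∀ j, y j ≤ 2 ^ B.eval (len (∑ i, v i)))

end Pool.Agent.NP15
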