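import Pool.Agent.NP15.CSb

/-!
# [NP15-FIND] exponentially bounded Diophantine representations give constraint systems

PLAN. Witnesses: `x : Fin m → ℕ` and ten more: `T, N, M, E, u, f, f', w, d` with
`s = ∑ a i` (not a witness, a polynomial), `T = 2 ^ N`, `E = 2 ^ M`, `s + 1 + u = T`, `f + f' = 1`, `f * s = 0`,
`T + w = 2 * s + 2 * f`, `M = N ^ k`, `∑ x j + d = E`, `F (a, x) = G (a, x)` where `p = F - G` (`exists_natP`).
The conditions `s < T = 2 ^ N`, and `T ≤ 2 * s` or (`s = 0`, `T ≤ 2`) say exactly `N = len s`: `s ≥ 1`: `2 ^ (N - 1) ≤ s < 2 ^ N`,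
`Nat.log`; `s = 0`: `1 ≤ T ≤ 2` and `T ≥ 1 + s`... note `T = 1` (`N = 0`) must be excluded: `T + w = 2 * f` with `s = 0` allows `T = 1`
only if `w + 1 = 2 f`; so add the equation `T = 2 * t` with a witness `t` (then `T` is even, `T = 2`, `N = 1 = len 0`).
All witnesses are at most `2 ^ poly (len s)`: `T ≤ 2 ^ len s`, `N = len s`, `M = (len s) ^ k`, `E = 2 ^ (len s) ^ k`, the others are
smaller than these. Polynomials: `X ^ k + 2 * X + 2` or so.
Use `CS.exs` once (witness type `Fin m ⊕ Fin 10`), `CS.and`, `CS.con (.pw _ _)`, `CS.eq`.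
-/

namespace Pool.Agent.NP15

open DPoly

theorem NatP.sum {σ ι : Type} (s : Finset ι) (F : ι → (σ → ℕ) → ℕ) (h : ∀ i ∈ s, NatP (F i)) :
    NatP (fun v => ∑ i ∈ s, F i v) := by
  classical
  induction s using Finset.induction_on with
  | empty => simpa using NatP.const 0
  | insert i s hi ih =>
    have h1 := (h i (Finset.mem_insert_self _ _)).add
      (ih fun j hj => h j (Finset.mem_insert_of_mem hj))
    have h2 : (fun v => ∑ j ∈ insert i s, F j v) = fun v => F i v + ∑ j ∈ s, F j v := by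
      funext v
      rw [Finset.sum_insert hi]
    rw [h2]
    exact h1

theorem NatP.pow {σ : Type} {F : (σ → ℕ) → ℕ} (h : NatP F) (k : ℕ) : NatP (fun v => F v ^ k) := by
  induction k with
  | zero => simpa using NatP.const 1
  | succ k ih => simpa [pow_succ] using ih.mul h

theorem len_unique {s T N f f' w t u : ℕ} (hT : T = 2 ^ N) (hu : s + 1 + u = T) (hf : f + f' = 1)
    (hfs : f * s = 0) (hw : T + w = 2 * s + 2 * f) (ht : T = 2 * t) : N = len s := by
  rcases Nat.mul_eq_zero.1 hfs with h0 | h0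
  · subst h0
    have hs : 1 ≤ s := by omega
    have hN : 1 ≤ N := by
      by_contra h
      have : N = 0 := by omega
      subst this
      omega
    apply le_antisymm
    · by_contra h
      have h1 : len s ≤ N - 1 := by omega
      have h2 : s < 2 ^ (N - 1) :=
        lt_of_lt_of_le (lt_two_pow_len s) (Nat.pow_le_pow_right (by norm_num) h1)
      have h3 : 2 ^ N = 2 * 2 ^ (N - 1) := by
        rw [← pow_succ']
        congr 1
        omega
      omega
    · exact len_le_of_lt (by omega) hN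
  · subst h0
    have h1 : T = 2 := by omega
    have h2 : N = 1 := by
      have h3 : 2 ^ N = 2 ^ 1 := by omega
      exact Nat.pow_right_injective (le_refl 2) h3
    rw [h2]
    simp [len]

theorem CS_of_D {n : ℕ} (R : Set (Fin n → ℕ)) (m k : ℕ) (p : MvPolynomial (Fin n ⊕ Fin m) ℤ)
    (h : ∀ a : Fin n → ℕ, a ∈ R ↔
      ∃ x : Fin m → ℕ, MvPolynomial.eval (fun i => ((Sum.elim a x i : ℕ) : ℤ)) p = 0 ∧
        ∑ j, x j ≤ 2 ^ len (∑ i, a i) ^ k) : CS (fun a => a ∈ R) := by
  obtain ⟨F, G, hF, hG, hFG⟩ := exists_natP p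
  let σ : Type := Fin n ⊕ (Fin m ⊕ Fin 10)
  let emb : Fin n ⊕ Fin m → σ := Sum.map id Sum.inl
  let z : Fin 10 → σ := fun i => .inr (.inr i)
  have hs : NatP (fun v : σ → ℕ => ∑ i, v (.inl i)) := NatP.sum _ _ fun i _ => NatP.var _
  have hx : NatP (fun v : σ → ℕ => ∑ j, v (.inr (.inl j))) := NatP.sum _ _ fun i _ => NatP.var _
  have c1 : CS (fun v : σ → ℕ => v (z 0) = 2 ^ v (z 1)) := CS.con (.pw (z 0) (z 1))
  have c2 : CS (fun v : σ → ℕ => v (z 3) = 2 ^ v (z 2)) := CS.con (.pw (z 3) (z 2))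
  have c3 : CS (fun v : σ → ℕ => v (z 2) = v (z 1) ^ k) := CS.eq (NatP.var _) ((NatP.var _).pow k)
  have c4 : CS (fun v : σ → ℕ => ∑ i, v (.inl i) + 1 + v (z 4) = v (z 0)) :=
    CS.eq ((hs.add (NatP.const 1)).add (NatP.var _)) (NatP.var _)
  have c5 : CS (fun v : σ → ℕ => v (z 5) + v (z 6) = 1) :=
    CS.eq ((NatP.var _).add (NatP.var _)) (NatP.const 1)
  have c6 : CS (fun v : σ → ℕ => v (z 5) * ∑ i, v (.inl i) = 0) :=
    CS.eq ((NatP.var _).mul hs) (NatP.const 0)
  have c7 : CS (fun v : σ → ℕ => v (z 0) + v (z 7) = 2 * ∑ i, v (.inl i) + 2 * v (z 5)) :=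
    CS.eq ((NatP.var _).add (NatP.var _))
      (((NatP.const 2).mul hs).add ((NatP.const 2).mul (NatP.var _)))
  have c8 : CS (fun v : σ → ℕ => v (z 0) = 2 * v (z 9)) :=
    CS.eq (NatP.var _) ((NatP.const 2).mul (NatP.var _))
  have c9 : CS (fun v : σ → ℕ => ∑ j, v (.inr (.inl j)) + v (z 8) = v (z 3)) :=
    CS.eq (hx.add (NatP.var _)) (NatP.var _)
  have c10 : CS (fun v : σ → ℕ => F (fun i => v (emb i)) = G (fun i => v (emb i))) :=
    CS.map (CS.eq hF hG) emb
  have c := c1.and (c2.and (c3.and (c4.and (c5.and (c6.and (c7.and (c8.and (c9.and c10))))))))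
  have hemb : ∀ (a : Fin n → ℕ) (w : Fin m ⊕ Fin 10 → ℕ),
      (fun i => Sum.elim a w (emb i)) = Sum.elim a (fun j => w (.inl j)) := by
    intro a w
    funext i
    rcases i with i | j <;> rfl
  refine CS.exs (P' := _) c (Polynomial.X ^ k + 2 * Polynomial.X + 2) ?_ ?_
  · intro a ha
    obtain ⟨x, hx1, hx2⟩ := (h a).1 ha
    set s := ∑ i, a i with hsd
    set L := len s with hL
    have hL1 : 1 ≤ L := len_pos s
    have hsL : s < 2 ^ L := lt_two_pow_len s
    have hLL : L < 2 ^ L := Nat.lt_two_pow_self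
    have hMM : L ^ k < 2 ^ (L ^ k) := Nat.lt_two_pow_self
    have hpL : 2 ^ L = 2 * 2 ^ (L - 1) := by
      rw [← pow_succ', Nat.sub_add_cancel hL1]
    have hp1 : 1 ≤ 2 ^ (L - 1) := Nat.one_le_two_pow
    have hlow : s ≠ 0 → 2 ^ (L - 1) ≤ s := by
      intro hs0
      have : L - 1 = Nat.log 2 s := by
        rw [hL]
        simp [len]
      rw [this]
      exact Nat.pow_log_le_self 2 hs0
    let f : ℕ := if s = 0 then 1 else 0
    have hf1 : f ≤ 1 := by
      simp only [f]
      split_ifs <;> omega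
    have hfs : f * s = 0 := by
      simp only [f]
      split_ifs with h0
      · simp [h0]
      · simp
    have hTs : 2 ^ L ≤ 2 * s + 2 * f := by
      simp only [f]
      split_ifs with h0
      · have : L = 1 := by
          rw [hL, h0]
          simp [len]
        rw [this, h0]
        norm_num
      · have := hlow h0
        omega
    let W : Fin 10 → ℕ := ![2 ^ L, L, L ^ k, 2 ^ (L ^ k), 2 ^ L - (s + 1), f, 1 - f,
      2 * s + 2 * f - 2 ^ L, 2 ^ (L ^ k) - ∑ j, x j, 2 ^ (L - 1)]
    refine ⟨Sum.elim x W, ?_, ?_⟩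
    · refine ⟨?_, ?_, ?_, ?_, ?_, ?_, ?_, ?_, ?_, ?_⟩
      · show 2 ^ L = 2 ^ L
        rfl
      · show 2 ^ (L ^ k) = 2 ^ (L ^ k)
        rfl
      · show L ^ k = L ^ k
        rfl
      · show s + 1 + (2 ^ L - (s + 1)) = 2 ^ L
        omega
      · show f + (1 - f) = 1
        omega
      · exact hfs
      · show 2 ^ L + (2 * s + 2 * f - 2 ^ L) = 2 * s + 2 * f
        omega
      · show 2 ^ L = 2 * 2 ^ (L - 1)
        exact hpL
      · show ∑ j, x j + (2 ^ (L ^ k) - ∑ j, x j) = 2 ^ (L ^ k)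
        omega
      · have e1 := hemb a (Sum.elim x W)
        have e2 := hFG (Sum.elim a x)
        rw [hx1] at e2
        show F (fun i => Sum.elim a (Sum.elim x W) (emb i)) =
          G (fun i => Sum.elim a (Sum.elim x W) (emb i))
        rw [e1]
        show F (Sum.elim a x) = G (Sum.elim a x)
        omega
    · have hE : (Polynomial.X ^ k + 2 * Polynomial.X + 2 : Polynomial ℕ).eval L =
          L ^ k + 2 * L + 2 := by
        simp
      have hb1 : 2 ^ (L ^ k) ≤ 2 ^ (Polynomial.X ^ k + 2 * Polynomial.X + 2 : Polynomial ℕ).eval L := by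
        rw [hE]
        exact Nat.pow_le_pow_right (by norm_num) (by omega)
      have hb2 : 2 ^ (L + 2) ≤
          2 ^ (Polynomial.X ^ k + 2 * Polynomial.X + 2 : Polynomial ℕ).eval L := by
        rw [hE]
        exact Nat.pow_le_pow_right (by norm_num) (by omega)
      have hb3 : 2 ^ (L + 2) = 4 * 2 ^ L := by
        rw [pow_add]
        ring
      generalize 2 ^ (Polynomial.X ^ k + 2 * Polynomial.X + 2 : Polynomial ℕ).eval L = B at hb1 hb2
      rintro (j | j)
      · show x j ≤ B
        exact ((Finset.single_le_sum (fun _ _ => Nat.zero_le _) (Finset.mem_univ j)).trans hx2).trans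
          hb1
      · show W j ≤ B
        fin_cases j
        · show 2 ^ L ≤ B
          omega
        · show L ≤ B
          omega
        · show L ^ k ≤ B
          omega
        · show 2 ^ (L ^ k) ≤ B
          omega
        · show 2 ^ L - (s + 1) ≤ B
          omega
        · show f ≤ B
          omega
        · show 1 - f ≤ B
          omega
        · show 2 * s + 2 * f - 2 ^ L ≤ B
          omega
        · show 2 ^ (L ^ k) - ∑ j, x j ≤ B
          omega
        · show 2 ^ (L - 1) ≤ B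
          omega
  · intro a w hw
    obtain ⟨h1, h2, h3, h4, h5, h6, h7, h8, h9, h10⟩ := hw
    have e1 := hemb a w
    rw [e1] at h10
    have hN := len_unique h1 h4 h5 h6 h7 h8
    refine (h a).2 ⟨fun j => w (.inl j), ?_, ?_⟩
    · rw [hFG, h10, sub_self]
    · have hN' : w (.inr 1) = len (∑ i, a i) := hN
      have h9' : ∑ j, w (.inl j) + w (.inr 8) = w (.inr 3) := h9
      have h2' : w (.inr 3) = 2 ^ w (.inr 2) := h2
      have h3' : w (.inr 2) = w (.inr 1) ^ k := h3
      rw [← hN', ← h3', ← h2', ← h9']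
      exact Nat.le_add_right _ _

end Pool.Agent.NP15
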