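import Pool.Agent.NP15.Def

/-!
# [NP15-PRGA] programs as sweeping machines

The registers are written in binary, least digit first, in parallel tracks.

PLAN. `Prog.sw P N F e` (definition below): the transducer adds `A v` digit by digit with carries `≤ N`. Lemmas on `mealy`
(induction on the row, all start states): (1) the states keep `(q, x)`; (2) for carries `c` (as naturals `≤ N`, with
`∑ j, A i j ≤ N`): `(c i + ∑ j, A i j * digit j) / 2 ≤ N`, so `Fin.ofNat` is harmless, and
`ofDigits 2 (output of track i) + 2 ^ length * (final carry i) = c i + ∑ j, A i j * ofDigits 2 (input track j)`; (3) the flag: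
`ok' = ok && (the output tracks i and j are equal for all pairs of chk)`; equality of tracks of equal length is equality of the
numbers (`Nat.ofDigits_inj_of_len_eq` or by induction); (4) the found symbol and the remaining input: if `rd` and nothing was found
before, then found = head of the remaining input (`filterMap`) and the output row has the tail. The final carry is `0`: by (2) with
`F` appended zero cells, `2 ^ (L + F) * carry ≤ b i + ∑ j, A i j * (2 ^ L - 1) < 2 ^ (L + F)` if `b i + ∑ j, A i j ≤ 2 ^ F`
(and if this sum is `0` then the left side is `0` as well: use `< `, i.e. `b i + (∑ A) * (2 ^ L - 1) < 2 ^ L * 2 ^ F` from `1 ≤ 2 ^ F`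
and `b + s ≤ 2 ^ F`).
-/

namespace Pool.Agent.NP15

open Finset

variable {ι Q X : Type} [Fintype ι]

/-- cells: an unread input symbol, one digit of each register -/
abbrev Cell (ι : Type) : Type := Option (Option Bool) × (ι → Bool)

/-- states of the passes: control state, choice, carries, symbol found, result of the comparisons -/
abbrev PS (ι Q X : Type) (N : ℕ) : Type :=
  Q × X × (ι → Fin (N + 1)) × Option (Option Bool) × Bool

/-- the sum of the digits with the carry -/
def tot (α : Act ι) (c : ι → ℕ) (d : ι → Bool) (i : ι) : ℕ := c i + ∑ j, α.A i j * (d j).toNat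

open Classical in
/-- the sweeping machine -/
noncomputable def Prog.sw {m : ℕ} (P : Prog ι Q X) (N F : ℕ) (e : Fin (m + 1) → X) :
    Sw (Cell ι) Q (PS ι Q X N) m where
  z := (none, fun _ => false)
  F := F
  start q x := (q, e x, fun i => Fin.ofNat (N + 1) ((P.act q (e x)).b i), none, true)
  step s a :=
    ((if (P.act s.1 s.2.1).rd = true ∧ s.2.2.2.1 = none then none else a.1,
      fun i => decide (tot (P.act s.1 s.2.1) (fun i => s.2.2.1 i) a.2 i % 2 = 1)),
     (s.1, s.2.1,
      fun i => Fin.ofNat (N + 1) (tot (P.act s.1 s.2.1) (fun i => s.2.2.1 i) a.2 i / 2),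
      if (P.act s.1 s.2.1).rd = true ∧ s.2.2.2.1 = none then a.1 else s.2.2.2.1,
      s.2.2.2.2 && decide (∀ i j, (P.act s.1 s.2.1).chk i j →
        tot (P.act s.1 s.2.1) (fun i => s.2.2.1 i) a.2 i % 2 =
        tot (P.act s.1 s.2.1) (fun i => s.2.2.1 i) a.2 j % 2)))
  fin s := P.nxt s.1 s.2.1 s.2.2.2.1 s.2.2.2.2
  halt := P.halt

/-- the abstract state of a configuration -/
def absC (c : Q × List (Cell ι)) : Q × List (Option Bool) × (ι → ℕ) :=
  (c.1, c.2.filterMap (·.1), fun i => Nat.ofDigits 2 (c.2.map fun a => (a.2 i).toNat))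

private theorem prgA_ofNat {N k : ℕ} (h : k ≤ N) : ((Fin.ofNat (N + 1) k : Fin (N + 1)) : ℕ) = k := by
  simp only [Fin.ofNat, Fin.val_mk]
  exact Nat.mod_eq_of_lt (Nat.lt_succ_of_le h)

private theorem prgA_toNat (k : ℕ) : (decide (k % 2 = 1)).toNat = k % 2 := by
  rcases Nat.mod_two_eq_zero_or_one k with h | h <;> simp [h]

private theorem prgA_tot_le {N : ℕ} (α : Act ι) (c : ι → ℕ) (d : ι → Bool) (i : ι) (hc : c i ≤ N)
    (hA : ∑ j, α.A i j ≤ N) : tot α c d i / 2 ≤ N := by
  have h1 : ∑ j, α.A i j * (d j).toNat ≤ ∑ j, α.A i j := by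
    refine Finset.sum_le_sum fun j _ => ?_
    calc α.A i j * (d j).toNat ≤ α.A i j * 1 := Nat.mul_le_mul_left _ (Bool.toNat_le _)
      _ = α.A i j := mul_one _
  have h2 : tot α c d i ≤ N + N := Nat.add_le_add hc (h1.trans hA)
  omega

open Classical in
private theorem prgA_mealy {m : ℕ} (P : Prog ι Q X) (N F : ℕ) (e : Fin (m + 1) → X) (q : Q) (x : X)
    (hA : ∀ i, ∑ j, (P.act q x).A i j ≤ N) (l : List (Cell ι)) :
    ∀ (c : ι → Fin (N + 1)) (f : Option (Option Bool)) (ok : Bool),
      (mealy (P.sw N F e).step (q, x, c, f, ok) l).2.1 = q ∧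
      (mealy (P.sw N F e).step (q, x, c, f, ok) l).2.2.1 = x ∧
      (mealy (P.sw N F e).step (q, x, c, f, ok) l).1.length = l.length ∧
      (∀ i, Nat.ofDigits 2
          ((mealy (P.sw N F e).step (q, x, c, f, ok) l).1.map fun a => (a.2 i).toNat) +
          2 ^ l.length * ((mealy (P.sw N F e).step (q, x, c, f, ok) l).2.2.2.1 i : ℕ) =
        (c i : ℕ) + ∑ j, (P.act q x).A i j * Nat.ofDigits 2 (l.map fun a => (a.2 j).toNat)) ∧
      (mealy (P.sw N F e).step (q, x, c, f, ok) l).1.filterMap (·.1) =
        (if (P.act q x).rd = true ∧ f = none then (l.filterMap (·.1)).tail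
          else l.filterMap (·.1)) ∧
      (mealy (P.sw N F e).step (q, x, c, f, ok) l).2.2.2.2.1 =
        (if (P.act q x).rd = true ∧ f = none then (l.filterMap (·.1)).head? else f) ∧
      (mealy (P.sw N F e).step (q, x, c, f, ok) l).2.2.2.2.2 =
        (ok && decide (∀ i j, (P.act q x).chk i j →
          ((mealy (P.sw N F e).step (q, x, c, f, ok) l).1.map fun a => (a.2 i).toNat) =
          ((mealy (P.sw N F e).step (q, x, c, f, ok) l).1.map fun a => (a.2 j).toNat))) := by
  induction l with
  | nil =>
    intro c f ok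
    refine ⟨rfl, rfl, rfl, fun i => ?_, ?_, ?_, ?_⟩
    · simp [mealy]
    · simp [mealy]
    · by_cases h : (P.act q x).rd = true ∧ f = none
      · simp [mealy, h]
      · simp [mealy, h]
    · simp [mealy]
  | cons a l ih =>
    intro c f ok
    set α := P.act q x with hα
    set T : ι → ℕ := fun i => tot α (fun i => c i) a.2 i with hT
    set c' : ι → Fin (N + 1) := fun i => Fin.ofNat (N + 1) (T i / 2) with hc'
    set f' : Option (Option Bool) := if α.rd = true ∧ f = none then a.1 else f with hf'
    set ok' : Bool := ok && decide (∀ i j, α.chk i j → T i % 2 = T j % 2) with hok'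
    have hstep : mealy (P.sw N F e).step (q, x, c, f, ok) (a :: l) =
        (((if α.rd = true ∧ f = none then none else a.1, fun i => decide (T i % 2 = 1)) : Cell ι) ::
          (mealy (P.sw N F e).step (q, x, c', f', ok') l).1,
          (mealy (P.sw N F e).step (q, x, c', f', ok') l).2) := rfl
    obtain ⟨h1, h2, h3, h4, h5, h6, h7⟩ := ih c' f' ok'
    rw [hstep]
    have hcv : ∀ i, (c' i : ℕ) = T i / 2 := fun i =>
      prgA_ofNat (prgA_tot_le α _ _ i (Nat.lt_succ_iff.1 (c i).2) (hA i))
    refine ⟨h1, h2, ?_, fun i => ?_, ?_, ?_, ?_⟩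
    · simp only [List.length_cons]; rw [h3]
    · have h4i := h4 i
      rw [hcv i] at h4i
      simp only [List.map_cons, Nat.ofDigits_cons, List.length_cons]
      rw [prgA_toNat]
      have hTi : T i = (c i : ℕ) + ∑ j, α.A i j * (a.2 j).toNat := rfl
      have hsum : ∑ j, α.A i j * ((a.2 j).toNat + 2 * Nat.ofDigits 2 (l.map fun a => (a.2 j).toNat)) =
          ∑ j, α.A i j * (a.2 j).toNat +
            2 * ∑ j, α.A i j * Nat.ofDigits 2 (l.map fun a => (a.2 j).toNat) := by
        rw [Finset.mul_sum, ← Finset.sum_add_distrib]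
        refine Finset.sum_congr rfl fun j _ => ?_
        ring
      rw [hsum, pow_succ]
      have hmod := Nat.mod_add_div (T i) 2
      generalize Nat.ofDigits 2
        ((mealy (P.sw N F e).step (q, x, c', f', ok') l).1.map fun a => (a.2 i).toNat) = D at *
      generalize ((mealy (P.sw N F e).step (q, x, c', f', ok') l).2.2.2.1 i : ℕ) = K at *
      generalize ∑ j, α.A i j * Nat.ofDigits 2 (l.map fun a => (a.2 j).toNat) = S at *
      generalize ∑ j, α.A i j * (a.2 j).toNat = S' at *
      have e1 : T i % 2 + 2 * D + 2 ^ l.length * 2 * K = T i % 2 + 2 * (D + 2 ^ l.length * K) := by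
        ring
      rw [e1, h4i]
      omega
    · by_cases h : α.rd = true ∧ f = none
      · have hf'' : f' = a.1 := by rw [hf', if_pos h]
        rw [if_pos h, if_pos h, List.filterMap_cons_none rfl, h5]
        cases ha : a.1 with
        | none =>
          rw [if_pos ⟨h.1, by rw [hf'', ha]⟩, List.filterMap_cons_none ha]
        | some b =>
          rw [if_neg (by rw [hf'', ha]; simp), List.filterMap_cons_some ha]
          rfl
      · have hf'' : f' = f := by rw [hf', if_neg h]
        rw [if_neg h, if_neg h]
        rw [if_neg (by rw [hf'']; exact h)] at h5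
        cases ha : a.1 with
        | none =>
          rw [List.filterMap_cons_none rfl, List.filterMap_cons_none ha, h5]
        | some b =>
          rw [List.filterMap_cons_some ha, ← h5]
          rfl
    · rw [h6]
      by_cases h : α.rd = true ∧ f = none
      · have hf'' : f' = a.1 := by rw [hf', if_pos h]
        rw [if_pos h]
        cases ha : a.1 with
        | none =>
          rw [if_pos ⟨h.1, by rw [hf'', ha]⟩, List.filterMap_cons_none ha]
        | some b =>
          rw [if_neg (by rw [hf'', ha]; simp), List.filterMap_cons_some ha, hf'', ha]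
          rfl
      · have hf'' : f' = f := by rw [hf', if_neg h]
        rw [hf'', if_neg h, if_neg h]
    · rw [h7, hok', Bool.and_assoc, ← Bool.decide_and]
      congr 1
      rw [decide_eq_decide]
      constructor
      · rintro ⟨g1, g2⟩ i j hij
        simp only [List.map_cons]
        rw [g2 i j hij, prgA_toNat, prgA_toNat, g1 i j hij]
      · intro g
        refine ⟨fun i j hij => ?_, fun i j hij => ?_⟩
        · have := g i j hij
          simp only [List.map_cons, List.cons.injEq] at this
          have h8 := this.1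
          rwa [prgA_toNat, prgA_toNat] at h8
        · have := g i j hij
          simp only [List.map_cons, List.cons.injEq] at this
          exact this.2

private theorem prgA_ofDigits_lt (l : List ℕ) (h : ∀ d ∈ l, d < 2) :
    Nat.ofDigits 2 l < 2 ^ l.length := by
  induction l with
  | nil => simp
  | cons a l ih =>
    have h1 := ih fun d hd => h d (List.mem_cons_of_mem _ hd)
    have h2 := h a List.mem_cons_self
    rw [Nat.ofDigits_cons, List.length_cons, pow_succ]
    omega

private theorem prgA_ofDigits_inj : ∀ (l l' : List ℕ), l.length = l'.length → (∀ d ∈ l, d < 2) →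
    (∀ d ∈ l', d < 2) → Nat.ofDigits 2 l = Nat.ofDigits 2 l' → l = l'
  | [], [], _, _, _, _ => rfl
  | a :: l, b :: l', hlen, h1, h2, h => by
    rw [Nat.ofDigits_cons, Nat.ofDigits_cons] at h
    have ha := h1 a List.mem_cons_self
    have hb := h2 b List.mem_cons_self
    have hab : a = b := by omega
    have hd : Nat.ofDigits 2 l = Nat.ofDigits 2 l' := by omega
    rw [hab, prgA_ofDigits_inj l l' (by simpa using hlen)
      (fun d hd => h1 d (List.mem_cons_of_mem _ hd)) (fun d hd => h2 d (List.mem_cons_of_mem _ hd)) hd]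

private theorem prgA_zeros (k : ℕ) (l : List ℕ) :
    Nat.ofDigits 2 (l ++ List.replicate k 0) = Nat.ofDigits 2 l := by
  induction l with
  | nil =>
    induction k with
    | zero => rfl
    | succ k ih =>
      rw [List.replicate_succ, List.nil_append, Nat.ofDigits_cons]
      rw [List.nil_append] at ih
      rw [ih]
      simp
  | cons a l ih => rw [List.cons_append, Nat.ofDigits_cons, Nat.ofDigits_cons, ih]

omit [Fintype ι] in
private theorem prgA_fm (k : ℕ) :
    (List.replicate k ((none, fun _ => false) : Cell ι)).filterMap (·.1) = [] := by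
  induction k with
  | zero => rfl
  | succ k ih => rw [List.replicate_succ, List.filterMap_cons_none rfl]; exact ih

theorem abs_sweep {m : ℕ} (P : Prog ι Q X) (N F : ℕ) (e : Fin (m + 1) → X)
    (hN : ∀ q x i, (P.act q x).b i + ∑ j, (P.act q x).A i j ≤ N)
    (hF : ∀ q x i, (P.act q x).b i + ∑ j, (P.act q x).A i j < 2 ^ F)
    (c : Q × List (Cell ι)) (x : Fin (m + 1)) :
    absC ((P.sw N F e).sweep c x) = P.step (absC c) (e x) := by
  classical
  obtain ⟨q, l⟩ := c
  set α := P.act q (e x) with hα
  have hA : ∀ i, ∑ j, α.A i j ≤ N := fun i => (Nat.le_add_left _ _).trans (hN q (e x) i)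
  have hb : ∀ i, α.b i ≤ N := fun i => (Nat.le_add_right _ _).trans (hN q (e x) i)
  set l' : List (Cell ι) := l ++ List.replicate F (none, fun _ => false) with hl'
  set c0 : ι → Fin (N + 1) := fun i => Fin.ofNat (N + 1) (α.b i) with hc0
  have hc0v : ∀ i, (c0 i : ℕ) = α.b i := fun i => prgA_ofNat (hb i)
  obtain ⟨h1, h2, h3, h4, h5, h6, h7⟩ := prgA_mealy P N F e q (e x) hA l' c0 none true
  set r := mealy (P.sw N F e).step (q, e x, c0, none, true) l' with hr
  have hsw : (P.sw N F e).sweep (q, l) x = (P.nxt r.2.1 r.2.2.1 r.2.2.2.2.1 r.2.2.2.2.2, r.1) := rfl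
  have hfm : l'.filterMap (·.1) = l.filterMap (·.1) := by
    rw [hl', List.filterMap_append]
    rw [prgA_fm, List.append_nil]
  have hdig : ∀ j, Nat.ofDigits 2 (l'.map fun a => (a.2 j).toNat) =
      Nat.ofDigits 2 (l.map fun a => (a.2 j).toNat) := by
    intro j
    rw [hl', List.map_append, List.map_replicate]
    exact prgA_zeros F _
  have hlen : l'.length = l.length + F := by rw [hl', List.length_append, List.length_replicate]
  have hd2 : ∀ (L : List (Cell ι)) (j : ι), ∀ d ∈ L.map (fun a => (a.2 j).toNat), d < 2 := by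
    intro L j d hd
    obtain ⟨a, -, rfl⟩ := List.mem_map.1 hd
    exact Bool.toNat_lt _
  -- the final value of the registers
  have hval : ∀ i, Nat.ofDigits 2 (r.1.map fun a => (a.2 i).toNat) =
      α.b i + ∑ j, α.A i j * Nat.ofDigits 2 (l.map fun a => (a.2 j).toNat) := by
    intro i
    have h4i := h4 i
    rw [hc0v i] at h4i
    simp only [hdig] at h4i
    have hcar : (r.2.2.2.1 i : ℕ) = 0 := by
      by_contra hne
      have hpos : 1 ≤ (r.2.2.2.1 i : ℕ) := Nat.one_le_iff_ne_zero.2 hne
      have hle : 2 ^ l'.length ≤ α.b i + ∑ j, α.A i j * Nat.ofDigits 2 (l.map fun a => (a.2 j).toNat) := by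
        rw [← h4i]
        calc 2 ^ l'.length = 2 ^ l'.length * 1 := (mul_one _).symm
          _ ≤ 2 ^ l'.length * (r.2.2.2.1 i : ℕ) := Nat.mul_le_mul_left _ hpos
          _ ≤ _ := Nat.le_add_left _ _
      have hX : 1 ≤ 2 ^ l.length := Nat.one_le_two_pow
      have hS : ∑ j, α.A i j * Nat.ofDigits 2 (l.map fun a => (a.2 j).toNat) ≤
          (∑ j, α.A i j) * 2 ^ l.length := by
        rw [Finset.sum_mul]
        refine Finset.sum_le_sum fun j _ => Nat.mul_le_mul_left _ ?_
        have := prgA_ofDigits_lt _ (hd2 l j)
        rw [List.length_map] at this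
        exact this.le
      have hFi := hF q (e x) i
      have hbX : α.b i ≤ α.b i * 2 ^ l.length := Nat.le_mul_of_pos_right _ (by omega)
      have hlt : (α.b i + ∑ j, α.A i j) * 2 ^ l.length < 2 ^ F * 2 ^ l.length :=
        Nat.mul_lt_mul_of_pos_right hFi (by omega)
      rw [hlen, pow_add, mul_comm] at hle
      rw [add_mul] at hlt
      omega
    rw [hcar, mul_zero, add_zero] at h4i
    exact h4i
  rw [hsw]
  refine Prod.ext ?_ (Prod.ext ?_ ?_)
  · change P.nxt r.2.1 r.2.2.1 r.2.2.2.2.1 r.2.2.2.2.2 = _
    rw [h1, h2, h6, h7, hfm]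
    change _ = P.nxt q (e x) (if α.rd then (l.filterMap (·.1)).head? else none) _
    have e1 : (if α.rd = true ∧ (none : Option (Option Bool)) = none then
        (l.filterMap (·.1)).head? else none) = (if α.rd then (l.filterMap (·.1)).head? else none) := by
      simp
    rw [e1, Bool.true_and]
    congr 1
    rw [decide_eq_decide]
    have hiff : ∀ i j, ((r.1.map fun a => (a.2 i).toNat) = (r.1.map fun a => (a.2 j).toNat)) ↔
        α.app (absC (q, l)).2.2 i = α.app (absC (q, l)).2.2 j := by
      intro i j
      have e2 : ∀ i, α.app (absC (q, l)).2.2 i = Nat.ofDigits 2 (r.1.map fun a => (a.2 i).toNat) :=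
        fun i => (hval i).symm
      rw [e2, e2]
      constructor
      · intro h; rw [h]
      · intro h
        exact prgA_ofDigits_inj _ _ (by simp) (hd2 _ _) (hd2 _ _) h
    exact forall_congr' fun i => forall_congr' fun j => imp_congr_right fun _ => hiff i j
  · change r.1.filterMap (·.1) = (if α.rd then (l.filterMap (·.1)).tail else l.filterMap (·.1))
    rw [h5, hfm]
    simp only [and_true]
    rfl
  · funext i
    exact hval i

end Pool.Agent.NP15
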