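import Pool.Agent.NP15.Def

/-!
# [NP15-TMA] a Turing machine which makes one pass of a sweeping machine

`Sw.tm`: tape alphabet `Option A` (`none` is the blank). States: `ch q i` (at the left end, control state
`q`, the choices `< i` have been rejected), `ps s f` (in a pass, state `s`, `f` cells are still to be
appended), `mv s f` (move right), `bk q` (go back to the left end).
`Det M T c c'`: all computations from `c` pass through `c'` after `T` steps, and none halts before.

PLAN. `Det.step`: if `TM0.step (M b) c = some c'` for both `b` then `Det M 1 c c'`. `Det.trans`.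
(`reaches_succ`: `Reaches M (t + 1) c d ↔ ∃ b c', TM0.step (M b) c = some c' ∧ Reaches M t c' d`, induction on `t`.)
Pass: for all `u : List (Option A)`, `r : List A`: `Det M.tm (2 * (r.length + f) + 1)` from
`⟨.ps s f, Tape.mk' (ListBlank.mk u) (ListBlank.mk (r.map some))⟩` to `⟨.bk (M.fin s'), (Tape.mk' (ListBlank.mk
(w'.reverse.map some ++ u)) (ListBlank.mk [])).move .left⟩`, `(w', s') = mealy M.step s (r ++ replicate f M.z)`, by induction
on `r` and then on `f` (two steps per cell: write, move right; use `Tape.write_mk'`, `Tape.move_right_mk'`, `Tape.move_left_mk'`,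
`ListBlank.cons_mk`, `ListBlank.head_mk`, `ListBlank.tail_mk`). Return: by induction on `l`, from
`⟨.bk q, Tape.mk' (ListBlank.mk (l.map some)) (ListBlank.mk (some a :: r))⟩` in `l.length + 2` steps to
`⟨.ch q 0, Tape.mk' (ListBlank.mk []) (ListBlank.mk (l.reverse.map some ++ some a :: r))⟩` (the blank to the left of the
row disappears: `ListBlank.mk [none] = ListBlank.mk []`). The empty row (`r = []`, `F = 0`) separately.
`Tape.mk₁ l = Tape.mk' (ListBlank.mk []) (ListBlank.mk l)` by definition.
-/

namespace Pool.Agent.NP15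

open Turing DPoly

section det

variable {Γ Λ : Type} [Inhabited Γ] [Inhabited Λ]

theorem reaches_succ (M : Bool → TM0.Machine Γ Λ) (t : ℕ) (c d : TM0.Cfg Γ Λ) :
    Reaches M (t + 1) c d ↔ ∃ b c', TM0.step (M b) c = some c' ∧ Reaches M t c' d := by
  induction t generalizing d with
  | zero =>
    constructor
    · rintro ⟨c'', rfl, b, h⟩
      exact ⟨b, d, h, rfl⟩
    · rintro ⟨b, c', h, rfl⟩
      exact ⟨c, rfl, b, h⟩
  | succ t ih =>
    constructor
    · rintro ⟨c'', h1, b, h2⟩
      obtain ⟨b', c', h3, h4⟩ := (ih c'').1 h1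
      exact ⟨b', c', h3, c'', h4, b, h2⟩
    · rintro ⟨b', c', h3, c'', h4, b, h2⟩
      exact ⟨c'', (ih c'').2 ⟨b', c', h3, h4⟩, b, h2⟩

theorem reaches_trans (M : Bool → TM0.Machine Γ Λ) {s t : ℕ} {c e d : TM0.Cfg Γ Λ}
    (h : Reaches M s c e) (h' : Reaches M t e d) : Reaches M (s + t) c d := by
  induction t generalizing d with
  | zero =>
    have h1 : e = d := h'
    rw [← h1]
    exact h
  | succ t ih =>
    obtain ⟨c'', h1, b, h2⟩ := h'
    exact ⟨c'', ih h1, b, h2⟩

/-- all computations from `c` pass through `c'` after `T` steps, and none halts before -/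
def Det (M : Bool → TM0.Machine Γ Λ) (T : ℕ) (c c' : TM0.Cfg Γ Λ) : Prop :=
  Reaches M T c c' ∧ ∀ t d, Reaches M t c d →
    (t < T ∧ ¬ Halted M d) ∨ ∃ u, t = T + u ∧ Reaches M u c' d

theorem Det.trans {M : Bool → TM0.Machine Γ Λ} {T U : ℕ} {c c' c'' : TM0.Cfg Γ Λ}
    (h : Det M T c c') (h' : Det M U c' c'') : Det M (T + U) c c'' := by
  refine ⟨reaches_trans M h.1 h'.1, fun t d hd => ?_⟩
  rcases h.2 t d hd with ⟨h1, h2⟩ | ⟨u, rfl, h2⟩
  · exact Or.inl ⟨by omega, h2⟩
  · rcases h'.2 u d h2 with ⟨h3, h4⟩ | ⟨u', rfl, h4⟩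
    · exact Or.inl ⟨by omega, h4⟩
    · exact Or.inr ⟨u', by omega, h4⟩

theorem Det.step {M : Bool → TM0.Machine Γ Λ} {c c' : TM0.Cfg Γ Λ}
    (h : ∀ b, TM0.step (M b) c = some c') : Det M 1 c c' := by
  refine ⟨⟨c, rfl, false, h false⟩, fun t d hd => ?_⟩
  rcases t with _ | t
  · refine Or.inl ⟨by omega, fun hh => ?_⟩
    have h1 : c = d := hd
    have h2 := hh false
    rw [← h1, h false] at h2
    exact absurd h2 (Option.some_ne_none _)
  · obtain ⟨b, c1, h1, h2⟩ := (reaches_succ M t c d).1 hd
    rw [h b] at h1
    obtain rfl := Option.some.inj h1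
    exact Or.inr ⟨t, by omega, h2⟩

end det

/-- states of the Turing machine -/
inductive TS (Q S : Type) (m F : ℕ) : Type
  | ch (q : Q) (i : Fin (m + 1))
  | ps (s : S) (f : Fin (F + 1))
  | mv (s : S) (f : Fin (F + 1))
  | bk (q : Q)

instance {Q S : Type} {m F : ℕ} [Inhabited Q] : Inhabited (TS Q S m F) := ⟨.ch default 0⟩

instance {Q S : Type} {m F : ℕ} [Finite Q] [Finite S] : Finite (TS Q S m F) := by
  let f : TS Q S m F → (Q × Fin (m + 1)) ⊕ ((S × Fin (F + 1)) ⊕ ((S × Fin (F + 1)) ⊕ Q)) := fun x =>
    match x with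
    | .ch q i => .inl (q, i)
    | .ps s f => .inr (.inl (s, f))
    | .mv s f => .inr (.inr (.inl (s, f)))
    | .bk q => .inr (.inr (.inr q))
  refine Finite.of_injective f ?_
  intro x y h
  cases x <;> cases y <;> simp_all [f]

variable {A Q S : Type} {m : ℕ} [Inhabited Q]

/-- the Turing machine -/
def Sw.tm (M : Sw A Q S m) (b : Bool) : TM0.Machine (Option A) (TS Q S m M.F)
  | .ch q i, a => if M.halt q = true then none else
      if b = true ∨ i = Fin.last m then some (.ps (M.start q i) (Fin.last M.F), .write a)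
      else some (.ch q (i + 1), .write a)
  | .ps s f, some a => some (.mv (M.step s a).2 f, .write (some (M.step s a).1))
  | .ps s f, none => if f = 0 then some (.bk (M.fin s), .move .left)
      else some (.mv (M.step s M.z).2 (f - 1), .write (some (M.step s M.z).1))
  | .mv s f, _ => some (.ps s f, .move .right)
  | .bk q, some _ => some (.bk q, .move .left)
  | .bk q, none => some (.ch q 0, .move .right)

theorem mealy_length {step : S → A → A × S} (l : List A) (s : S) :
    (mealy step s l).1.length = l.length := by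
  induction l generalizing s with
  | nil => rfl
  | cons a l ih => simp [mealy, ih]

/-- the tape after writing and moving to the right -/
theorem write_move {Γ : Type} [Inhabited Γ] (L R : ListBlank Γ) (y : Γ) :
    ((Tape.mk' L R).write y).move .right = Tape.mk' (L.cons y) R.tail := rfl

theorem move_left' {Γ : Type} [Inhabited Γ] (L R : ListBlank Γ) :
    (Tape.mk' L R).move .left = Tape.mk' L.tail (R.cons L.head) := by
  simp

/-- write and move -/
theorem two_steps (M : Sw A Q S m) {s s' : S} {f f' : Fin (M.F + 1)} {L R : ListBlank (Option A)}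
    {y : Option A} (h : ∀ b, M.tm b (.ps s f) R.head = some (.mv s' f', .write y)) :
    Det M.tm 2 ⟨.ps s f, Tape.mk' L R⟩ ⟨.ps s' f', Tape.mk' (L.cons y) R.tail⟩ := by
  have h1 : Det M.tm 1 ⟨.ps s f, Tape.mk' L R⟩ ⟨.mv s' f', (Tape.mk' L R).write y⟩ := by
    refine Det.step fun b => ?_
    have : (Tape.mk' L R).head = R.head := rfl
    simp only [TM0.step, this, h b, Option.map_some]
  have h2 : Det M.tm 1 ⟨.mv s' f', (Tape.mk' L R).write y⟩
      ⟨.ps s' f', Tape.mk' (L.cons y) R.tail⟩ := by
    refine Det.step fun b => ?_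
    rw [← write_move]
    rfl
  exact h1.trans h2

theorem ps_nil (M : Sw A Q S m) (f : ℕ) (hf : f < M.F + 1) (s : S) (u : List (Option A)) :
    Det M.tm (2 * f + 1) ⟨.ps s ⟨f, hf⟩, Tape.mk' (ListBlank.mk u) (ListBlank.mk [])⟩
      ⟨.bk (M.fin (mealy M.step s (List.replicate f M.z)).2),
        (Tape.mk' (ListBlank.mk ((mealy M.step s (List.replicate f M.z)).1.reverse.map some ++ u))
          (ListBlank.mk [])).move .left⟩ := by
  induction f generalizing s u with
  | zero =>
    refine Det.step fun b => ?_
    rfl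
  | succ f ih =>
    have hf' : f < M.F + 1 := by omega
    have hsub : (⟨f + 1, hf⟩ : Fin (M.F + 1)) - 1 = ⟨f, hf'⟩ := by
      have hF : 1 < M.F + 1 := by omega
      apply Fin.ext
      rw [Fin.sub_def]
      have h1 : ((1 : Fin (M.F + 1)) : ℕ) = 1 := by
        rw [Fin.val_one']
        exact Nat.mod_eq_of_lt hF
      simp only [h1]
      have h2 : M.F + 1 - 1 + (f + 1) = f + (M.F + 1) := by omega
      rw [h2, Nat.add_mod_right, Nat.mod_eq_of_lt hf']
    have hne : (⟨f + 1, hf⟩ : Fin (M.F + 1)) ≠ 0 := by
      intro h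
      have := congrArg Fin.val h
      simp at this
    have h1 := two_steps M (s := s) (s' := (M.step s M.z).2) (f := ⟨f + 1, hf⟩) (f' := ⟨f, hf'⟩)
      (L := ListBlank.mk u) (R := ListBlank.mk []) (y := some (M.step s M.z).1) (by
        intro b
        have h0 : M.tm b (.ps s ⟨f + 1, hf⟩) (ListBlank.mk ([] : List (Option A))).head =
          if (⟨f + 1, hf⟩ : Fin (M.F + 1)) = 0 then some (.bk (M.fin s), .move .left)
            else some (.mv (M.step s M.z).2 (⟨f + 1, hf⟩ - 1), .write (some (M.step s M.z).1)) := rfl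
        rw [h0, if_neg hne, hsub])
    have h2 := ih hf' (M.step s M.z).2 (some (M.step s M.z).1 :: u)
    have h3 : (ListBlank.mk ([] : List (Option A))).tail = ListBlank.mk [] := rfl
    rw [h3, ListBlank.cons_mk] at h1
    have h4 := h1.trans h2
    have h5 : 2 + (2 * f + 1) = 2 * (f + 1) + 1 := by omega
    rw [h5] at h4
    have h6 : (mealy M.step s (List.replicate (f + 1) M.z)).2 =
        (mealy M.step (M.step s M.z).2 (List.replicate f M.z)).2 := rfl
    have h7 : (mealy M.step s (List.replicate (f + 1) M.z)).1.reverse.map some ++ u =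
        (mealy M.step (M.step s M.z).2 (List.replicate f M.z)).1.reverse.map some ++
          (some (M.step s M.z).1 :: u) := by
      show ((M.step s M.z).1 :: (mealy M.step (M.step s M.z).2
        (List.replicate f M.z)).1).reverse.map some ++ u = _
      rw [List.reverse_cons, List.map_append, List.append_assoc]
      rfl
    rw [h6, h7]
    exact h4

theorem ps_run (M : Sw A Q S m) (r : List A) (f : ℕ) (hf : f < M.F + 1) (s : S)
    (u : List (Option A)) :
    Det M.tm (2 * (r.length + f) + 1)
      ⟨.ps s ⟨f, hf⟩, Tape.mk' (ListBlank.mk u) (ListBlank.mk (r.map some))⟩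
      ⟨.bk (M.fin (mealy M.step s (r ++ List.replicate f M.z)).2),
        (Tape.mk' (ListBlank.mk ((mealy M.step s (r ++ List.replicate f M.z)).1.reverse.map some ++ u))
          (ListBlank.mk [])).move .left⟩ := by
  induction r generalizing s u with
  | nil =>
    have := ps_nil M f hf s u
    simpa using this
  | cons a r ih =>
    have h1 := two_steps M (s := s) (s' := (M.step s a).2) (f := ⟨f, hf⟩) (f' := ⟨f, hf⟩)
      (L := ListBlank.mk u) (R := ListBlank.mk ((a :: r).map some)) (y := some (M.step s a).1)
      (fun b => rfl)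
    have h2 := ih (M.step s a).2 (some (M.step s a).1 :: u)
    have h3 : (ListBlank.mk ((a :: r).map some)).tail = ListBlank.mk (r.map some) := rfl
    rw [h3, ListBlank.cons_mk] at h1
    have h4 := h1.trans h2
    have h5 : 2 + (2 * (r.length + f) + 1) = 2 * ((a :: r).length + f) + 1 := by
      rw [List.length_cons]
      omega
    rw [h5] at h4
    have h6 : (mealy M.step s (a :: r ++ List.replicate f M.z)).2 =
        (mealy M.step (M.step s a).2 (r ++ List.replicate f M.z)).2 := rfl
    have h7 : (mealy M.step s (a :: r ++ List.replicate f M.z)).1.reverse.map some ++ u =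
        (mealy M.step (M.step s a).2 (r ++ List.replicate f M.z)).1.reverse.map some ++
          (some (M.step s a).1 :: u) := by
      show ((M.step s a).1 :: (mealy M.step (M.step s a).2
        (r ++ List.replicate f M.z)).1).reverse.map some ++ u = _
      rw [List.reverse_cons, List.map_append, List.append_assoc]
      rfl
    rw [h6, h7]
    exact h4

theorem mk_none : (ListBlank.mk [none] : ListBlank (Option A)) = ListBlank.mk [] := by
  apply Quotient.sound'
  exact Or.inr ⟨1, rfl⟩

theorem bk_run (M : Sw A Q S m) (q : Q) (l : List A) (a : A) (r : List (Option A)) :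
    Det M.tm (l.length + 2)
      ⟨.bk q, Tape.mk' (ListBlank.mk (l.map some)) (ListBlank.mk (some a :: r))⟩
      ⟨.ch q 0, Tape.mk' (ListBlank.mk []) (ListBlank.mk (l.reverse.map some ++ some a :: r))⟩ := by
  induction l generalizing a r with
  | nil =>
    have h1 : Det M.tm 1
        ⟨.bk q, Tape.mk' (ListBlank.mk (([] : List A).map some)) (ListBlank.mk (some a :: r))⟩
        ⟨.bk q, Tape.mk' (ListBlank.mk []) (ListBlank.mk (none :: some a :: r))⟩ :=
      Det.step fun b => rfl
    have h2 : Det M.tm 1
        ⟨.bk q, Tape.mk' (ListBlank.mk []) (ListBlank.mk (none :: some a :: r))⟩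
        ⟨.ch q 0, Tape.mk' (ListBlank.mk [none]) (ListBlank.mk (some a :: r))⟩ :=
      Det.step fun b => rfl
    rw [mk_none] at h2
    exact h1.trans h2
  | cons b l ih =>
    have h1 : Det M.tm 1
        ⟨.bk q, Tape.mk' (ListBlank.mk ((b :: l).map some)) (ListBlank.mk (some a :: r))⟩
        ⟨.bk q, Tape.mk' (ListBlank.mk (l.map some)) (ListBlank.mk (some b :: some a :: r))⟩ :=
      Det.step fun b => rfl
    have h2 := h1.trans (ih b (some a :: r))
    have h3 : 1 + (l.length + 2) = (b :: l).length + 2 := by
      rw [List.length_cons]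
      omega
    rw [h3] at h2
    have h4 : (b :: l).reverse.map some ++ some a :: r = l.reverse.map some ++ some b :: some a :: r := by
      rw [List.reverse_cons, List.map_append, List.append_assoc]
      rfl
    rw [h4]
    exact h2

/-- one pass of the Turing machine -/
theorem sweep_run (M : Sw A Q S m) (q : Q) (x : Fin (m + 1)) (w : List A) :
    Det M.tm (3 * (w.length + M.F) + 2)
      ⟨.ps (M.start q x) (Fin.last M.F), Tape.mk₁ (w.map some)⟩
      ⟨.ch (M.sweep (q, w) x).1 0, Tape.mk₁ ((M.sweep (q, w) x).2.map some)⟩ := by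
  have h1 := ps_run M w M.F (Nat.lt_succ_self _) (M.start q x) []
  rw [List.append_nil] at h1
  have hlen := mealy_length (step := M.step) (w ++ List.replicate M.F M.z) (M.start q x)
  have e1 : (M.sweep (q, w) x).1 = M.fin (mealy M.step (M.start q x)
    (w ++ List.replicate M.F M.z)).2 := rfl
  have e2 : (M.sweep (q, w) x).2 = (mealy M.step (M.start q x)
    (w ++ List.replicate M.F M.z)).1 := rfl
  rw [e1, e2]
  generalize (mealy M.step (M.start q x) (w ++ List.replicate M.F M.z)).1 = w' at h1 hlen ⊢
  generalize M.fin (mealy M.step (M.start q x) (w ++ List.replicate M.F M.z)).2 = q' at h1 ⊢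
  rw [List.length_append, List.length_replicate] at hlen
  have hT : ∀ l : List (Option A), Tape.mk₁ l = Tape.mk' (ListBlank.mk []) (ListBlank.mk l) :=
    fun l => rfl
  rw [hT, hT]
  rcases hw : w'.reverse with _ | ⟨y, l⟩
  · have hw' : w' = [] := List.reverse_eq_nil_iff.1 hw
    subst hw'
    have hL : w.length + M.F = 0 := hlen.symm
    rw [hL] at h1 ⊢
    have h2 : Det M.tm 1 ⟨.bk q', (Tape.mk' (ListBlank.mk (([] : List A).reverse.map some))
        (ListBlank.mk [])).move .left⟩
        ⟨.ch q' 0, Tape.mk' (ListBlank.mk []) (ListBlank.mk (([] : List A).map some))⟩ := by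
      refine Det.step fun b => ?_
      have h3 : (Tape.mk' (ListBlank.mk (([] : List A).reverse.map some))
        (ListBlank.mk [])).move .left = Tape.mk' (ListBlank.mk []) (ListBlank.mk [none]) := by
        rw [move_left']
        rfl
      rw [h3]
      have h4 : TM0.step (M.tm b) ⟨.bk q', Tape.mk' (ListBlank.mk []) (ListBlank.mk [none])⟩ =
        some ⟨.ch q' 0, Tape.mk' (ListBlank.mk [none]) (ListBlank.mk [])⟩ := rfl
      rw [h4, mk_none]
      rfl
    exact h1.trans h2
  · rw [hw] at h1
    have h3 : (Tape.mk' (ListBlank.mk ((y :: l).map some)) (ListBlank.mk [])).move .left =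
      Tape.mk' (ListBlank.mk (l.map some)) (ListBlank.mk [some y]) := by
      rw [move_left']
      rfl
    rw [h3] at h1
    have h4 := h1.trans (bk_run M q' l y [])
    have hl : w'.length = l.length + 1 := by
      rw [← List.length_reverse, hw, List.length_cons]
    have h5 : 2 * (w.length + M.F) + 1 + (l.length + 2) = 3 * (w.length + M.F) + 2 := by omega
    rw [h5] at h4
    have h6 : w'.map some = l.reverse.map some ++ [some y] := by
      have : w' = (y :: l).reverse := by rw [← hw, List.reverse_reverse]
      rw [this, List.reverse_cons, List.map_append]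
      rfl
    rw [h6]
    exact h4

end Pool.Agent.NP15
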