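import Pool.Agent.NP15.TMa

/-!
# [NP15-TMB] sweeping machines with polynomially many passes give relations in `NP`

PLAN. (1) `choice_reach`: if `M.halt q = false` then for `x : Fin (m + 1)` and any tape `T`,
`Reaches M.tm (x + 1) ⟨.ch q 0, T⟩ ⟨.ps (M.start q x) (Fin.last _), T⟩` (reject `x` times with `b = false`, then `b = true`;
`Tape.write_self`; `TM0.step`). (2) `choice_all`: if `M.halt q = false` and `Reaches M.tm t ⟨.ch q 0, T⟩ d` then
`t ≤ m ∧ ¬ Halted M.tm d` or there are `x`, `u` with `t = x + 1 + u` and `Reaches M.tm u ⟨.ps (M.start q x) (Fin.last _), T⟩ d`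
(more generally start from `.ch q i`; induction on `m - i`, `reaches_succ`).
(3) With `sweep_run`: for a chain `M.Ch k (q, w) (q', w')` there is `t` with `Reaches M.tm t ⟨.ch q 0, mk₁ w⟩ ⟨.ch q' 0, mk₁ w'⟩`.
(4) Time: if all chains from `(q, w)` have length `≤ k` then all computations from `⟨.ch q 0, mk₁ w⟩` have at most
`(k + 1) * (m + 3 * (w.length + M.F * (k + 1)) + 4)` steps (induction on `k`; for `k = 0`, `q` is halted, since otherwise there is a
chain of length `1`; a pass makes the row longer by `M.F`: `mealy` preserves the length). (5) If a computation from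
`⟨.ch q 0, mk₁ w⟩` ends in a halted configuration `d` then `d = ⟨.ch q' 0, mk₁ w'⟩` with `M.Ch k (q, w) (q', w')` for some `k` and
`M.halt q' = true` (strong induction on the number of steps, `choice_all` and the second part of `Det`). Final alphabet `Option A`,
`enc' s = some (enc s)`, accepting states `{.ch q i | q ∈ acc}`; use `letI : Inhabited Q := ⟨q0⟩`.
-/

namespace Pool.Agent.NP15

open Turing DPoly

variable {A Q S : Type} {m : ℕ}

section tmb

variable [Inhabited Q]

private theorem tmb_reaches_trans {Γ Λ : Type} [Inhabited Γ] [Inhabited Λ]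
    {M : Bool → TM0.Machine Γ Λ} {t u : ℕ} {c c' c'' : TM0.Cfg Γ Λ} (h : Reaches M t c c')
    (h' : Reaches M u c' c'') : Reaches M (t + u) c c'' := by
  induction u generalizing c'' with
  | zero =>
    have h1 : c' = c'' := h'
    subst h1
    exact h
  | succ u ih =>
    obtain ⟨d, hd, b, hb⟩ := h'
    exact ⟨d, ih hd, b, hb⟩

private theorem ch_step_stay (M : Sw A Q S m) {q : Q} (hq : M.halt q = false) (i : Fin (m + 1))
    (T : Tape (Option A)) (hi : i ≠ Fin.last m) :
    TM0.step (M.tm false) ⟨TS.ch q i, T⟩ = some ⟨TS.ch q (i + 1), T⟩ := by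
  simp [TM0.step, Sw.tm, hq, hi, Tape.write_self]

private theorem ch_step_go (M : Sw A Q S m) {q : Q} (hq : M.halt q = false) (i : Fin (m + 1))
    (T : Tape (Option A)) {b : Bool} (hi : b = true ∨ i = Fin.last m) :
    TM0.step (M.tm b) ⟨TS.ch q i, T⟩ = some ⟨TS.ps (M.start q i) (Fin.last M.F), T⟩ := by
  simp [TM0.step, Sw.tm, hq, hi, Tape.write_self]

private theorem choice_reach_aux (M : Sw A Q S m) {q : Q} (hq : M.halt q = false)
    (T : Tape (Option A)) (x : Fin (m + 1)) : ∀ (k : ℕ) (i : Fin (m + 1)), (i : ℕ) + k = x →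
      Reaches M.tm (k + 1) ⟨TS.ch q i, T⟩ ⟨TS.ps (M.start q x) (Fin.last M.F), T⟩ := by
  intro k
  induction k with
  | zero =>
    intro i hi
    have h1 : i = x := Fin.ext (by simpa using hi)
    subst h1
    exact (reaches_succ _ _ _ _).mpr ⟨true, _, ch_step_go M hq i T (Or.inl rfl), rfl⟩
  | succ k ih =>
    intro i hi
    have h2 : (i : ℕ) < m := by have := x.2; omega
    have h1 : i ≠ Fin.last m := by
      intro h
      rw [h, Fin.val_last] at h2
      omega
    have h3 : ((i + 1 : Fin (m + 1)) : ℕ) = i + 1 := Fin.val_add_one_of_lt' (by omega)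
    exact (reaches_succ _ _ _ _).mpr ⟨false, _, ch_step_stay M hq i T h1, ih _ (by omega)⟩

private theorem choice_all_aux (M : Sw A Q S m) {q : Q} (hq : M.halt q = false)
    (T : Tape (Option A)) (d : TM0.Cfg (Option A) (TS Q S m M.F)) :
    ∀ (k : ℕ) (i : Fin (m + 1)), (i : ℕ) + k = m → ∀ t, Reaches M.tm t ⟨TS.ch q i, T⟩ d →
      (t ≤ k ∧ ¬ Halted M.tm d) ∨ ∃ (x : Fin (m + 1)) (u : ℕ), i ≤ x ∧ t = (x - i : ℕ) + 1 + u ∧
        Reaches M.tm u ⟨TS.ps (M.start q x) (Fin.last M.F), T⟩ d := by
  intro k
  induction k with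
  | zero =>
    intro i hi t ht
    have h1 : i = Fin.last m := Fin.ext (by simpa using hi)
    cases t with
    | zero =>
      left
      refine ⟨le_rfl, ?_⟩
      have h2 : _ = d := ht
      rw [← h2]
      intro h3
      have h4 := h3 true
      rw [ch_step_go M hq i T (Or.inl rfl)] at h4
      exact absurd h4 (by simp)
    | succ t =>
      right
      obtain ⟨b, c', hc', hd⟩ := (reaches_succ _ _ _ _).mp ht
      rw [ch_step_go M hq i T (Or.inr h1)] at hc'
      have h5 := Option.some_injective _ hc'
      rw [← h5] at hd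
      exact ⟨i, t, le_rfl, by omega, hd⟩
  | succ k ih =>
    intro i hi t ht
    have h1 : i ≠ Fin.last m := by
      intro h
      rw [h, Fin.val_last] at hi
      omega
    have h3 : ((i + 1 : Fin (m + 1)) : ℕ) = i + 1 := Fin.val_add_one_of_lt' (by omega)
    cases t with
    | zero =>
      left
      refine ⟨by omega, ?_⟩
      have h2 : _ = d := ht
      rw [← h2]
      intro h3
      have h4 := h3 true
      rw [ch_step_go M hq i T (Or.inl rfl)] at h4
      exact absurd h4 (by simp)
    | succ t =>
      obtain ⟨b, c', hc', hd⟩ := (reaches_succ _ _ _ _).mp ht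
      cases b with
      | true =>
        right
        rw [ch_step_go M hq i T (Or.inl rfl)] at hc'
        have h5 := Option.some_injective _ hc'
        rw [← h5] at hd
        exact ⟨i, t, le_rfl, by omega, hd⟩
      | false =>
        rw [ch_step_stay M hq i T h1] at hc'
        have h5 := Option.some_injective _ hc'
        rw [← h5] at hd
        rcases ih (i + 1) (by omega) t hd with ⟨h6, h7⟩ | ⟨x, u, h6, h7, h8⟩
        · exact Or.inl ⟨by omega, h7⟩
        · right
          have h9 : (i : ℕ) + 1 ≤ x := by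
            rw [← h3]
            exact h6
          refine ⟨x, u, ?_, by omega, h8⟩
          rw [Fin.le_def]
          omega

/-- the configuration before a pass -/
private def cf (M : Sw A Q S m) (c : Q × List A) : TM0.Cfg (Option A) (TS Q S m M.F) :=
  ⟨TS.ch c.1 0, Tape.mk₁ (c.2.map some)⟩

private theorem chain_reach (M : Sw A Q S m) : ∀ (k : ℕ) (c c' : Q × List A), M.Ch k c c' →
    ∃ t, Reaches M.tm t (cf M c) (cf M c') := by
  intro k
  induction k with
  | zero =>
    intro c c' h
    have h1 : c = c' := h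
    rw [h1]
    exact ⟨0, rfl⟩
  | succ k ih =>
    intro c c' h
    obtain ⟨h1, x, h2⟩ := h
    obtain ⟨t, ht⟩ := ih _ _ h2
    have h3 := choice_reach_aux M h1 (Tape.mk₁ (c.2.map some)) x x 0 (by simp)
    have h4 := (sweep_run M c.1 x c.2).1
    exact ⟨_, tmb_reaches_trans h3 (tmb_reaches_trans h4 ht)⟩

private theorem cf_halted (M : Sw A Q S m) {c : Q × List A} (h : M.halt c.1 = true) :
    Halted M.tm (cf M c) := by
  intro b
  simp [cf, TM0.step, Sw.tm, h]

private theorem reaches_halted (M : Sw A Q S m) {c : Q × List A} (h : M.halt c.1 = true) {t : ℕ}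
    {d : TM0.Cfg (Option A) (TS Q S m M.F)} (ht : Reaches M.tm t (cf M c) d) :
    t = 0 ∧ d = cf M c := by
  cases t with
  | zero => exact ⟨rfl, Eq.symm ht⟩
  | succ t =>
    obtain ⟨b, c', hc', hd⟩ := (reaches_succ _ _ _ _).mp ht
    rw [cf_halted M h b] at hc'
    exact absurd hc' (by simp)

private theorem reaches_cases (M : Sw A Q S m) {c : Q × List A} (h : M.halt c.1 = false) {t : ℕ}
    {d : TM0.Cfg (Option A) (TS Q S m M.F)} (ht : Reaches M.tm t (cf M c) d) :
    (t ≤ m + 3 + 3 * (c.2.length + M.F) ∧ ¬ Halted M.tm d) ∨ ∃ (x : Fin (m + 1)) (u : ℕ),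
      t ≤ m + 3 + 3 * (c.2.length + M.F) + u ∧ u < t ∧ Reaches M.tm u (cf M (M.sweep c x)) d := by
  rcases choice_all_aux M h (Tape.mk₁ (c.2.map some)) d m 0 (by simp) t ht with
    ⟨h1, h2⟩ | ⟨x, u, h1, h2, h3⟩
  · exact Or.inl ⟨by omega, h2⟩
  · have hx := x.2
    rcases (sweep_run M c.1 x c.2).2 u d h3 with ⟨h4, h5⟩ | ⟨v, h4, h5⟩
    · exact Or.inl ⟨by simp at h2; omega, h5⟩
    · exact Or.inr ⟨x, v, by simp at h2; omega, by omega, h5⟩

private theorem halted_chain (M : Sw A Q S m) {d : TM0.Cfg (Option A) (TS Q S m M.F)}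
    (hd : Halted M.tm d) : ∀ (t : ℕ) (c : Q × List A), Reaches M.tm t (cf M c) d →
      ∃ k c', M.Ch k c c' ∧ d = cf M c' := by
  intro t
  induction t using Nat.strong_induction_on with
  | _ t ih =>
    intro c ht
    cases hc : M.halt c.1 with
    | true => exact ⟨0, c, rfl, (reaches_halted M hc ht).2⟩
    | false =>
      rcases reaches_cases M hc ht with ⟨-, h2⟩ | ⟨x, u, -, h2, h3⟩
      · exact absurd hd h2
      · obtain ⟨k, c', h4, h5⟩ := ih u h2 _ h3
        exact ⟨k + 1, c', ⟨hc, x, h4⟩, h5⟩

private theorem time_bound (M : Sw A Q S m) : ∀ (K : ℕ) (c : Q × List A),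
    (∀ k c', M.Ch k c c' → k ≤ K) → ∀ (t : ℕ) (d : TM0.Cfg (Option A) (TS Q S m M.F)),
      Reaches M.tm t (cf M c) d → t ≤ K * (m + 3 + 3 * (c.2.length + M.F * K)) := by
  intro K
  induction K with
  | zero =>
    intro c hc t d ht
    cases h : M.halt c.1 with
    | true => rw [(reaches_halted M h ht).1]; exact Nat.zero_le _
    | false =>
      have h1 := hc 1 (M.sweep c 0) ⟨h, 0, rfl⟩
      omega
  | succ K ih =>
    intro c hc t d ht
    cases h : M.halt c.1 with
    | true => rw [(reaches_halted M h ht).1]; exact Nat.zero_le _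
    | false =>
      have h0 : m + 3 + 3 * (c.2.length + M.F) ≤ m + 3 + 3 * (c.2.length + M.F * (K + 1)) := by
        have : M.F ≤ M.F * (K + 1) := Nat.le_mul_of_pos_right _ (Nat.succ_pos K)
        omega
      rcases reaches_cases M h ht with ⟨h1, -⟩ | ⟨x, u, h1, -, h3⟩
      · calc t ≤ m + 3 + 3 * (c.2.length + M.F * (K + 1)) := h1.trans h0
          _ ≤ (K + 1) * (m + 3 + 3 * (c.2.length + M.F * (K + 1))) :=
            Nat.le_mul_of_pos_left _ (Nat.succ_pos K)
      · have h4 := ih (M.sweep c x) (fun k c' hk => by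
          have := hc (k + 1) c' ⟨h, x, hk⟩
          omega) u d h3
        have h5 : (M.sweep c x).2.length = c.2.length + M.F := by
          have hme : ∀ (l : List A) (s : S), (mealy M.step s l).1.length = l.length := by
            intro l
            induction l with
            | nil => intro s; rfl
            | cons a l ihl =>
              intro s
              simp only [mealy, List.length_cons, ihl]
          simp only [Sw.sweep]
          rw [hme, List.length_append, List.length_replicate]
        rw [h5] at h4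
        have h6 : K * (m + 3 + 3 * (c.2.length + M.F + M.F * K)) =
            K * (m + 3 + 3 * (c.2.length + M.F * (K + 1))) := by ring
        have h7 : (K + 1) * (m + 3 + 3 * (c.2.length + M.F * (K + 1))) =
            K * (m + 3 + 3 * (c.2.length + M.F * (K + 1))) +
              (m + 3 + 3 * (c.2.length + M.F * (K + 1))) := by ring
        omega

end tmb

theorem inNP_of_sw [Finite A] [Finite Q] [Finite S] (M : Sw A Q S m) (q0 : Q) (acc : Set Q)
    (hacc : ∀ q ∈ acc, M.halt q = true) (enc : Option Bool → A) (henc : Function.Injective enc)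
    (B : Polynomial ℕ) {n : ℕ} (R : Set (Fin n → ℕ))
    (h : ∀ a : Fin n → ℕ,
      (∀ k c, M.Ch k (q0, (word a).map enc) c → k ≤ B.eval (word a).length) ∧
      (a ∈ R ↔ ∃ k c, M.Ch k (q0, (word a).map enc) c ∧ c.1 ∈ acc)) : InNP R := by
  let _ : Inhabited Q := ⟨q0⟩
  refine ⟨Option A, TS Q S m M.F, inferInstance, inferInstance, inferInstance, inferInstance,
    M.tm, fun s => some (enc s), {l | ∃ q ∈ acc, ∃ i, l = TS.ch q i},
    B * (Polynomial.C (m + 3) + 3 * (Polynomial.X + Polynomial.C M.F * B)), ?_, ?_, ?_⟩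
  · intro s s' hs
    exact henc (Option.some_injective _ hs)
  · intro s
    exact Option.some_ne_none _
  · intro a
    obtain ⟨h1, h2⟩ := h a
    have hinit : (TM0.init ((word a).map fun s => some (enc s)) :
        TM0.Cfg (Option A) (TS Q S m M.F)) = cf M (q0, (word a).map enc) := by
      simp only [cf, TM0.init, List.map_map]
      rfl
    rw [hinit]
    refine ⟨?_, ?_⟩
    · intro t d ht
      have h3 := time_bound M _ _ h1 t d ht
      rw [List.length_map] at h3
      simpa using h3
    · rw [h2]
      constructor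
      · rintro ⟨k, c, hc, hca⟩
        obtain ⟨t, ht⟩ := chain_reach M _ _ _ hc
        exact ⟨t, cf M c, ht, cf_halted M (hacc _ hca), c.1, hca, 0, rfl⟩
      · rintro ⟨t, d, ht, hd, q, hq, i, hqi⟩
        obtain ⟨k, c', hc', rfl⟩ := halted_chain M hd t _ ht
        refine ⟨k, c', hc', ?_⟩
        have h3 : (TS.ch c'.1 0 : TS Q S m M.F) = TS.ch q i := hqi
        injection h3 with h4 h5
        rw [h4]
        exact hq

end Pool.Agent.NP15
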